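import Pool.Agent.P.MP_3c2f8c_gt.Qu.Defs
import Pool.Agent.P.MP_3c2f8c_gt.An.Defs

/-!
Definitions for the Hecke operator at a split prime: stabilisers of norms, correspondences between
coset spaces, a semigroup of regular elements.
-/

namespace Pool.Agent.P.MP_3c2f8c_gt

open Matrix

/-- A correspondence between two coset spaces: an invariant kernel with finite rows, injective on
functions, supported on pairs of cosets with quotient in `𝒮`. -/
def Corr {O : Type} [Group O] (A B : Subgroup O) (𝒮 : Set O) : Prop :=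
  ∃ κ : O ⧸ A → O ⧸ B → ℕ, (∀ z, {z' | κ z z' ≠ 0}.Finite) ∧
    (∀ (g : O) z z', κ (g • z) (g • z') = κ z z') ∧
    (∀ f : O ⧸ B → ℝ, (∀ z, ∑ᶠ z', (κ z z' : ℝ) * f z' = 0) → f = 0) ∧
    ∀ g g' : O, κ g g' ≠ 0 → g⁻¹ * g' ∈ 𝒮

variable {p : ℕ} [Fact p.Prime] {N : ℕ}

/-- The index set of the split form. -/
abbrev Ix (N : ℕ) : Type := Fin N × Fin 2

/-- The involution of the index set. -/
def bar (i : Ix N) : Ix N := (i.1, i.2.rev)

/-- The split orthogonal group over `ℚ_p`. -/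
abbrev Osp (N p : ℕ) [Fact p.Prime] : Type := Ort (hypW N ℚ_[p])

/-- The entries of `g` are bounded by the weights `x`. -/
def Wb (x : Ix N → ℝ) (g : Matrix (Ix N) (Ix N) ℚ_[p]) : Prop :=
  ∀ i j, ‖g i j‖ ≤ (p : ℝ) ^ (x i - x j)

theorem Wb.mul {x : Ix N → ℝ} {g h : Matrix (Ix N) (Ix N) ℚ_[p]} (hg : Wb x g) (hh : Wb x h) :
    Wb x (g * h) := fun i j => by
  have hp : (0 : ℝ) < p := by exact_mod_cast (Fact.out : p.Prime).pos
  rw [Matrix.mul_apply]
  refine IsUltrametricDist.norm_sum_le_of_forall_le_of_nonneg (by positivity) fun k _ => ?_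
  rw [norm_mul, show x i - x j = (x i - x k) + (x k - x j) by ring, Real.rpow_add hp]
  exact mul_le_mul (hg i k) (hh k j) (norm_nonneg _) (by positivity)

theorem wb_one (x : Ix N → ℝ) : Wb x (1 : Matrix (Ix N) (Ix N) ℚ_[p]) := fun i j => by
  rw [Matrix.one_apply]
  split_ifs with h
  · simp [h]
  · rw [norm_zero]
    positivity

/-- The stabiliser of the norm with weights `x`. -/
def Gx (p : ℕ) [Fact p.Prime] (x : Ix N → ℝ) : Subgroup (Osp N p) where
  carrier := {g | Wb x g.1.1 ∧ Wb x (g⁻¹).1.1}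
  one_mem' := ⟨wb_one x, by simpa using wb_one x⟩
  mul_mem' := fun {g h} hg hh => ⟨hg.1.mul hh.1, by
    simpa only [Subgroup.coe_mul, _root_.mul_inv_rev, Units.val_mul] using hh.2.mul hg.2⟩
  inv_mem' := fun {g} hg => ⟨hg.2, by simpa using hg.1⟩

/-- Weights compatible with the form. -/
def AntiW (x : Ix N → ℝ) : Prop := ∀ i, x (bar i) = -x i

/-- No difference of weights is an integer. -/
def Generic (x : Ix N → ℝ) : Prop := ∀ i j, i ≠ j → ∀ k : ℤ, x i - x j ≠ k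

/-- The only integral differences of weights are those of the pair `i₀, j₀` and its mirror image. -/
def Wall (y : Ix N → ℝ) (i₀ j₀ : Ix N) : Prop :=
  i₀ ≠ j₀ ∧ (∃ k : ℤ, y i₀ - y j₀ = k) ∧ ∀ i j, i ≠ j → (∃ k : ℤ, y i - y j = k) →
    (i = i₀ ∧ j = j₀) ∨ (i = j₀ ∧ j = i₀) ∨ (i = bar i₀ ∧ j = bar j₀) ∨ (i = bar j₀ ∧ j = bar i₀)

/-- `τ` enumerates the `k` indices with the largest values of `l`. -/
def Top {k : ℕ} (l : Ix N → ℤ) (τ : Fin k → Ix N) : Prop :=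
  Function.Injective τ ∧ ∀ a j, l (τ a) < l j → ∃ a', τ a' = j

/-- All leading principal minors are units. -/
def Big (l : Ix N → ℤ) (g : Matrix (Ix N) (Ix N) ℚ_[p]) : Prop :=
  ∀ (k : ℕ) (τ : Fin k → Ix N), Top l τ → ‖(g.submatrix τ τ).det‖ = 1

/-- The bounds on all minors that define the semigroup. -/
def InS (l : Ix N → ℤ) (y : Ix N → ℝ) (s t : ℝ) (c : ℕ) (g : Matrix (Ix N) (Ix N) ℚ_[p]) : Prop :=
  ∀ (k : ℕ) (τ : Fin k → Ix N), Top l τ →
    (∀ f f' : Fin k → Ix N, Function.Injective f → Function.Injective f' →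
      ‖(g.submatrix f f').det‖ ≤ (p : ℝ) ^ (∑ a, y (f a) - ∑ a, y (f' a) +
        s * (∑ a, (l (f a) : ℝ) - ∑ a, (l (τ a) : ℝ)) -
        t * (∑ a, (l (f' a) : ℝ) - ∑ a, (l (τ a) : ℝ)) + c * ∑ a, (l (τ a) : ℝ))) ∧
    ‖(g.submatrix τ τ).det‖ = (p : ℝ) ^ (c * ∑ a, (l (τ a) : ℝ))

/-- The point `y + t l`. -/
def pt (l : Ix N → ℤ) (y : Ix N → ℝ) (t : ℝ) : Ix N → ℝ := fun i => y i + t * l i

end Pool.Agent.P.MP_3c2f8c_gt
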