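import Pool.Agent.P.MP_3c2f8c_gt.Gl.FDefs
import Pool.Agent.P.MP_3c2f8c_gt.Gl.Fin
import Pool.Agent.P.MP_3c2f8c_gt.Lo.HDefs
import Pool.Agent.P.MP_3c2f8c_gt.Qu.RChar

/-! LO-3: the topology of the local groups. -/

namespace Pool.Agent.P.MP_3c2f8c_gt

open Matrix

section Abstract

variable {G G' : Type} [Group G] [TopologicalSpace G] [IsTopologicalGroup G] [Group G']
  [TopologicalSpace G'] [IsTopologicalGroup G']

theorem finite_cosets {C : Set G} (hC : IsCompact C) {K : Subgroup G} (hK : IsOpen (K : Set G)) :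
    ∃ s : Finset G, ∀ g ∈ C, ∃ r ∈ s, r⁻¹ * g ∈ K := by
  obtain ⟨t, -, ht⟩ := hC.elim_nhds_subcover (fun r => {g | r⁻¹ * g ∈ K}) fun r _ =>
    (hK.preimage (continuous_const_mul r⁻¹)).mem_nhds (by simp)
  refine ⟨t, fun g hg => ?_⟩
  simpa using ht hg

theorem CO.inf {K K' : Subgroup G} (h : CO K) (h' : CO K') : CO (K ⊓ K') :=
  ⟨h.1.inter_right (K'.isClosed_of_isOpen h'.2), h.2.inter h'.2⟩

theorem CO.relIndex_ne_zero {K K' : Subgroup G} (h : CO K) (h' : CO K') :
    K.relIndex K' ≠ 0 := by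
  have : CompactSpace K' := isCompact_iff_compactSpace.1 h'.1
  have : Finite (K' ⧸ K.subgroupOf K') :=
    (K.subgroupOf K').quotient_finite_of_isOpen (h.2.preimage continuous_subtype_val)
  exact Subgroup.index_ne_zero_of_finite

theorem CO.conj {K : Subgroup G} (h : CO K) (g : G) :
    CO (K.map (MulAut.conj g).toMonoidHom) := by
  let e : G ≃ₜ G := (Homeomorph.mulLeft g).trans (Homeomorph.mulRight g⁻¹)
  have he : (K.map (MulAut.conj g).toMonoidHom : Set G) = e '' K := rfl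
  exact ⟨he ▸ h.1.image e.continuous, he ▸ e.isOpenMap _ h.2⟩

omit [IsTopologicalGroup G] [IsTopologicalGroup G'] in
theorem CO.comap (e : G ≃ₜ* G') {K : Subgroup G'} (h : CO K) :
    CO (K.comap e.toMulEquiv.toMonoidHom) :=
  ⟨e.toHomeomorph.isCompact_preimage.2 h.1, h.2.preimage e.continuous_toFun⟩

omit [TopologicalSpace G] [IsTopologicalGroup G] in
theorem TopAux.mem_fiRes {g : G} : g ∈ fiRes G ↔ ∀ H : Subgroup G, H.FiniteIndex → g ∈ H := by
  simp [fiRes, Subgroup.mem_iInf]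

omit [TopologicalSpace G] [IsTopologicalGroup G] in
theorem fiRes_normal : (fiRes G).Normal := by
  refine ⟨fun g hg x => TopAux.mem_fiRes.2 fun H hH => ?_⟩
  exact H.normalCore_le (H.normalCore_normal.conj_mem g
    (TopAux.mem_fiRes.1 hg H.normalCore inferInstance) x)

omit [TopologicalSpace G] [IsTopologicalGroup G] in
theorem mem_fiRes_of_root {g : G} (h : ∀ k : ℕ, 0 < k → ∃ g' : G, g' ^ k = g) :
    g ∈ fiRes G := by
  refine TopAux.mem_fiRes.2 fun H hH => ?_
  obtain ⟨g', rfl⟩ := h H.normalCore.index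
    (Nat.pos_of_ne_zero Subgroup.FiniteIndex.index_ne_zero)
  exact H.normalCore_le (H.normalCore.pow_index_mem g')

omit [IsTopologicalGroup G] [IsTopologicalGroup G'] in
theorem GoodLev.comap (e : G ≃ₜ* G') {K : Subgroup G'} (h : GoodLev K) :
    GoodLev (K.comap e.toMulEquiv.toMonoidHom) := by
  refine ⟨h.1.comap e, fun g => ?_, fun g hg ho => ?_⟩
  · obtain ⟨u, hu, hn⟩ := h.2.1 (e.toMulEquiv g)
    refine ⟨e.toMulEquiv.symm u, TopAux.mem_fiRes.2 fun H hH => ?_, ?_⟩
    · have hi := H.index_comap_of_surjective (f := e.toMulEquiv.symm.toMonoidHom)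
        e.toMulEquiv.symm.surjective
      exact TopAux.mem_fiRes.1 hu (H.comap e.toMulEquiv.symm.toMonoidHom)
        ⟨hi ▸ hH.index_ne_zero⟩
    · rw [Subgroup.mem_set_normalizer_iff] at hn ⊢
      intro x
      have := hn (e.toMulEquiv x)
      change e.toMulEquiv x ∈ K ↔ e.toMulEquiv _ ∈ K
      simpa only [map_mul, map_inv, MulEquiv.apply_symm_apply, SetLike.mem_coe] using this
  · apply e.toMulEquiv.injective
    rw [map_one]
    exact h.2.2 _ hg (e.toMulEquiv.toMonoidHom.isOfFinOrder ho)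

end Abstract

namespace TopAux

section Units

variable {M : Type} [Monoid M] [TopologicalSpace M] [ContinuousMul M]

theorem isCompact_units [T1Space M] {U : Subgroup Mˣ} (hU : IsClosed (U : Set Mˣ)) {B B' : Set M}
    (hB : IsCompact B) (hB' : IsCompact B') :
    IsCompact {g : U | g.1.1 ∈ B ∧ (g⁻¹).1.1 ∈ B'} := by
  have h1 := (Units.isClosedEmbedding_embedProduct (α := M)).comp hU.isClosedEmbedding_subtypeVal
  have h2 := h1.isCompact_preimage (hB.prod (hB'.image MulOpposite.continuous_op))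
  refine (congrArg IsCompact (Set.ext fun g => ?_)).mp h2
  simp [Units.embedProduct]

omit [ContinuousMul M] in
theorem isInducing_units {U : Subgroup Mˣ} {φ : M → M} (hφ : Continuous φ)
    (h : ∀ g : U, (g⁻¹).1.1 = φ g.1.1) : Topology.IsInducing fun g : U => g.1.1 := by
  have h1 := (Units.isInducing_embedProduct (M := M)).comp
    (Topology.IsInducing.subtypeVal (t := (U : Set Mˣ)))
  refine Topology.IsInducing.of_comp (g := fun x => (x, MulOpposite.op (φ x)))
    (Units.continuous_val.comp continuous_subtype_val)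
    (continuous_id.prodMk (MulOpposite.continuous_op.comp hφ)) ?_
  refine (congrArg Topology.IsInducing (funext fun g => ?_)).mp h1
  exact Prod.ext rfl (congrArg MulOpposite.op (h g))

theorem exists_conj_equiv {U V : Subgroup Mˣ} (φ : Mˣ) (h : ∀ g ∈ U, φ * g * φ⁻¹ ∈ V)
    (h' : ∀ g ∈ V, φ⁻¹ * g * φ ∈ U) : ∃ e : U ≃ₜ* V, ∀ g, (e g).1 = φ * g.1 * φ⁻¹ :=
  ⟨{ toFun := fun g => ⟨φ * g.1 * φ⁻¹, h _ g.2⟩
     invFun := fun g => ⟨φ⁻¹ * g.1 * φ, h' _ g.2⟩
     left_inv := fun g => Subtype.ext (by group)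
     right_inv := fun g => Subtype.ext (by group)
     map_mul' := fun g g' => Subtype.ext (by simp only [Subgroup.coe_mul]; group)
     continuous_toFun := Continuous.subtype_mk (by fun_prop) _
     continuous_invFun := Continuous.subtype_mk (by fun_prop) _ }, fun _ => rfl⟩

end Units

section Quat

open scoped Quaternion

variable {R : Type} [CommRing R] [TopologicalSpace R] [IsTopologicalRing R] {c₁ c₂ c₃ : R}

omit [CommRing R] [IsTopologicalRing R] in
theorem isEmbedding_quat : Topology.IsEmbedding (QuaternionAlgebra.equivTuple c₁ c₂ c₃) :=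
  ⟨⟨rfl⟩, (QuaternionAlgebra.equivTuple c₁ c₂ c₃).injective⟩

omit [CommRing R] [IsTopologicalRing R] in
theorem isClosedEmbedding_quat :
    Topology.IsClosedEmbedding (QuaternionAlgebra.equivTuple c₁ c₂ c₃) :=
  ⟨isEmbedding_quat, by
    rw [(QuaternionAlgebra.equivTuple c₁ c₂ c₃).surjective.range_eq]; exact isClosed_univ⟩

omit [CommRing R] [IsTopologicalRing R] in
theorem t2_quat [T2Space R] : T2Space ℍ[R, c₁, c₂, c₃] := isEmbedding_quat.t2Space

theorem contStar_quat : ContinuousStar ℍ[R, c₁, c₂, c₃] := by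
  obtain ⟨h1, h2, h3, h4⟩ := (continuous_quat (f := fun x : ℍ[R, c₁, c₂, c₃] => x)).1
    continuous_id
  refine ⟨continuous_quat.2 ?_⟩
  simp only [QuaternionAlgebra.re_star, QuaternionAlgebra.imI_star, QuaternionAlgebra.imJ_star,
    QuaternionAlgebra.imK_star]
  refine ⟨?_, ?_, ?_, ?_⟩ <;> fun_prop

end Quat

variable {a b : ℤ} {ι : Type} [Fintype ι] [DecidableEq ι] {p : ℕ} [Fact p.Prime]

theorem isClosed_un (H : Matrix ι ι (Q a b ℚ_[p])) :
    IsClosed (Un H : Set (Matrix ι ι (Q a b ℚ_[p]))ˣ) := by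
  have : T2Space (Q a b ℚ_[p]) := t2_quat
  have : ContinuousStar (Q a b ℚ_[p]) := contStar_quat
  exact isClosed_eq ((Units.continuous_val.matrix_conjTranspose.mul continuous_const).mul
    Units.continuous_val) continuous_const

theorem isClosed_ort (S : Matrix ι ι ℚ_[p]) : IsClosed (Ort S : Set (Matrix ι ι ℚ_[p])ˣ) :=
  isClosed_eq ((Units.continuous_val.matrix_transpose.mul continuous_const).mul
    Units.continuous_val) continuous_const

theorem isCompact_intQ {c : ℚ_[p]} (hc : c ≠ 0) :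
    IsCompact {z : Q a b ℚ_[p] | c • z ∈ intQ a b p} := by
  have h1 : IsCompact (Set.univ.pi fun _ : Fin 4 => Metric.closedBall (0 : ℚ_[p]) ‖c‖⁻¹) :=
    isCompact_univ_pi fun _ => isCompact_closedBall _ _
  have h2 := (isClosedEmbedding_quat (c₁ := (a : ℚ_[p])) (c₂ := 0)
    (c₃ := (b : ℚ_[p]))).isCompact_preimage h1
  refine (congrArg IsCompact (Set.ext fun z => ?_)).mp h2
  have key : ∀ x : ℚ_[p], ‖x‖ ≤ ‖c‖⁻¹ ↔ ‖c * x‖ ≤ 1 := fun x => by
    rw [norm_mul, ← le_div_iff₀' (norm_pos_iff.2 hc), one_div]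
  simp only [Set.mem_preimage, Set.mem_pi, Set.mem_univ, true_imp_iff, mem_closedBall_zero_iff,
    Fin.forall_fin_succ, IsEmpty.forall_iff, and_true, Set.mem_ofPred_eq, mem_intQ, key]
  rfl

omit [Fintype ι] [DecidableEq ι] in
theorem isCompact_intM {c : ℚ_[p]} (hc : c ≠ 0) :
    IsCompact {X : Matrix ι ι (Q a b ℚ_[p]) | IntM (c • X)} := by
  have h := isCompact_pi_infinite (s := fun _ : ι => {v : ι → Q a b ℚ_[p] |
    ∀ j, v j ∈ {z : Q a b ℚ_[p] | c • z ∈ intQ a b p}}) fun _ =>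
      isCompact_pi_infinite fun _ => isCompact_intQ hc
  exact h

theorem isOpen_intQ (c : ℚ_[p]) : IsOpen {z : Q a b ℚ_[p] | c • z ∈ intQ a b p} := by
  obtain ⟨h1, h2, h3, h4⟩ := (continuous_quat (f := fun x : Q a b ℚ_[p] => x)).1 continuous_id
  have key : ∀ f : Q a b ℚ_[p] → ℚ_[p], Continuous f → IsOpen {z | ‖c * f z‖ ≤ 1} := by
    intro f hf
    have hc : Continuous fun z => c * f z := continuous_const.mul hf
    have := (IsUltrametricDist.isOpen_closedBall (0 : ℚ_[p]) one_ne_zero).preimage hc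
    simpa only [Set.preimage, mem_closedBall_zero_iff] using this
  simp only [mem_intQ]
  exact (key _ h1).inter ((key _ h2).inter ((key _ h3).inter (key _ h4)))

omit [DecidableEq ι] in
theorem isOpen_intM (c : ℚ_[p]) : IsOpen {X : Matrix ι ι (Q a b ℚ_[p]) | IntM (c • X)} := by
  have : {X : Matrix ι ι (Q a b ℚ_[p]) | IntM (c • X)} =
      ⋂ i, ⋂ j, (fun X => X i j) ⁻¹' {z : Q a b ℚ_[p] | c • z ∈ intQ a b p} := by
    ext X
    simp only [Set.mem_iInter]
    rfl
  rw [this]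
  exact isOpen_iInter_of_finite fun i => isOpen_iInter_of_finite fun j =>
    (isOpen_intQ c).preimage (continuous_id.matrix_elem i j)

end TopAux

open TopAux

variable {a b : ℤ} {ι : Type} [Fintype ι] [DecidableEq ι] {p : ℕ} [Fact p.Prime]

theorem isCompact_bounded (H : Matrix ι ι (Q a b ℚ_[p])) {c : ℚ_[p]} (hc : c ≠ 0) :
    IsCompact {g : Un H | IntM (c • g.1.1) ∧ IntM (c • (g⁻¹).1.1)} := by
  have : T2Space (Q a b ℚ_[p]) := t2_quat
  exact isCompact_units (isClosed_un H) (isCompact_intM hc) (isCompact_intM hc)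

theorem co_K0 (H : Matrix ι ι (Q a b ℚ_[p])) : CO (K0 H) := by
  have h1 := isCompact_bounded H (c := 1) one_ne_zero
  have h2 := isOpen_intM (a := a) (b := b) (ι := ι) (1 : ℚ_[p])
  simp only [one_smul] at h1 h2
  have h3 : Continuous fun g : Un H => g.1.1 := Units.continuous_val.comp continuous_subtype_val
  exact ⟨h1, (h2.preimage h3).inter (h2.preimage (h3.comp continuous_inv))⟩

theorem bounded_of_isCompact {H : Matrix ι ι (Q a b ℚ_[p])} {C : Set (Un H)} (hC : IsCompact C) :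
    ∃ k : ℕ, ∀ g ∈ C, IntM ((p : ℚ_[p]) ^ k • g.1.1) := by
  have h3 : Continuous fun g : Un H => g.1.1 := Units.continuous_val.comp continuous_subtype_val
  have hm : Monotone fun k : ℕ => {g : Un H | IntM ((p : ℚ_[p]) ^ k • g.1.1)} := by
    refine monotone_nat_of_le_succ fun k g hg => ?_
    have := IntM.smul hg (c := p) (IsUltrametricDist.norm_natCast_le_one _ p)
    rwa [smul_smul, ← pow_succ'] at this
  obtain ⟨k, hk⟩ := hC.elim_directed_cover
    (fun k : ℕ => {g : Un H | IntM ((p : ℚ_[p]) ^ k • g.1.1)})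
    (fun k => (isOpen_intM _).preimage h3)
    (fun g _ => Set.mem_iUnion.2 (exists_pow_smul_intM g.1.1)) hm.directed_le
  exact ⟨k, hk⟩

theorem isCompact_ort (S : Matrix ι ι ℚ_[p]) (R : ℝ) :
    IsCompact {g : Ort S | ∀ i j, ‖g.1.1 i j‖ ≤ R ∧ ‖(g⁻¹).1.1 i j‖ ≤ R} := by
  have h : IsCompact {X : Matrix ι ι ℚ_[p] | ∀ i j, X i j ∈ Metric.closedBall (0 : ℚ_[p]) R} :=
    isCompact_pi_infinite (s := fun _ : ι => {v : ι → ℚ_[p] |
      ∀ j, v j ∈ Metric.closedBall (0 : ℚ_[p]) R}) fun _ =>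
        isCompact_pi_infinite fun _ => isCompact_closedBall _ _
  refine (congrArg IsCompact (Set.ext fun g => ?_)).mp (isCompact_units (isClosed_ort S) h h)
  simp only [Set.mem_ofPred_eq, mem_closedBall_zero_iff, forall_and]

/-- The topology of the orthogonal group is that of the matrices. -/
theorem isInducing_ort {S : Matrix ι ι ℚ_[p]} (hu : IsUnit S) :
    Topology.IsInducing fun g : Ort S => g.1.1 := by
  obtain ⟨u, rfl⟩ := hu
  refine isInducing_units (φ := fun X => (u⁻¹).1 * (Xᵀ * u.1))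
    (continuous_const.mul (continuous_id.matrix_transpose.mul continuous_const)) fun g => ?_
  have h : g.1.1ᵀ * u.1 * g.1.1 = u.1 := g.2
  refine Units.inv_eq_of_mul_eq_one_left ?_
  rw [mul_assoc, h, Units.inv_mul]

/-- The topology of the unitary group is that of the matrices. -/
theorem isInducing_un {H : Matrix ι ι (Q a b ℚ_[p])} (hu : IsUnit H) :
    Topology.IsInducing fun g : Un H => g.1.1 := by
  have : ContinuousStar (Q a b ℚ_[p]) := contStar_quat
  obtain ⟨u, rfl⟩ := hu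
  refine isInducing_units (φ := fun X => (u⁻¹).1 * (Xᴴ * u.1))
    (continuous_const.mul (continuous_id.matrix_conjTranspose.mul continuous_const)) fun g => ?_
  have h : g.1.1ᴴ * u.1 * g.1.1 = u.1 := g.2
  refine Units.inv_eq_of_mul_eq_one_left ?_
  rw [mul_assoc, h, Units.inv_mul]

theorem TopAux.transp_inv {A : Type} [Ring A] [StarRing A] {H₀ H : Matrix ι ι A}
    (φ : (Matrix ι ι A)ˣ) (h : φ.1ᴴ * H₀ * φ.1 = H) : (φ⁻¹).1ᴴ * H * (φ⁻¹).1 = H₀ := by
  calc (φ⁻¹).1ᴴ * H * (φ⁻¹).1 = (φ.1 * (φ⁻¹).1)ᴴ * H₀ * (φ.1 * (φ⁻¹).1) := by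
        rw [← h]
        simp only [conjTranspose_mul, Matrix.mul_assoc]
    _ = H₀ := by rw [← Units.val_mul, mul_inv_cancel]; simp

theorem exists_transp_equiv {A : Type} [Ring A] [StarRing A] [TopologicalSpace A]
    [IsTopologicalRing A] {H₀ H : Matrix ι ι A} (φ : (Matrix ι ι A)ˣ)
    (h : φ.1ᴴ * H₀ * φ.1 = H) : ∃ e : Un H ≃ₜ* Un H₀, ∀ g, e g = transp φ h g := by
  obtain ⟨e, he⟩ := exists_conj_equiv (U := Un H) (V := Un H₀) φ
    (fun g hg => (transp φ h ⟨g, hg⟩).2)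
    (fun g hg => by simpa [transp_val] using (transp φ⁻¹ (transp_inv φ h) ⟨g, hg⟩).2)
  exact ⟨e, fun g => Subtype.ext (he g)⟩

theorem transp_bijective {A : Type} [Ring A] [StarRing A] {H₀ H : Matrix ι ι A}
    (φ : (Matrix ι ι A)ˣ) (h : φ.1ᴴ * H₀ * φ.1 = H) : Function.Bijective (transp φ h) := by
  refine Function.bijective_iff_has_inverse.2 ⟨transp φ⁻¹ (transp_inv φ h), fun g => ?_,
    fun g => ?_⟩ <;> apply Subtype.ext <;> simp only [transp_val] <;> group

variable [NeZero a] [NeZero b]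

theorem TopAux.exists_mor {s t : ℚ_[p]} (h : (b : ℚ_[p]) = s ^ 2 - a * t ^ 2)
    {H : Matrix ι ι (Q a b ℚ_[p])} (hu : IsUnit H) :
    ∃ e : Un H ≃ₜ* Ort (gram (spEmb a b h) H), ∀ g, (e g).1.1 = mor (spEmb a b h) g.1.1 := by
  obtain ⟨e, he⟩ := exists_morEquiv h H
  obtain ⟨h1, h2, h3, h4⟩ := (continuous_quat (f := fun x : Q a b ℚ_[p] => x)).1 continuous_id
  have c1 : ∀ k l, Continuous fun z => spEmb a b h z k l := by
    intro k l
    fin_cases k <;> fin_cases l <;> simp [spEmb] <;> fun_prop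
  let L : Q a b ℚ_[p] ≃ₗ[ℚ_[p]] Matrix (Fin 2) (Fin 2) ℚ_[p] := LinearEquiv.ofBijective
    { toFun := spEmb a b h, map_add' := map_add _, map_smul' := spEmb_smul h }
    (spEmb_bijective h)
  have c2 : Continuous L.symm := continuous_quat.2
    ⟨((QuaternionAlgebra.reₗ _ _ _).comp L.symm.toLinearMap).continuous_of_finiteDimensional,
      ((QuaternionAlgebra.imIₗ _ _ _).comp L.symm.toLinearMap).continuous_of_finiteDimensional,
      ((QuaternionAlgebra.imJₗ _ _ _).comp L.symm.toLinearMap).continuous_of_finiteDimensional,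
      ((QuaternionAlgebra.imKₗ _ _ _).comp L.symm.toLinearMap).continuous_of_finiteDimensional⟩
  have v1 : Continuous fun g : Un H => g.1.1 := Units.continuous_val.comp continuous_subtype_val
  have v2 : Continuous fun g : Ort (gram (spEmb a b h) H) => g.1.1 :=
    Units.continuous_val.comp continuous_subtype_val
  refine ⟨{ e with continuous_toFun := ?_, continuous_invFun := ?_ }, he⟩
  · refine (isInducing_ort (gram_isUnit h hu)).continuous_iff.2 (continuous_matrix ?_)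
    rintro ⟨i, k⟩ ⟨j, l⟩
    have : (fun g : Un H => (e g).1.1 (i, k) (j, l)) = fun g => spEmb a b h (g.1.1 i j) k l :=
      funext fun g => by rw [he]; rfl
    exact this ▸ (c1 k l).comp (v1.matrix_elem i j)
  · refine (isInducing_un hu).continuous_iff.2 (continuous_matrix fun i j => ?_)
    have : (fun g => (e.symm g).1.1 i j) =
        fun g => L.symm (Matrix.of fun k l => g.1.1 (i, k) (j, l)) := by
      funext g
      rw [eq_comm, LinearEquiv.symm_apply_eq]
      have := he (e.symm g)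
      rw [MulEquiv.apply_symm_apply] at this
      rw [this]
      rfl
    exact this ▸ c2.comp (continuous_matrix fun k l => v2.matrix_elem _ _)

theorem exists_morita_top (hs : IsNm (a : ℚ_[p]) (b : ℚ_[p])) {H : Matrix ι ι (Q a b ℚ_[p])}
    (hH : Hᴴ = -H) (hu : IsUnit H) :
    ∃ (S : Matrix (ι × Fin 2) (ι × Fin 2) ℚ_[p]) (e : Un H ≃ₜ* Ort S), Sᵀ = S ∧ IsUnit S ∧
      ∀ g, (e g).1.1.det = nrd g.1.1 := by
  obtain ⟨s, t, h⟩ := hs
  obtain ⟨e, he⟩ := exists_mor h hu
  exact ⟨_, e, gram_symm h hH, gram_isUnit h hu, fun g => by rw [he, nrd_eq_det h]⟩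

theorem exists_morita_hyp (hs : IsNm (a : ℚ_[p]) (b : ℚ_[p])) {N : ℕ} {x : Fin N → Q a b ℚ_[p]}
    (hx : ∀ j, (x j).re = 0 ∧ sqp (x j) ≠ 0 ∧ IsSquare (sqp (x j)))
    {H : Matrix (Fin N) (Fin N) (Q a b ℚ_[p])} (hH : H = diagonal x) :
    ∃ e : Un H ≃ₜ* Osp N p, ∀ g, (e g).1.1.det = nrd g.1.1 ∧
      (e g).1.1.charpoly = rchar g.1.1 := by
  obtain ⟨s, t, h⟩ := hs
  have hu : IsUnit H := by
    rw [hH, isUnit_iff_nrd, nrd_diagonal]
    refine Finset.prod_ne_zero_iff.2 fun j _ h0 => (hx j).2.1 ?_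
    rw [sqp_of_pure (hx j).1, h0, neg_zero]
  obtain ⟨e, he⟩ := exists_mor h hu
  obtain ⟨P, ⟨P, rfl⟩, hP⟩ := exists_hyp h x hx
  rw [← hH] at hP
  revert e
  generalize gram (spEmb a b h) H = S at hP ⊢
  intro e he
  have hP' : (P⁻¹).1ᵀ * hypW N ℚ_[p] * (P⁻¹).1 = S := by
    calc (P⁻¹).1ᵀ * hypW N ℚ_[p] * (P⁻¹).1 = (P.1 * (P⁻¹).1)ᵀ * S * (P.1 * (P⁻¹).1) := by
          rw [← hP]
          simp only [transpose_mul, Matrix.mul_assoc]
      _ = S := by rw [← Units.val_mul, mul_inv_cancel]; simp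
  have key : ∀ (S S' : Matrix (Fin N × Fin 2) (Fin N × Fin 2) ℚ_[p])
      (P : (Matrix (Fin N × Fin 2) (Fin N × Fin 2) ℚ_[p])ˣ), P.1ᵀ * S * P.1 = S' →
      (P⁻¹).1ᵀ * S' * (P⁻¹).1 = S → ∀ g ∈ Ort S, P⁻¹ * g * P ∈ Ort S' := by
    intro S S' P h1 h2 g hg
    have hg' : g.1ᵀ * S * g.1 = S := hg
    change ((P⁻¹).1 * g.1 * P.1)ᵀ * S' * ((P⁻¹).1 * g.1 * P.1) = S'
    calc _ = P.1ᵀ * (g.1ᵀ * ((P⁻¹).1ᵀ * S' * (P⁻¹).1) * g.1) * P.1 := by
          simp only [transpose_mul, Matrix.mul_assoc]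
      _ = S' := by rw [h2, hg', h1]
  obtain ⟨e', he'⟩ := exists_conj_equiv (U := Ort S) (V := Ort (hypW N ℚ_[p])) P⁻¹
    (fun g hg => by simpa only [inv_inv] using key _ _ P hP hP' g hg)
    (fun g hg => key _ _ P⁻¹ hP' (by simpa only [inv_inv] using hP) g hg)
  refine ⟨e.trans e', fun g => ?_⟩
  have h1 : ((e.trans e') g).1.1 = (P⁻¹).1 * mor (spEmb a b h) g.1.1 * ((P⁻¹)⁻¹).1 := by
    rw [← he]
    exact congrArg Units.val (he' (e g))
  rw [h1, nrd_eq_det h, rchar_eq_charpoly h]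
  refine ⟨det_units_conj _ _, ?_⟩
  rw [Matrix.coe_units_inv (P⁻¹)]
  exact charpoly_units_conj _ _

end Pool.Agent.P.MP_3c2f8c_gt
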