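import Pool.Agent.P.MP_3c2f8c_gt.Lo.Hk4

/-! LO-14: the elements of the semigroup are regular. -/

namespace Pool.Agent.P.MP_3c2f8c_gt

open Matrix Polynomial

namespace Hk5Aux

theorem norm_sum_dom {K ι : Type} [NormedField K] [IsUltrametricDist K] {s : Finset ι} {f : ι → K}
    {i₀ : ι} (hi : i₀ ∈ s) (h : ∀ i ∈ s, i ≠ i₀ → ‖f i‖ < ‖f i₀‖) : ‖∑ i ∈ s, f i‖ = ‖f i₀‖ := by
  classical
  rw [← Finset.add_sum_erase s f hi]
  rcases (s.erase i₀).eq_empty_or_nonempty with he | he
  · rw [he, Finset.sum_empty, add_zero]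
  · obtain ⟨j, hj, hle⟩ := IsUltrametricDist.exists_norm_finsetSum_le_of_nonempty he f
    have hlt := hle.trans_lt (h j (Finset.mem_of_mem_erase hj) (Finset.ne_of_mem_erase hj))
    rw [IsUltrametricDist.norm_add_eq_max_of_norm_ne_norm hlt.ne', max_eq_left hlt.le]

theorem exists_peak (d : ℕ) (w : ℕ → ℝ) (hw : ∀ i j, i < j → j < d → w j < w i) :
    ∃ m, m ≤ d ∧ ∀ j, j ≤ d → j ≠ m → (j + 1 = m ∧ w j = 0) ∨
      ∑ i ∈ Finset.range j, w i < ∑ i ∈ Finset.range m, w i := by
  classical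
  have hex : ∃ m, d ≤ m ∨ w m < 0 := ⟨d, Or.inl le_rfl⟩
  have hmd : Nat.find hex ≤ d := Nat.find_min' hex (Or.inl le_rfl)
  have hlo : ∀ i, i < Nat.find hex → 0 ≤ w i := fun i hi => by
    have := Nat.find_min hex hi
    push Not at this
    exact this.2
  have hhi : ∀ i, Nat.find hex ≤ i → i < d → w i < 0 := fun i hi hid => by
    rcases Nat.find_spec hex with h | h
    · omega
    · rcases hi.eq_or_lt with e | e
      · rw [← e]; exact h
      · exact (hw _ _ e hid).trans h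
  refine ⟨Nat.find hex, hmd, fun j hj hne => ?_⟩
  generalize Nat.find hex = m at *
  rcases lt_or_gt_of_ne hne with hlt | hlt
  · by_cases h0 : j + 1 = m ∧ w j = 0
    · exact Or.inl h0
    · right
      have hpos : 0 < w j := by
        by_cases e : j + 1 = m
        · exact lt_of_le_of_ne (hlo j hlt) fun e' => h0 ⟨e, e'.symm⟩
        · exact (hlo (j + 1) (by omega)).trans_lt (hw j (j + 1) (by omega) (by omega))
      rw [← Finset.sum_range_add_sum_Ico w hlt.le, lt_add_iff_pos_right]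
      exact Finset.sum_pos' (fun i hi => hlo i (Finset.mem_Ico.mp hi).2)
        ⟨j, Finset.mem_Ico.mpr ⟨le_rfl, hlt⟩, hpos⟩
  · right
    rw [← Finset.sum_range_add_sum_Ico w hlt.le, add_lt_iff_neg_left]
    exact Finset.sum_neg (fun i hi => hhi i (Finset.mem_Ico.mp hi).1
      ((Finset.mem_Ico.mp hi).2.trans_le hj)) ⟨m, Finset.mem_Ico.mpr ⟨le_rfl, hlt⟩⟩

theorem key {K : Type} [NormedField K] [IsUltrametricDist K] {P : ℝ} (hP : 1 < P) (d : ℕ)
    (v : ℕ → ℤ) (hv : ∀ i j, i < j → j < d → v j < v i) (c : ℕ → K)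
    (h : ∀ k, k ≤ d → ‖c (d - k)‖ = P ^ (∑ i ∈ Finset.range k, v i)) {α : K} (hα : α ≠ 0) :
    ∃ m, m ≤ d ∧ ∀ e : ℕ → K, (∀ j, ‖e j‖ ≤ 1) → ‖e m‖ = 1 →
      (∀ j, j + 1 = m → e j = 0 ∨ (v j : ℝ) * Real.log P ≠ Real.log ‖α‖) →
      ∑ j ∈ Finset.range (d + 1), e j * (c (d - j) * α ^ (d - j)) ≠ 0 := by
  have hP0 : 0 < P := by linarith
  have hL : 0 < Real.log P := Real.log_pos hP
  have hr : 0 < ‖α‖ := norm_pos_iff.mpr hα
  obtain ⟨m, hm, hpk⟩ := exists_peak d (fun i => (v i : ℝ) * Real.log P - Real.log ‖α‖)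
    fun i j hij hj => by
      have : (v j : ℝ) < v i := by exact_mod_cast hv i j hij hj
      nlinarith
  refine ⟨m, hm, fun e he hem hej => ?_⟩
  have hT : ∀ j, j ≤ d → 0 < ‖c (d - j) * α ^ (d - j)‖ := fun j hj => by
    rw [norm_mul, norm_pow, h j hj]; positivity
  have hlog : ∀ j, j ≤ d → Real.log ‖c (d - j) * α ^ (d - j)‖ = d * Real.log ‖α‖ +
      ∑ i ∈ Finset.range j, ((v i : ℝ) * Real.log P - Real.log ‖α‖) := fun j hj => by
    rw [norm_mul, norm_pow, h j hj, Real.log_mul (by positivity) (by positivity), Real.log_zpow,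
      Real.log_pow, Finset.sum_sub_distrib, ← Finset.sum_mul, Finset.sum_const, Finset.card_range,
      nsmul_eq_mul, Nat.cast_sub hj]
    push_cast
    ring
  have hm' : ‖e m * (c (d - m) * α ^ (d - m))‖ = ‖c (d - m) * α ^ (d - m)‖ := by
    rw [norm_mul, hem, one_mul]
  rw [← norm_pos_iff, norm_sum_dom (i₀ := m) (Finset.mem_range.mpr (by omega)), hm']
  · exact hT m hm
  · intro j hj hne
    have hj' : j ≤ d := by have := Finset.mem_range.mp hj; omega
    rw [hm']
    rcases hpk j hj' hne with ⟨h1, h2⟩ | h1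
    · rcases hej j h1 with h3 | h3
      · rw [h3, zero_mul, norm_zero]; exact hT m hm
      · exact absurd (sub_eq_zero.mp h2) h3
    · have hlt : ‖c (d - j) * α ^ (d - j)‖ < ‖c (d - m) * α ^ (d - m)‖ := by
        rw [← Real.log_lt_log_iff (hT j hj') (hT m hm), hlog j hj', hlog m hm]
        linarith
      rw [norm_mul]
      exact (mul_le_of_le_one_left (norm_nonneg _) (he j)).trans_lt hlt

theorem coeff_X_mul_deriv {R : Type} [CommRing R] (χ : R[X]) (i : ℕ) :
    (X * derivative χ).coeff i = i * χ.coeff i := by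
  cases i with
  | zero => simp
  | succ i => rw [coeff_X_mul, coeff_derivative]; push_cast; ring

theorem det_enum {ι R : Type} [DecidableEq ι] [CommRing R] (g : Matrix ι ι R) {k : ℕ}
    {f : Fin k → ι} (hf : Function.Injective f) {s : Finset ι} (hs : Set.range f = s) :
    (g.submatrix (Subtype.val : s → ι) (Subtype.val : s → ι)).det = (g.submatrix f f).det := by
  have hm : ∀ a, f a ∈ s := fun a => by
    rw [← Finset.mem_coe, ← hs]; exact ⟨a, rfl⟩
  have hb : Function.Bijective fun a => (⟨f a, hm a⟩ : s) := by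
    refine ⟨fun a b e => hf (congrArg Subtype.val e), fun x => ?_⟩
    have hx : x.1 ∈ Set.range f := by rw [hs]; exact x.2
    obtain ⟨a, ha⟩ := hx
    exact ⟨a, Subtype.ext ha⟩
  rw [← det_submatrix_equiv_self (Equiv.ofBijective _ hb)]
  rfl

end Hk5Aux

variable {p : ℕ} [Fact p.Prime] {N : ℕ}

/-- A Newton polygon with distinct non-zero slopes. -/
theorem regP_of_norms {χ : ℚ_[p][X]} {d : ℕ} (hd : χ.natDegree = d) (v : ℕ → ℤ)
    (hv : ∀ i j, i < j → j < d → v j < v i) (hv0 : ∀ i, i < d → v i ≠ 0)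
    (h : ∀ k, k ≤ d → ‖χ.coeff (d - k)‖ = (p : ℝ) ^ (∑ i ∈ Finset.range k, v i)) :
    RegP χ := by
  have hP : (1 : ℝ) < p := by exact_mod_cast (Fact.out : p.Prime).one_lt
  have hunit : ∀ α : ℚ_[p], ‖α‖ = 1 → χ.eval α ≠ 0 := fun α hα => by
    have hα0 : α ≠ 0 := by rw [← norm_pos_iff, hα]; exact one_pos
    obtain ⟨m, hm, hk⟩ := Hk5Aux.key hP d v hv χ.coeff h hα0
    have e := hk (fun _ => 1) (fun _ => norm_one.le) norm_one fun j hj => Or.inr (by
      rw [hα, Real.log_one]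
      exact mul_ne_zero (by exact_mod_cast hv0 j (by omega)) (Real.log_pos hP).ne')
    rw [eval_eq_sum_range, hd, ← Finset.sum_range_reflect]
    simpa only [one_mul, Nat.add_sub_cancel] using e
  refine ⟨?_, hunit 1 norm_one, hunit (-1) (by rw [norm_neg, norm_one])⟩
  rw [separable_def, isCoprime_iff_aeval_ne_zero_of_isAlgClosed ℚ_[p] (PadicAlgCl p)]
  intro α
  by_cases hα : α = 0
  · left
    rw [hα, ← coeff_zero_eq_aeval_zero', _root_.map_ne_zero, ← norm_pos_iff]
    have e := h d le_rfl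
    rw [Nat.sub_self] at e
    rw [e]
    positivity
  obtain ⟨m, hm, hk⟩ := Hk5Aux.key hP d v hv (fun i => algebraMap ℚ_[p] (PadicAlgCl p) (χ.coeff i))
    (fun k hk => by rw [norm_algebraMap', h k hk]) hα
  have e := hk (fun j => (((m : ℤ) - 1 - j : ℤ) : PadicAlgCl p))
    (fun j => IsUltrametricDist.norm_intCast_le_one _ _) (by simp) fun j hj => Or.inl (by
      rw [show (m : ℤ) - 1 - j = 0 by omega, Int.cast_zero])
  by_contra hcon
  push Not at hcon
  apply e
  have hdeg : (X * derivative χ - C ((d : ℚ_[p]) - m + 1) * χ).natDegree < d + 1 := by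
    rw [Nat.lt_succ_iff, natDegree_le_iff_coeff_eq_zero]
    intro n hn
    rw [coeff_sub, Hk5Aux.coeff_X_mul_deriv, coeff_C_mul,
      coeff_eq_zero_of_natDegree_lt (hd ▸ hn), mul_zero, mul_zero, sub_zero]
  have e0 : aeval α (X * derivative χ - C ((d : ℚ_[p]) - m + 1) * χ) = 0 := by
    rw [map_sub, map_mul, map_mul, hcon.1, hcon.2, mul_zero, mul_zero, sub_zero]
  rw [aeval_eq_sum_range' hdeg, ← Finset.sum_range_reflect] at e0
  rw [← e0]
  refine Finset.sum_congr rfl fun j hj => ?_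
  have hj' : j ≤ d := by have := Finset.mem_range.mp hj; omega
  rw [Nat.add_sub_cancel, coeff_sub, Hk5Aux.coeff_X_mul_deriv, coeff_C_mul, Algebra.smul_def,
    Nat.cast_sub hj']
  simp only [map_sub, map_mul, map_add, map_natCast, map_one]
  push_cast
  ring

theorem regP_of_inS {l : Ix N → ℤ} (hl : Function.Injective l) (hl0 : ∀ i, l i ≠ 0)
    {y : Ix N → ℝ} {s t : ℝ} (hts : t < s) {c : ℕ} (hc : 0 < c)
    {g : Matrix (Ix N) (Ix N) ℚ_[p]} (hg : InS l y s t c g) : RegP g.charpoly := by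
  have hP : (1 : ℝ) < p := by exact_mod_cast (Fact.out : p.Prime).one_lt
  obtain ⟨σ, hσ⟩ : ∃ σ : Fin (Fintype.card (Ix N)) ≃ Ix N, StrictAnti fun a => l (σ a) := by
    refine ⟨(Tuple.sort fun a => -l ((Fintype.equivFin (Ix N)).symm a)).trans
      (Fintype.equivFin (Ix N)).symm, fun a b hab => ?_⟩
    have h1 := Tuple.monotone_sort (fun a => -l ((Fintype.equivFin (Ix N)).symm a)) hab.le
    simp only [Function.comp_apply, neg_le_neg_iff] at h1
    refine lt_of_le_of_ne h1 fun e => hab.ne' ?_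
    exact (Equiv.injective _) (hl e)
  refine regP_of_norms g.charpoly_natDegree_eq_dim
    (fun i => if h : i < Fintype.card (Ix N) then c * l (σ ⟨i, h⟩) else 0) ?_ ?_ ?_
  · intro i j hij hj
    rw [dif_pos hj, dif_pos (hij.trans hj)]
    exact mul_lt_mul_of_pos_left (hσ (Fin.mk_lt_mk.mpr hij)) (by exact_mod_cast hc)
  · intro i hi
    rw [dif_pos hi]
    exact mul_ne_zero (by exact_mod_cast hc.ne') (hl0 _)
  intro k hk
  obtain ⟨τ, hτ⟩ : ∃ τ : Fin k → Ix N, τ = fun a => σ (Fin.castLE hk a) := ⟨_, rfl⟩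
  have hinj : Function.Injective τ := by
    rw [hτ]; exact σ.injective.comp (Fin.castLE_injective hk)
  have htop : Top l τ := by
    refine ⟨hinj, fun a j hj => ?_⟩
    obtain ⟨b, rfl⟩ := σ.surjective j
    rw [hτ] at hj
    have hb : b < Fin.castLE hk a := hσ.lt_iff_gt.mp hj
    exact ⟨⟨b, lt_trans hb a.2⟩, by rw [hτ]; rfl⟩
  obtain ⟨hle, heq⟩ := hg k τ htop
  have hr : Set.range τ = (Finset.univ.image τ : Finset (Ix N)) := by simp
  rw [charpoly_coeff_eq_sum_minors g k hk, norm_mul, norm_pow, norm_neg, norm_one, one_pow, one_mul,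
    Hk5Aux.norm_sum_dom (i₀ := Finset.univ.image τ), Hk5Aux.det_enum g hinj hr, heq,
    ← Real.rpow_intCast, Finset.sum_range]
  · congr 1
    rw [Finset.mul_sum]
    push_cast
    refine Finset.sum_congr rfl fun a _ => ?_
    rw [dif_pos (lt_of_lt_of_le a.2 hk), hτ]
    push_cast
    rfl
  · rw [Finset.mem_powersetCard, Finset.card_image_of_injective _ hinj]
    simp
  · intro S hS hne
    have hcard := (Finset.mem_powersetCard.mp hS).2
    obtain ⟨f, hf⟩ : ∃ f : Fin k → Ix N, f = fun a => ((S.equivFinOfCardEq hcard).symm a).1 :=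
      ⟨_, rfl⟩
    have hfi : Function.Injective f := by
      rw [hf]; exact Subtype.val_injective.comp (Equiv.injective _)
    have hfr : Set.range f = S := by
      ext x
      rw [hf]
      constructor
      · rintro ⟨a, rfl⟩
        exact ((S.equivFinOfCardEq hcard).symm a).2
      · intro hx
        exact ⟨S.equivFinOfCardEq hcard ⟨x, hx⟩, by simp⟩
    have hlt := htop.sum_lt hl hfi (by
      rw [hfr, hr]; exact fun e => hne (Finset.coe_injective e))
    have hlt' : ∑ a, (l (f a) : ℝ) < ∑ a, (l (τ a) : ℝ) := by exact_mod_cast hlt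
    rw [Hk5Aux.det_enum g hinj hr, heq, Hk5Aux.det_enum g hfi hfr]
    refine (hle f f hfi hfi).trans_lt (Real.rpow_lt_rpow_of_exponent_lt hP ?_)
    nlinarith

end Pool.Agent.P.MP_3c2f8c_gt
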