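import Pool.Agent.P.MP_3c2f8c_gt.Lo.HDefs

/-! LO-15: correspondences. -/

namespace Pool.Agent.P.MP_3c2f8c_gt

variable {O : Type} [Group O]

namespace Hk6Aux

theorem smul_coe (B : Subgroup O) (g h : O) : g • (h : O ⧸ B) = ((g * h : O) : O ⧸ B) := rfl

theorem finsum_smul {M : Type} [AddCommMonoid M] (B : Subgroup O) (g : O) (f : O ⧸ B → M) :
    ∑ᶠ z, f (g • z) = ∑ᶠ z, f z :=
  finsum_comp_equiv (MulAction.toPerm g) (f := f)

theorem of_finset {A B : Subgroup O} {T : Set O} (F : Finset (O ⧸ B))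
    (hF : ∀ t : O, (t : O ⧸ B) ∈ F ↔ t ∈ T) (hA : ∀ a ∈ A, ∀ t ∈ T, a * t ∈ T)
    (hinj : ∀ f : O ⧸ B → ℝ, (∀ g : O, ∑ z ∈ F, f (g • z) = 0) → f = 0) : Corr A B T := by
  classical
  let κ : O ⧸ A → O ⧸ B → ℕ := fun z z' => if ∃ g : O, (g : O ⧸ A) = z ∧ g⁻¹ • z' ∈ F then 1 else 0
  have key : ∀ (g : O) (z' : O ⧸ B), κ g z' = if g⁻¹ • z' ∈ F then 1 else 0 := by
    intro g z'
    refine if_congr ⟨?_, fun h => ⟨g, rfl, h⟩⟩ rfl rfl
    rintro ⟨g₁, h1, h2⟩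
    obtain ⟨g', rfl⟩ := QuotientGroup.mk_surjective z'
    rw [smul_coe, hF] at h2 ⊢
    have h3 := hA _ (A.inv_mem (QuotientGroup.eq.1 h1)) _ h2
    rwa [show (g₁⁻¹ * g)⁻¹ * (g₁⁻¹ * g') = g⁻¹ * g' by group] at h3
  refine ⟨κ, fun z => ?_, fun g z z' => ?_, fun f hf => hinj f fun g => ?_, fun g g' h => ?_⟩
  · obtain ⟨g, rfl⟩ := QuotientGroup.mk_surjective z
    refine (F.finite_toSet.image (g • ·)).subset fun z' hz' => ⟨g⁻¹ • z', ?_, smul_inv_smul g z'⟩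
    by_contra h0
    exact hz' (by rw [key, if_neg (by exact h0)])
  · obtain ⟨g₁, rfl⟩ := QuotientGroup.mk_surjective z
    rw [smul_coe, key, key, mul_inv_rev, mul_smul, inv_smul_smul]
  · rw [← hf g, ← finsum_smul B g, finsum_eq_sum_of_support_subset (s := F)]
    · refine Finset.sum_congr rfl fun z hz => ?_
      rw [key, inv_smul_smul, if_pos hz, Nat.cast_one, one_mul]
    · intro z hz
      by_contra h0
      exact hz (by
        beta_reduce
        rw [key, inv_smul_smul, if_neg (by exact h0), Nat.cast_zero, zero_mul])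
  · rw [key] at h
    by_contra h0
    exact h (if_neg (by rwa [smul_coe, hF]))

theorem of_single {A B : Subgroup O} {T : Set O} (s : O) (hT : ∀ t : O, s⁻¹ * t ∈ B ↔ t ∈ T)
    (hA : ∀ a ∈ A, ∀ t ∈ T, a * t ∈ T) : Corr A B T := by
  refine of_finset {(s : O ⧸ B)} (fun t => ?_) hA fun f hf => funext fun z => ?_
  · rw [Finset.mem_singleton, eq_comm, QuotientGroup.eq, hT]
  · obtain ⟨g, rfl⟩ := QuotientGroup.mk_surjective z
    have h := hf (g * s⁻¹)
    rwa [Finset.sum_singleton, smul_coe, inv_mul_cancel_right] at h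

theorem mem_conj (A : Subgroup O) (s g : O) :
    g ∈ A.map (MulAut.conj s).toMonoidHom ↔ s⁻¹ * g * s ∈ A := by
  constructor
  · rintro ⟨a, ha, rfl⟩
    change s⁻¹ * (s * a * s⁻¹) * s ∈ A
    rwa [show s⁻¹ * (s * a * s⁻¹) * s = a by group]
  · intro h
    exact ⟨_, h, by
      change s * (s⁻¹ * g * s) * s⁻¹ = g
      group⟩

theorem exists_finset {B P : Subgroup O} (hBP : B ≤ P) (hfin : B.relIndex P ≠ 0) :
    ∃ F : Finset (O ⧸ B), ∀ t : O, (t : O ⧸ B) ∈ F ↔ t ∈ P := by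
  have : Finite (P ⧸ B.subgroupOf P) := Nat.finite_of_card_ne_zero hfin
  have h : {z : O ⧸ B | ∃ g ∈ P, (g : O ⧸ B) = z}.Finite := by
    refine (Set.finite_range fun q : P ⧸ B.subgroupOf P => (((q.out : P) : O) : O ⧸ B)).subset ?_
    rintro _ ⟨g, hg, rfl⟩
    refine ⟨((⟨g, hg⟩ : P) : P ⧸ B.subgroupOf P), QuotientGroup.eq.2 ?_⟩
    have h1 := QuotientGroup.eq.1 (QuotientGroup.out_eq' ((⟨g, hg⟩ : P) : P ⧸ B.subgroupOf P))
    exact h1
  refine ⟨h.toFinset, fun t => ?_⟩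
  rw [Set.Finite.mem_toFinset]
  refine ⟨?_, fun ht => ⟨t, ht, rfl⟩⟩
  rintro ⟨g, hg, e⟩
  have h1 := P.mul_mem hg (hBP (QuotientGroup.eq.1 e))
  rwa [mul_inv_cancel_left] at h1

/-- transport of a coset space along an isomorphism -/
def cong {O' : Type} [Group O'] (e : O' ≃* O) (A : Subgroup O) :
    O' ⧸ A.comap e.toMonoidHom ≃ O ⧸ A :=
  Quotient.congr e.toEquiv fun a b => by
    rw [QuotientGroup.leftRel_apply, QuotientGroup.leftRel_apply, Subgroup.mem_comap, map_mul,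
      map_inv]
    rfl

theorem cong_coe {O' : Type} [Group O'] (e : O' ≃* O) (A : Subgroup O) (g : O') :
    cong e A g = (e g : O ⧸ A) := rfl

theorem cong_smul {O' : Type} [Group O'] (e : O' ≃* O) (A : Subgroup O) (g : O')
    (z : O' ⧸ A.comap e.toMonoidHom) : cong e A (g • z) = e g • cong e A z := by
  obtain ⟨h, rfl⟩ := QuotientGroup.mk_surjective z
  rw [smul_coe, cong_coe, cong_coe, smul_coe, map_mul]

end Hk6Aux

open Hk6Aux

theorem Corr.mono {A B : Subgroup O} {𝒮 𝒯 : Set O} (h : Corr A B 𝒮) (hs : 𝒮 ⊆ 𝒯) :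
    Corr A B 𝒯 := by
  obtain ⟨κ, h1, h2, h3, h4⟩ := h
  exact ⟨κ, h1, h2, h3, fun g g' h0 => hs (h4 g g' h0)⟩

theorem corr_refl (A : Subgroup O) : Corr A A (A : Set O) :=
  of_single 1 (fun t => by rw [inv_one, one_mul]; rfl) fun _ ha _ ht => A.mul_mem ha ht

theorem Corr.comp {A B C : Subgroup O} {𝒮 𝒯 𝒰 : Set O} (h : Corr A B 𝒮) (h' : Corr B C 𝒯)
    (hu : ∀ g ∈ 𝒮, ∀ g' ∈ 𝒯, g * g' ∈ 𝒰) : Corr A C 𝒰 := by
  obtain ⟨κ, h1, h2, h3, h4⟩ := h
  obtain ⟨κ', h1', h2', h3', h4'⟩ := h'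
  have key : ∀ z z'', ∑ᶠ z', κ z z' * κ' z' z'' = ∑ z' ∈ (h1 z).toFinset, κ z z' * κ' z' z'' := by
    intro z z''
    refine finsum_eq_sum_of_support_subset _ fun z' hz' => ?_
    rw [Set.Finite.coe_toFinset]
    exact left_ne_zero_of_mul hz'
  have key2 : ∀ z z'', ∑ᶠ z', κ z z' * κ' z' z'' ≠ 0 → ∃ z', κ z z' ≠ 0 ∧ κ' z' z'' ≠ 0 := by
    intro z z'' h0
    rw [key] at h0
    obtain ⟨z', -, h5⟩ := Finset.exists_ne_zero_of_sum_ne_zero h0
    exact ⟨z', mul_ne_zero_iff.1 h5⟩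
  refine ⟨fun z z'' => ∑ᶠ z', κ z z' * κ' z' z'', fun z => ?_, fun g z z'' => ?_,
    fun f hf => h3' f (congrFun (h3 _ fun z => ?_)), fun g g'' h0 => ?_⟩
  · refine ((h1 z).biUnion fun z' _ => h1' z').subset fun z'' hz'' => ?_
    obtain ⟨z', h5, h6⟩ := key2 z z'' hz''
    exact Set.mem_biUnion h5 h6
  · beta_reduce
    rw [← finsum_smul B g]
    exact finsum_congr fun z' => by rw [h2, h2']
  · have fin : ∀ z', (Function.support fun z'' => (κ' z' z'' : ℝ) * f z'').Finite := fun z' =>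
      (h1' z').subset fun z'' hz'' => Nat.cast_ne_zero.1 (left_ne_zero_of_mul hz'')
    rw [← hf z, finsum_eq_sum_of_support_subset (s := (h1 z).toFinset)]
    · have e : ∀ z'', ((∑ᶠ z', κ z z' * κ' z' z'' : ℕ) : ℝ) * f z'' =
          ∑ z' ∈ (h1 z).toFinset, (κ z z' : ℝ) * ((κ' z' z'' : ℝ) * f z'') := by
        intro z''
        rw [key, Nat.cast_sum, Finset.sum_mul]
        exact Finset.sum_congr rfl fun z' _ => by rw [Nat.cast_mul, mul_assoc]
      rw [finsum_congr e, finsum_sum_comm]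
      · exact Finset.sum_congr rfl fun z' _ => mul_finsum' _ _ (fin z')
      · exact fun z' _ => (fin z').subset fun z'' hz'' => right_ne_zero_of_mul hz''
    · intro z' hz'
      rw [Set.Finite.coe_toFinset]
      exact Nat.cast_ne_zero.1 (left_ne_zero_of_mul hz')
  · obtain ⟨z', h5, h6⟩ := key2 _ _ h0
    obtain ⟨g', rfl⟩ := QuotientGroup.mk_surjective z'
    have h7 := hu _ (h4 _ _ h5) _ (h4' _ _ h6)
    rwa [mul_assoc, mul_inv_cancel_left] at h7

theorem corr_wall {B P : Subgroup O} (hBP : B ≤ P) (hfin : B.relIndex P ≠ 0) {w : O} (hw : w ∈ P)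
    (hw' : w ∉ B) :
    Corr (B.map (MulAut.conj w).toMonoidHom) B {g | g ∈ P ∧ w⁻¹ * g ∉ B} := by
  classical
  obtain ⟨F, hF⟩ := exists_finset hBP hfin
  refine of_finset (F.erase (w : O ⧸ B)) (fun t => ?_) (fun a ha t ht => ⟨?_, fun h0 => ht.2 ?_⟩)
    fun f hf => ?_
  · rw [Finset.mem_erase, hF, Ne, eq_comm, QuotientGroup.eq]
    exact and_comm
  · have h1 := P.mul_mem (P.mul_mem hw (hBP ((mem_conj B w a).1 ha))) (P.inv_mem hw)
    rw [show w * (w⁻¹ * a * w) * w⁻¹ = a by group] at h1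
    exact P.mul_mem h1 ht.1
  · have h1 := B.mul_mem (B.inv_mem ((mem_conj B w a).1 ha)) h0
    rwa [show (w⁻¹ * a * w)⁻¹ * (w⁻¹ * (a * t)) = w⁻¹ * t by group] at h1
  · have s1 : ∀ g : O, ∑ z ∈ F, f (g • z) = f ((g * w : O) : O ⧸ B) := fun g => by
      rw [← Finset.add_sum_erase F _ ((hF w).2 hw), hf g, add_zero, smul_coe]
    have s2 : ∀ g : O, ∀ q ∈ P, ∑ z ∈ F, f ((g * q) • z) = ∑ z ∈ F, f (g • z) := by
      intro g q hq
      refine Finset.sum_equiv (MulAction.toPerm q) (fun z => ?_) fun z _ => by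
        rw [mul_smul]
        rfl
      obtain ⟨t, rfl⟩ := QuotientGroup.mk_surjective z
      change _ ↔ ((q * t : O) : O ⧸ B) ∈ F
      rw [hF, hF, P.mul_mem_cancel_left hq]
    have s3 : ∀ g : O, ∀ z ∈ F.erase (w : O ⧸ B), f (g • z) = f ((g * w : O) : O ⧸ B) := by
      intro g z hz
      obtain ⟨t, rfl⟩ := QuotientGroup.mk_surjective z
      have ht := (hF t).1 (Finset.mem_of_mem_erase hz)
      rw [← s1, ← s2 g _ (P.mul_mem ht (P.inv_mem hw)), s1, smul_coe, mul_assoc,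
        inv_mul_cancel_right]
    have s4 : (F.erase (w : O ⧸ B)).card ≠ 0 :=
      Finset.card_ne_zero.2 ⟨((1 : O) : O ⧸ B), Finset.mem_erase.2
        ⟨fun h0 => hw' (by simpa using QuotientGroup.eq.1 h0), (hF 1).2 P.one_mem⟩⟩
    funext z
    obtain ⟨g, rfl⟩ := QuotientGroup.mk_surjective z
    have s5 := hf (g * w⁻¹)
    rw [Finset.sum_congr rfl (s3 _), Finset.sum_const, inv_mul_cancel_right, nsmul_eq_mul] at s5
    exact (mul_eq_zero.1 s5).resolve_left (Nat.cast_ne_zero.2 s4)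

theorem corr_shift (A : Subgroup O) (s : O) :
    Corr (A.map (MulAut.conj s).toMonoidHom) A
      {g | g * s⁻¹ ∈ A.map (MulAut.conj s).toMonoidHom} := by
  refine of_single s (fun t => ?_) fun a ha t ht => ?_
  · rw [Set.mem_ofPred_eq, mem_conj, mul_assoc, inv_mul_cancel_right]
  · rw [Set.mem_ofPred_eq, mul_assoc]
    exact Subgroup.mul_mem _ ha ht

theorem Corr.comap {O' : Type} [Group O'] (e : O' ≃* O) {A B : Subgroup O} {𝒮 : Set O}
    (h : Corr A B 𝒮) : Corr (A.comap e.toMonoidHom) (B.comap e.toMonoidHom) (e ⁻¹' 𝒮) := by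
  obtain ⟨κ, h1, h2, h3, h4⟩ := h
  refine ⟨fun z z' => κ (cong e A z) (cong e B z'), fun z => ?_, fun g z z' => ?_,
    fun f hf => ?_, fun g g' h0 => ?_⟩
  · exact (h1 (cong e A z)).preimage (cong e B).injective.injOn
  · beta_reduce
    rw [cong_smul, cong_smul, h2]
  · have h5 := h3 (fun z => f ((cong e B).symm z)) fun z => by
      rw [← hf ((cong e A).symm z), ← finsum_comp_equiv (cong e B)]
      exact finsum_congr fun z' => by simp only [Equiv.apply_symm_apply, Equiv.symm_apply_apply]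
    funext z
    have h6 := congrFun h5 (cong e B z)
    rwa [Equiv.symm_apply_apply] at h6
  · rw [Set.mem_preimage, map_mul, map_inv]
    exact h4 _ _ h0

theorem Corr.exists_hecke {A : Subgroup O} {𝒮 : Subsemigroup O} (h : Corr A A (𝒮 : Set O)) :
    ∃ κ : O ⧸ A → O ⧸ A → ℕ, HK κ ∧ (∀ (g : O) z z', κ (g • z) (g • z') = κ z z') ∧
      ∀ (m : ℕ) (γ : O) (z : O ⧸ A), Chain κ (m + 1) z (γ • z) → ∃ g, g⁻¹ * γ * g ∈ 𝒮 := by
  obtain ⟨κ, h1, h2, h3, h4⟩ := h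
  have key : ∀ (m : ℕ) (g g' : O), Chain κ (m + 1) g g' → g⁻¹ * g' ∈ 𝒮 := by
    intro m
    induction m with
    | zero =>
      rintro g g' ⟨y, h5, h6⟩
      have h7 : y = (g' : O ⧸ A) := h6
      exact h4 _ _ (h7 ▸ h5)
    | succ m ih =>
      rintro g g' ⟨y, h5, h6⟩
      obtain ⟨g₁, rfl⟩ := QuotientGroup.mk_surjective y
      have h7 := 𝒮.mul_mem (h4 _ _ h5) (ih _ _ h6)
      rwa [mul_assoc, mul_inv_cancel_left] at h7
  refine ⟨κ, ⟨h1, h3⟩, h2, fun m γ z hz => ?_⟩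
  obtain ⟨g, rfl⟩ := QuotientGroup.mk_surjective z
  exact ⟨g, by rw [mul_assoc]; exact key m g _ hz⟩

end Pool.Agent.P.MP_3c2f8c_gt
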