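import Pool.Agent.P.MP_3c2f8c_gt.Lo.Top
import Pool.Agent.P.MP_3c2f8c_gt.NT.WA

/-! LO-9: weak approximation in the unitary group. -/

set_option linter.unusedSectionVars false

namespace Pool.Agent.P.MP_3c2f8c_gt

open Matrix Filter Topology

namespace WAAux

variable {a b : ℤ} {ι : Type} [Fintype ι] [DecidableEq ι]

theorem rat_seq (T : Finset Nat.Primes) (y : ∀ p : Nat.Primes, ℚ_[p]) :
    ∃ x : ℕ → ℚ, ∀ p ∈ T, Tendsto (fun n => ra ℚ_[p] (x n)) atTop (𝓝 (y p)) := by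
  choose x hx using fun n : ℕ => rat_approx T y 0 (Nat.one_div_pos_of_nat (α := ℝ) (n := n))
  refine ⟨x, fun p hp => tendsto_iff_norm_sub_tendsto_zero.2 (squeeze_zero (fun _ => norm_nonneg _)
    (fun n => ((hx n).1 p hp).le) tendsto_one_div_add_atTop_nhds_zero_nat)⟩

theorem quat_seq (T : Finset Nat.Primes) (y : ∀ p : Nat.Primes, Q a b ℚ_[p]) :
    ∃ x : ℕ → Q a b ℚ, ∀ p ∈ T, Tendsto (fun n => qmap a b (ra ℚ_[p]) (x n)) atTop (𝓝 (y p)) := by
  choose x hx using fun k : Fin 4 =>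
    rat_seq T fun p => QuaternionAlgebra.equivTuple _ _ _ (y p) k
  refine ⟨fun n => ⟨x 0 n, x 1 n, x 2 n, x 3 n⟩, fun p hp => ?_⟩
  rw [nhds_induced, tendsto_comap_iff, tendsto_pi_nhds]
  intro k
  have := hx k p hp
  fin_cases k <;> exact this

variable {E : Type} [Field E] [CharZero E]

/-- The parameter `s` of a generator. -/
def sOf (H : Matrix ι ι (Q a b E)) (y : ι → Q a b E) (z : Q a b E) : Q a b E :=
  (2⁻¹ : E) • (z + star z + hf H y y)

/-- A rational parametrisation of the generators. -/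
def gen (H : Matrix ι ι (Q a b E)) (y : ι → Q a b E) (z : Q a b E) : Matrix ι ι (Q a b E) :=
  sig H y ((nr (sOf H y z))⁻¹ • star (sOf H y z))

theorem mul_inv' {s : Q a b E} (h : nr s ≠ 0) :
    s * ((nr s)⁻¹ • star s) = 1 ∧ (nr s)⁻¹ • star s * s = 1 := by
  rw [mul_smul_comm, smul_mul_assoc, mul_star_eq_nr, star_mul_eq_nr,
    Algebra.algebraMap_eq_smul_one, smul_smul, inv_mul_cancel₀ h, one_smul]
  exact ⟨rfl, rfl⟩

theorem half (x : Q a b E) : (2⁻¹ : E) • (x + x) = x := by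
  rw [← two_smul E, smul_smul, inv_mul_cancel₀ two_ne_zero, one_smul]

theorem exists_gen {H : Matrix ι ι (Q a b E)} (hH : Hᴴ = -H) (y : ι → Q a b E) (z : Q a b E) :
    ∃ γ : Un H, nr (sOf H y z) ≠ 0 → γ.1.1 = gen H y z := by
  by_cases h : nr (sOf H y z) = 0
  · exact ⟨1, fun h' => absurd h h'⟩
  · obtain ⟨γ, -, hγ⟩ := exists_sig hH y (mul_inv' h).1 (mul_inv' h).2 (by
      rw [sOf, QuaternionAlgebra.star_smul', ← smul_sub, star_add, star_add, star_star, hf_star hH,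
        ← half (hf H y y)]
      congr 1
      rw [half]
      abel)
    exact ⟨γ, fun _ => hγ⟩

theorem gen_of_mem {H : Matrix ι ι (Q a b E)} {g : Un H} (hg : g ∈ SigSet H) :
    ∃ y z, nr (sOf H y z) ≠ 0 ∧ g.1.1 = gen H y z := by
  obtain ⟨y, s, s', h1, h2, h3, h4⟩ := hg
  have e : sOf H y s = s := by
    rw [sOf, ← h3, add_add_sub_cancel, half]
  have h : nr s ≠ 0 := left_ne_zero_of_mul_eq_one (by rw [← nr_mul, h1, nr_one])
  exact ⟨y, s, by rwa [e], by rw [gen, e, h4, left_inv_eq_right_inv h2 (mul_inv' h).1]⟩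

theorem one_mem (H : Matrix ι ι (Q a b E)) : (1 : Un H) ∈ SigSet H :=
  ⟨0, 1, 1, by simp, by simp, by simp [hf], by ext i j : 1; simp [sig]⟩

theorem qmap_sOf (H : Matrix ι ι (Q a b ℚ)) (y : ι → Q a b ℚ) (z : Q a b ℚ) :
    qmap a b (ra E) (sOf H y z) =
      sOf (bc (ra E) H) (fun i => qmap a b (ra E) (y i)) (qmap a b (ra E) z) := by
  rw [sOf, sOf, qmap_smul, map_add, map_add, qmap_star, hf_bc, map_inv₀, map_ofNat]

theorem bc_gen (H : Matrix ι ι (Q a b ℚ)) (y : ι → Q a b ℚ) (z : Q a b ℚ) :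
    bc (ra E) (gen H y z) =
      gen (bc (ra E) H) (fun i => qmap a b (ra E) (y i)) (qmap a b (ra E) z) := by
  rw [gen, gen, ← qmap_sOf, nr_qmap, ← map_inv₀, ← qmap_star, ← qmap_smul]
  ext i j : 1
  simp only [sig, map_apply, Matrix.sub_apply, vecMulVec_apply, vecMul, dotProduct, map_sub,
    map_mul, map_sum, Pi.star_apply, qmap_star, one_apply, apply_ite (qmap a b (ra E)), map_one, map_zero]

section

variable {A : Type} [Ring A] [StarRing A] [TopologicalSpace A] [IsTopologicalRing A]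
  [ContinuousStar A] (H : Matrix ι ι A)

theorem cont_hf : Continuous fun y => hf H y y := by
  simp only [hf, dotProduct, mulVec, Pi.star_apply]
  fun_prop

theorem cont_sig : Continuous fun x : (ι → A) × A => sig H x.1 x.2 := by
  refine continuous_matrix fun i j => ?_
  simp only [sig, Matrix.sub_apply, vecMulVec_apply, vecMul, dotProduct, Pi.star_apply]
  fun_prop

end

variable {p : ℕ} [Fact p.Prime]

local instance : ContinuousStar (Q a b ℚ_[p]) := ⟨by
  obtain ⟨h1, h2, h3, h4⟩ := (continuous_quat (f := fun x : Q a b ℚ_[p] => x)).1 continuous_id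
  refine continuous_quat.2 ?_
  simp only [QuaternionAlgebra.re_star, QuaternionAlgebra.imI_star, QuaternionAlgebra.imJ_star,
    QuaternionAlgebra.imK_star]
  refine ⟨?_, ?_, ?_, ?_⟩ <;> fun_prop⟩

local instance : ContinuousSMul ℚ_[p] (Q a b ℚ_[p]) := ⟨by
  obtain ⟨h1, h2, h3, h4⟩ := (continuous_quat (f := fun x : Q a b ℚ_[p] => x)).1 continuous_id
  refine continuous_quat.2 ?_
  simp only [QuaternionAlgebra.re_smul, QuaternionAlgebra.imI_smul, QuaternionAlgebra.imJ_smul,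
    QuaternionAlgebra.imK_smul]
  refine ⟨?_, ?_, ?_, ?_⟩ <;> fun_prop⟩

theorem cont_sOf (H : Matrix ι ι (Q a b ℚ_[p])) :
    Continuous fun x : (ι → Q a b ℚ_[p]) × Q a b ℚ_[p] => sOf H x.1 x.2 :=
  ((continuous_snd.add continuous_snd.star).add ((cont_hf H).comp continuous_fst)).const_smul
    (2⁻¹ : ℚ_[p])

theorem cont_nr : Continuous (nr : Q a b ℚ_[p] → ℚ_[p]) := by
  obtain ⟨h1, h2, h3, h4⟩ := (continuous_quat (f := fun x : Q a b ℚ_[p] => x)).1 continuous_id
  unfold nr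
  fun_prop

theorem cont_gen (H : Matrix ι ι (Q a b ℚ_[p])) {x : (ι → Q a b ℚ_[p]) × Q a b ℚ_[p]}
    (h : nr (sOf H x.1 x.2) ≠ 0) :
    ContinuousAt (fun x : (ι → Q a b ℚ_[p]) × Q a b ℚ_[p] => gen H x.1 x.2) x :=
  (cont_sig H).continuousAt.comp (f := fun x : (ι → Q a b ℚ_[p]) × Q a b ℚ_[p] =>
    (x.1, (nr (sOf H x.1 x.2))⁻¹ • star (sOf H x.1 x.2))) (continuousAt_fst.prodMk
      (((cont_nr.comp (cont_sOf H)).continuousAt.inv₀ h).smul (cont_sOf H).star.continuousAt))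

/-- The tuples that are limits of rational points. -/
def App (H : Matrix ι ι (Q a b ℚ)) (T : Finset Nat.Primes) :
    Subgroup (∀ p : Nat.Primes, Un (bc (ra ℚ_[p]) H)) where
  carrier := {u | ∃ γ : ℕ → Un H, ∀ p ∈ T,
    Tendsto (fun n => locU (ra ℚ_[p]) H (γ n)) atTop (𝓝 (u p))}
  one_mem' := ⟨fun _ => 1, fun p _ => by simpa using tendsto_const_nhds⟩
  mul_mem' := fun ⟨γ, h⟩ ⟨γ', h'⟩ =>
    ⟨fun n => γ n * γ' n, fun p hp => by simpa using (h p hp).mul (h' p hp)⟩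
  inv_mem' := fun ⟨γ, h⟩ => ⟨fun n => (γ n)⁻¹, fun p hp => by simpa using (h p hp).inv⟩

theorem app_sig {H : Matrix ι ι (Q a b ℚ)} (hH : Hᴴ = -H) (hu : IsUnit H) (T : Finset Nat.Primes)
    {u : ∀ p : Nat.Primes, Un (bc (ra ℚ_[p]) H)} (h : ∀ p, u p ∈ SigSet _) : u ∈ App H T := by
  choose y z h1 h2 using fun p => gen_of_mem (h p)
  choose y' hy using fun i => quat_seq T fun p => y p i
  obtain ⟨z', hz⟩ := quat_seq T z
  choose γ hγ using fun n => exists_gen hH (fun i => y' i n) (z' n)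
  refine ⟨γ, fun p hp => ?_⟩
  have h3 := (tendsto_pi_nhds.2 fun i => hy i p hp).prodMk_nhds (hz p hp)
  refine (isInducing_un (H := bc (ra ℚ_[p]) H)
    (hu.map (qmap a b (ra ℚ_[p])).mapMatrix)).tendsto_nhds_iff.2 ?_
  rw [h2]
  refine ((cont_gen _ (x := (y p, z p)) (h1 p)).tendsto.comp h3).congr' ?_
  filter_upwards [(((cont_nr.comp (cont_sOf _)).tendsto _).comp h3).eventually_ne (h1 p)] with n hn
  refine (bc_gen H _ _).symm.trans (congrArg (bc (ra ℚ_[p])) (hγ n fun h0 => hn ?_).symm)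
  exact (congrArg nr (qmap_sOf H _ _)).symm.trans (by rw [nr_qmap, h0, map_zero])

end WAAux

open WAAux

variable {a b : ℤ} [NeZero a] [NeZero b] {ι : Type} [Fintype ι] [DecidableEq ι]

theorem wa_unitary {H : Matrix ι ι (Q a b ℚ)} (hH : Hᴴ = -H) (hu : IsUnit H)
    (hι : 3 ≤ Fintype.card ι) (T : Finset Nat.Primes)
    (u : ∀ p : Nat.Primes, Un (bc (ra ℚ_[p]) H)) (h1 : ∀ p ∈ T, nrd (u p).1.1 = 1)
    (V : ∀ p : Nat.Primes, Set (Un (bc (ra ℚ_[p]) H))) (hV : ∀ p ∈ T, V p ∈ nhds (u p)) :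
    ∃ γ : Un H, ∀ p ∈ T, locU (ra ℚ_[p]) H γ ∈ V p := by
  classical
  have k1 : ∀ p ∈ T, Pi.mulSingle p (u p) ∈ App H T := fun p hp => by
    have hH' : (bc (ra ℚ_[p]) H)ᴴ = -bc (ra ℚ_[p]) H := by
      rw [← bc_conjTranspose, hH]
      exact Matrix.map_neg _ (map_neg _) _
    have hu' : IsUnit (bc (ra ℚ_[p]) H) := hu.map (qmap a b (ra ℚ_[p])).mapMatrix
    refine (Subgroup.closure_le ((App H T).comap
      (MonoidHom.mulSingle (fun p : Nat.Primes => Un (bc (ra ℚ_[p]) H)) p))).2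
      (fun σ hσ => app_sig hH hu T fun q => ?_) (?_ : u p ∈ Subgroup.closure (SigSet _))
    · by_cases h : q = p
      · subst h
        simpa using hσ
      · simpa [Pi.mulSingle_eq_of_ne h] using WAAux.one_mem _
    · by_cases h : IsNm (a : ℚ_[p]) (b : ℚ_[p])
      · exact sig_generate_split h hH' hu' hι _ (h1 p hp)
      · exact sig_generate_div h hH' hu' ▸ Subgroup.mem_top _
  have k2 : ∀ S : Finset Nat.Primes, S ⊆ T →
      (fun p => if p ∈ S then u p else 1) ∈ App H T := fun S => by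
    induction S using Finset.induction_on with
    | empty => exact fun _ => (App H T).one_mem
    | insert q S hq ih =>
      intro h
      rw [Finset.insert_subset_iff] at h
      refine (congrArg (· ∈ App H T) (funext fun p => ?_)).mp (mul_mem (k1 q h.1) (ih h.2))
      by_cases h' : p = q
      · subst h'
        simp [hq]
      · simp [h']
  obtain ⟨γ, hγ⟩ := k2 T le_rfl
  obtain ⟨n, hn⟩ := ((eventually_all_finset T).2 fun p hp =>
    (hγ p hp).eventually (by simpa [hp] using hV p hp : ∀ᶠ g in 𝓝 _, g ∈ V p)).exists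
  exact ⟨γ n, hn⟩

end Pool.Agent.P.MP_3c2f8c_gt
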