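import Pool.Agent.P.MP_3c2f8c_gt.Lo.CD

/-! LO-2: the adjoint representation of the special orthogonal group is irreducible. -/

namespace Pool.Agent.P.MP_3c2f8c_gt

open Matrix

variable {E : Type} [Field E] [CharZero E] {κ : Type} [Fintype κ] [DecidableEq κ]

namespace IrrAux

/-- The sign change at one coordinate. -/
def sg (E : Type) [Field E] (k x : κ) : E := if x = k then -1 else 1

/-- The elementary antisymmetric matrices. -/
def bm (E : Type) [Field E] (i j : κ) : Matrix κ κ E := single i j 1 - single j i 1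

omit [CharZero E] [Fintype κ] in
theorem sg_sq (k x : κ) : sg E k x * sg E k x = 1 := by
  unfold sg
  split_ifs <;> simp

omit [CharZero E] in
theorem prod_sg (k : κ) : ∏ x, sg E k x = -1 := by
  simp [sg]

omit [CharZero E] [Fintype κ] in
theorem bm_apply (i j x y : κ) :
    bm E i j x y = (if i = x ∧ j = y then 1 else 0) - if j = x ∧ i = y then 1 else 0 := by
  simp [bm, single_apply]

omit [CharZero E] in
theorem conj_bm (h : Matrix κ κ E) (i j x y : κ) :
    (hᵀ * bm E i j * h) x y = h i x * h j y - h j x * h i y := by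
  simp [bm, Matrix.mul_apply, single_apply, ite_and,
    Finset.sum_sub_distrib, mul_sub, sub_mul]

variable {d : κ → E} {W : Submodule E (Matrix κ κ E)}

theorem kill (hW : ∀ h : Matrix κ κ E, hᵀ * diagonal d * h = diagonal d → h.det = 1 →
      ∀ A ∈ W, hᵀ * A * h ∈ W) {A : Matrix κ κ E} (hA : A ∈ W) (i j : κ) (T : Finset (κ × κ))
    (hT : ∀ t ∈ T, ∃ k l, sg E k i * sg E l i * (sg E k j * sg E l j) = 1 ∧
      sg E k t.1 * sg E l t.1 * (sg E k t.2 * sg E l t.2) = -1) :
    ∃ B ∈ W, B i j = A i j ∧ ∀ t ∈ T, B t.1 t.2 = 0 := by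
  induction T using Finset.induction_on with
  | empty => exact ⟨A, hA, rfl, by simp⟩
  | insert t T _ ih =>
    obtain ⟨B, b1, b2, b3⟩ := ih fun s hs => hT s (Finset.mem_insert_of_mem hs)
    obtain ⟨k, l, e1, e2⟩ := hT t (Finset.mem_insert_self _ _)
    have h1 := hW (diagonal fun x => sg E k x * sg E l x) (by
      rw [diagonal_transpose, diagonal_mul_diagonal, diagonal_mul_diagonal]
      congr 1
      funext x
      linear_combination (d x * sg E l x * sg E l x) * sg_sq (E := E) k x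
        + d x * sg_sq (E := E) l x) (by
      rw [det_diagonal, Finset.prod_mul_distrib, prod_sg, prod_sg]
      simp) B b1
    have e : ∀ x y, ((1 / 2 : E) • (B + (diagonal fun x => sg E k x * sg E l x)ᵀ * B *
        diagonal fun x => sg E k x * sg E l x)) x y
          = (1 + sg E k x * sg E l x * (sg E k y * sg E l y)) / 2 * B x y := by
      intro x y
      rw [diagonal_transpose, Matrix.smul_apply, Matrix.add_apply, mul_diagonal, diagonal_mul, smul_eq_mul]
      ring
    refine ⟨_, W.smul_mem (1 / 2 : E) (W.add_mem b1 h1), ?_, fun s hs => ?_⟩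
    · rw [e, e1, b2]
      ring
    · rw [e]
      rcases Finset.mem_insert.1 hs with rfl | hs
      · rw [e2]
        ring
      · rw [b3 s hs, mul_zero]

theorem isolate (hκ : 5 ≤ Fintype.card κ) (ha : ∀ A ∈ W, Aᵀ = -A)
    (hW : ∀ h : Matrix κ κ E, hᵀ * diagonal d * h = diagonal d → h.det = 1 →
      ∀ A ∈ W, hᵀ * A * h ∈ W) {A : Matrix κ κ E} (hA : A ∈ W) {i j : κ} (hij : i ≠ j)
    (h0 : A i j ≠ 0) : bm E i j ∈ W := by
  obtain ⟨B, b1, b2, b3⟩ := kill hW hA i j
    (Finset.univ.filter fun t => t.1 ≠ t.2 ∧ ¬ (i = t.1 ∧ j = t.2) ∧ ¬ (j = t.1 ∧ i = t.2)) (by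
      rintro ⟨x, y⟩ ht
      obtain ⟨t1, t2, t3⟩ := (Finset.mem_filter.1 ht).2
      dsimp only at t1 t2 t3 ⊢
      by_cases hx : x = i ∨ x = j ∨ y = i ∨ y = j
      · refine ⟨i, j, by simp [sg, hij, hij.symm], ?_⟩
        rcases hx with rfl | rfl | rfl | rfl
        · have : y ≠ j := fun e => t2 ⟨rfl, e.symm⟩
          simp [sg, hij, t1.symm, this]
        · have : y ≠ i := fun e => t3 ⟨rfl, e.symm⟩
          simp [sg, hij.symm, t1.symm, this]
        · have : x ≠ j := fun e => t3 ⟨e.symm, rfl⟩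
          simp [sg, hij, t1, this]
        · have : x ≠ i := fun e => t2 ⟨e.symm, rfl⟩
          simp [sg, hij.symm, t1, this]
      · push Not at hx
        obtain ⟨l, hl⟩ : ∃ l, l ∉ ({i, j, x, y} : Finset κ) := by
          by_contra hc
          push Not at hc
          have h1 := Finset.card_le_card (fun l _ => hc l : Finset.univ ⊆ ({i, j, x, y} : Finset κ))
          have h2 : ({i, j, x, y} : Finset κ).card ≤ 4 := Finset.card_le_four
          rw [Finset.card_univ] at h1
          omega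
        simp only [Finset.mem_insert, Finset.mem_singleton, not_or] at hl
        obtain ⟨l1, l2, l3, l4⟩ := hl
        exact ⟨x, l, by simp [sg, hx.1.symm, hx.2.1.symm, Ne.symm l1, Ne.symm l2],
          by simp [sg, t1.symm, Ne.symm l3, Ne.symm l4]⟩)
  have han : ∀ x y, B y x = -B x y := fun x y => congrFun (congrFun (ha B b1) x) y
  have e : bm E i j = (A i j)⁻¹ • B := by
    ext x y
    rw [bm_apply, Matrix.smul_apply, smul_eq_mul]
    by_cases c1 : i = x ∧ j = y
    · obtain ⟨rfl, rfl⟩ := c1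
      simp [hij, b2, h0]
    · by_cases c2 : j = x ∧ i = y
      · obtain ⟨rfl, rfl⟩ := c2
        rw [han i j, b2]
        simp [hij, h0]
      · rw [if_neg c1, if_neg c2, sub_self]
        by_cases c3 : x = y
        · subst c3
          have : B x x = 0 := by linear_combination (1 / 2 : E) * han x x
          rw [this, mul_zero]
        · rw [b3 (x, y) (Finset.mem_filter.2 ⟨Finset.mem_univ _, c3, c1, c2⟩), mul_zero]
  rw [e]
  exact W.smul_mem _ b1

theorem move (hκ : 5 ≤ Fintype.card κ) (hd : ∀ x, d x ≠ 0) (ha : ∀ A ∈ W, Aᵀ = -A)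
    (hW : ∀ h : Matrix κ κ E, hᵀ * diagonal d * h = diagonal d → h.det = 1 →
      ∀ A ∈ W, hᵀ * A * h ∈ W) {i j k : κ} (hij : i ≠ j) (hik : i ≠ k) (h0 : bm E i j ∈ W) :
    bm E i k ∈ W := by
  by_cases hjk : j = k
  · exact hjk ▸ h0
  obtain ⟨c, hc, hq⟩ : ∃ c : E, c ≠ 0 ∧ d j + c ^ 2 * d k ≠ 0 := by
    by_cases h1 : d j + 1 ^ 2 * d k = 0
    · refine ⟨2, two_ne_zero, fun h2 => hd k ?_⟩
      linear_combination (1 / 3 : E) * (h2 - h1)
    · exact ⟨1, one_ne_zero, h1⟩
  set u : κ → E := Pi.single j 1 + Pi.single k c with hu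
  have ui : u i = 0 := by simp [hu, hij, hik]
  have uj : u j = 1 := by simp [hu, hjk]
  have uk : u k = c := by simp [hu, Ne.symm hjk]
  have hqf : qf (diagonal d) u u = d j + c ^ 2 * d k := by
    rw [qf]
    nth_rewrite 1 [hu]
    rw [add_dotProduct, single_dotProduct, single_dotProduct, mulVec_diagonal, mulVec_diagonal,
      uj, uk]
    ring
  have hq' : qf (diagonal d) u u ≠ 0 := hqf ▸ hq
  obtain ⟨g, hg⟩ := exists_refl (diagonal_transpose d) hq'
  have hg' : (refl (diagonal d) u)ᵀ * diagonal d * refl (diagonal d) u = diagonal d := hg ▸ g.2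
  have h1 := hW (refl (diagonal d) u * diagonal (sg E j)) (by
    rw [transpose_mul, Matrix.mul_assoc _ _ (diagonal d), Matrix.mul_assoc, ← Matrix.mul_assoc _
      (refl (diagonal d) u), hg', diagonal_transpose, diagonal_mul_diagonal, diagonal_mul_diagonal]
    congr 1
    funext x
    linear_combination d x * sg_sq (E := E) j x) (by
    rw [det_mul, det_refl hq', det_diagonal, prod_sg]
    simp) _ h0
  refine isolate hκ ha hW h1 hik ?_
  rw [conj_bm]
  simp [mul_diagonal, refl, vecMulVec_apply, vecMul_diagonal, ui, uj, uk, sg, hij, hik, hjk,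
    Ne.symm hjk, hq', hc, hd k]

theorem core (hκ : 5 ≤ Fintype.card κ) (hd : ∀ x, d x ≠ 0) (ha : ∀ A ∈ W, Aᵀ = -A)
    (hW : ∀ h : Matrix κ κ E, hᵀ * diagonal d * h = diagonal d → h.det = 1 →
      ∀ A ∈ W, hᵀ * A * h ∈ W) {A : Matrix κ κ E} (hA : A ∈ W) (h0 : A ≠ 0) {B : Matrix κ κ E}
    (hB : Bᵀ = -B) : B ∈ W := by
  obtain ⟨i, j, hij⟩ : ∃ i j, A i j ≠ 0 := by
    by_contra hc
    push Not at hc
    exact h0 (Matrix.ext hc)
  have hne : i ≠ j := by
    rintro rfl
    have : A i i = -A i i := congrFun (congrFun (ha A hA) i) i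
    exact hij (by linear_combination (1 / 2 : E) * this)
  have b0 := isolate hκ ha hW hA hne hij
  have sw : ∀ x y, bm E x y ∈ W → bm E y x ∈ W := fun x y h => by
    have e : bm E y x = -bm E x y := by simp [bm]
    rw [e]
    exact W.neg_mem h
  have all : ∀ x y, bm E x y ∈ W := by
    intro x y
    by_cases hxy : x = y
    · rw [hxy, bm, sub_self]
      exact W.zero_mem
    · by_cases hx : i = x
      · exact hx ▸ move hκ hd ha hW hne (hx ▸ hxy) b0
      · exact move hκ hd ha hW (Ne.symm hx) hxy (sw _ _ (move hκ hd ha hW hne hx b0))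
  have e : B = ∑ x, ∑ y, (B x y / 2) • bm E x y := by
    ext a b
    have : B b a = -B a b := congrFun (congrFun hB a) b
    rw [Matrix.sum_apply]
    simp only [Matrix.sum_apply, Matrix.smul_apply, bm_apply, smul_eq_mul, mul_sub,
      Finset.sum_sub_distrib]
    simp [ite_and, this]
    ring
  rw [e]
  exact W.sum_mem fun x _ => W.sum_mem fun y _ => W.smul_mem _ (all x y)

end IrrAux

theorem so_irred {S : Matrix κ κ E} (hS : Sᵀ = S) (hu : IsUnit S) (hκ : 5 ≤ Fintype.card κ)
    (V : Submodule E (Matrix κ κ E)) (hV : ∀ X ∈ V, Xᵀ * S = -(S * X)) (h0 : V ≠ ⊥)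
    (hinv : ∀ g : Ort S, g.1.1.det = 1 → ∀ X ∈ V, g.1.1 * X * (g⁻¹).1.1 ∈ V) :
    ∀ X, Xᵀ * S = -(S * X) → X ∈ V := by
  obtain ⟨P, d, hP, hd⟩ := exists_diag S hS
  have hPd : IsUnit P.det := (isUnit_iff_isUnit_det _).1 hP
  have hPS : IsUnit (Pᵀ * S) := ((isUnit_transpose _).2 hP).mul hu
  have hd0 : ∀ x, d x ≠ 0 := by
    have : IsUnit (diagonal d).det := (isUnit_iff_isUnit_det _).1 (hd ▸ hPS.mul hP)
    rw [det_diagonal, isUnit_iff_ne_zero, Finset.prod_ne_zero_iff] at this
    exact fun x => this x (Finset.mem_univ x)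
  let φ : Matrix κ κ E →ₗ[E] Matrix κ κ E :=
    (LinearMap.mulRight E P).comp (LinearMap.mulLeft E (Pᵀ * S))
  have hφ : ∀ X, φ X = Pᵀ * S * X * P := fun X => rfl
  have inj : Function.Injective φ := fun X Y h =>
    hPS.mul_left_cancel (hP.mul_right_cancel h)
  have anti : ∀ X : Matrix κ κ E, Xᵀ * S = -(S * X) → (φ X)ᵀ = -φ X := fun X hX => by
    rw [hφ, transpose_mul, transpose_mul, transpose_mul, transpose_transpose, hS,
      ← Matrix.mul_assoc Xᵀ, hX]
    simp only [Matrix.mul_assoc, Matrix.neg_mul, Matrix.mul_neg]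
  obtain ⟨A, hA, hA0⟩ := (Submodule.ne_bot_iff V).1 h0
  intro X hX
  have key : φ X ∈ V.map φ := by
    refine IrrAux.core hκ hd0 ?_ ?_ (Submodule.mem_map_of_mem hA)
      (fun e => hA0 (inj (e.trans φ.map_zero.symm))) (anti X hX)
    · rintro _ ⟨Y, hY, rfl⟩
      exact anti Y (hV Y hY)
    · rintro h h1 h2 _ ⟨Y, hY, rfl⟩
      have k1 : (P * h * P⁻¹).det = 1 := by
        rw [det_conj hP, h2]
      obtain ⟨k, hk⟩ : IsUnit (P * h * P⁻¹) := (isUnit_iff_isUnit_det _).2 (k1 ▸ isUnit_one)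
      have k2 : k.1 * P = P * h := by
        rw [hk, nonsing_inv_mul_cancel_right _ _ hPd]
      have k3 : k ∈ Ort S := by
        show k.1ᵀ * S * k.1 = S
        refine ((isUnit_transpose _).2 hP).mul_left_cancel (hP.mul_right_cancel ?_)
        calc Pᵀ * (k.1ᵀ * S * k.1) * P = (k.1 * P)ᵀ * S * (k.1 * P) := by
              simp only [transpose_mul, Matrix.mul_assoc]
          _ = hᵀ * (Pᵀ * S * P) * h := by
              rw [k2]
              simp only [transpose_mul, Matrix.mul_assoc]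
          _ = Pᵀ * S * P := by rw [hd, h1]
      have k4 : k.1ᵀ * S = S * (k⁻¹).1 := by
        have : k.1ᵀ * S * k.1 = S := k3
        rw [Units.eq_mul_inv_iff_mul_eq, this]
      have k5 : (k⁻¹).1.det = 1 := by
        have := congrArg det k.inv_mul
        rwa [det_mul, hk, k1, mul_one, det_one] at this
      have := hinv (⟨k, k3⟩ : Ort S)⁻¹ k5 Y hY
      rw [inv_inv] at this
      refine ⟨_, this, ?_⟩
      show Pᵀ * S * ((k⁻¹).1 * Y * k.1) * P = hᵀ * (Pᵀ * S * Y * P) * h
      calc Pᵀ * S * ((k⁻¹).1 * Y * k.1) * P = Pᵀ * (S * (k⁻¹).1) * Y * (k.1 * P) := by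
            simp only [Matrix.mul_assoc]
        _ = (k.1 * P)ᵀ * S * Y * (k.1 * P) := by
            rw [← k4]
            simp only [transpose_mul, Matrix.mul_assoc]
        _ = hᵀ * (Pᵀ * S * Y * P) * h := by
            rw [k2]
            simp only [transpose_mul, Matrix.mul_assoc]
  obtain ⟨Y, hY, e⟩ := key
  exact inj e ▸ hY

end Pool.Agent.P.MP_3c2f8c_gt
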