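import Pool.Agent.P.MP_3c2f8c_gt.Lo.Tan1
import Pool.Agent.P.MP_3c2f8c_gt.Lo.Irr

/-! LO-8: infinite bounded subgroups with a large commensurator have open closure. -/

namespace Pool.Agent.P.MP_3c2f8c_gt

open Matrix

variable {p : ℕ} [Fact p.Prime] {κ : Type} [Fintype κ] [DecidableEq κ] {S : Matrix κ κ ℚ_[p]}

namespace Tan2Aux

open Filter Topology

/-- All entries have norm at most `r`. -/
def Bd (r : ℝ) (A : Matrix κ κ ℚ_[p]) : Prop := ∀ i j, ‖A i j‖ ≤ r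

omit [DecidableEq κ] in
theorem Bd.mul {r s : ℝ} {A B : Matrix κ κ ℚ_[p]} (hA : Bd r A) (hB : Bd s B) (hr : 0 ≤ r)
    (hs : 0 ≤ s) : Bd (r * s) (A * B) := fun i j => by
  rw [Matrix.mul_apply]
  refine IsUltrametricDist.norm_sum_le_of_forall_le_of_nonneg (mul_nonneg hr hs) fun k _ => ?_
  rw [norm_mul]
  exact mul_le_mul (hA i k) (hB k j) (norm_nonneg _) hr

omit [Fintype κ] [DecidableEq κ] in
theorem Bd.add {r : ℝ} {A B : Matrix κ κ ℚ_[p]} (hA : Bd r A) (hB : Bd r B) : Bd r (A + B) :=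
  fun i j => (IsUltrametricDist.norm_add_le_max _ _).trans (max_le (hA i j) (hB i j))

omit [Fintype κ] [DecidableEq κ] in
theorem Bd.neg {r : ℝ} {A : Matrix κ κ ℚ_[p]} (hA : Bd r A) : Bd r (-A) :=
  fun i j => by rw [Matrix.neg_apply, norm_neg]; exact hA i j

omit [Fintype κ] [DecidableEq κ] in
theorem Bd.smul {r : ℝ} {A : Matrix κ κ ℚ_[p]} (hA : Bd r A) (c : ℚ_[p]) :
    Bd (‖c‖ * r) (c • A) := fun i j => by
  rw [Matrix.smul_apply, smul_eq_mul, norm_mul]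
  exact mul_le_mul_of_nonneg_left (hA i j) (norm_nonneg _)

omit [Fintype κ] [DecidableEq κ] in
theorem Bd.mono {r s : ℝ} {A : Matrix κ κ ℚ_[p]} (hA : Bd r A) (h : r ≤ s) : Bd s A :=
  fun i j => (hA i j).trans h

omit [Fintype κ] [DecidableEq κ] in
theorem Bd.transpose {r : ℝ} {A : Matrix κ κ ℚ_[p]} (hA : Bd r A) : Bd r Aᵀ := fun i j => hA j i

omit [Fintype κ] in
theorem bd_one : Bd 1 (1 : Matrix κ κ ℚ_[p]) := fun i j => by
  rw [Matrix.one_apply]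
  split_ifs <;> simp

omit [DecidableEq κ] in
theorem exists_bd (A : Matrix κ κ ℚ_[p]) : ∃ r : ℝ, 0 < r ∧ Bd r A := by
  obtain ⟨r, hr⟩ := (Set.finite_range fun t : κ × κ => ‖A t.1 t.2‖).bddAbove
  exact ⟨max r 1, lt_max_of_lt_right one_pos,
    fun i j => (hr ⟨(i, j), rfl⟩).trans (le_max_left _ _)⟩

omit [DecidableEq κ] in
theorem bd_nhds {Y : Type} [TopologicalSpace Y] {f : Y → Matrix κ κ ℚ_[p]} (hf : Continuous f)
    {y : Y} (hy : f y = 0) {r : ℝ} (hr : 0 < r) : {z | Bd r (f z)} ∈ 𝓝 y := by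
  have h : ∀ t : κ × κ, ∀ᶠ z in 𝓝 y, ‖f z t.1 t.2‖ ≤ r := fun t => by
    have h1 : Continuous fun z => ‖f z t.1 t.2‖ := (hf.matrix_elem t.1 t.2).norm
    have h2 : ‖f y t.1 t.2‖ < r := by rw [hy]; simpa using hr
    exact (h1.continuousAt.eventually (gt_mem_nhds h2)).mono fun z hz => hz.le
  exact (eventually_all.2 h).mono fun z hz i j => hz (i, j)

omit [DecidableEq κ] in
theorem isCompact_skew (S : Matrix κ κ ℚ_[p]) :
    IsCompact {X : Matrix κ κ ℚ_[p] | Xᵀ * S = -(S * X) ∧ Bd 1 X} := by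
  have h1 : IsCompact {X : Matrix κ κ ℚ_[p] | Bd 1 X} := by
    have := isCompact_univ_pi fun _ : κ => isCompact_univ_pi fun _ : κ =>
      isCompact_closedBall (0 : ℚ_[p]) 1
    refine this.of_isClosed_subset ?_ fun X hX i _ j _ => by simpa using hX i j
    simp only [Bd, Set.ofPred_forall]
    exact isClosed_iInter fun i => isClosed_iInter fun j =>
      isClosed_le (continuous_id.matrix_elem i j).norm continuous_const
  have h2 : IsClosed {X : Matrix κ κ ℚ_[p] | Xᵀ * S = -(S * X)} :=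
    isClosed_eq (continuous_id.matrix_transpose.matrix_mul continuous_const)
      (continuous_const.matrix_mul continuous_id).neg
  exact h1.inter_left h2

theorem norm_p_pos : 0 < ‖(p : ℚ_[p])‖ :=
  norm_pos_iff.2 (Nat.cast_ne_zero.2 (Fact.out : p.Prime).ne_zero)

theorem uniform {Γ : Subgroup (Ort S)} (h : ∀ X, Xᵀ * S = -(S * X) → Tan Γ X) :
    ∃ k₀ : ℕ, ∀ k, k₀ ≤ k → ∀ X ∈ {X : Matrix κ κ ℚ_[p] | Xᵀ * S = -(S * X) ∧ Bd 1 X},
      ∃ c ∈ Γ, Bd (‖(p : ℚ_[p])‖ ^ (k + 1)) (c.1.1 - 1 - (p : ℚ_[p]) ^ k • X) := by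
  refine (isCompact_skew S).induction_on (p := fun s => ∃ k₀ : ℕ, ∀ k, k₀ ≤ k → ∀ X ∈ s,
      ∃ c ∈ Γ, Bd (‖(p : ℚ_[p])‖ ^ (k + 1)) (c.1.1 - 1 - (p : ℚ_[p]) ^ k • X)) ?_ ?_ ?_ ?_
  · exact ⟨0, fun _ _ _ hX => hX.elim⟩
  · rintro s t hst ⟨k₀, hk⟩
    exact ⟨k₀, fun k hk' X hX => hk k hk' X (hst hX)⟩
  · rintro s t ⟨k₀, hk⟩ ⟨k₁, hk'⟩
    refine ⟨max k₀ k₁, fun k h' X hX => ?_⟩
    rcases hX with hX | hX
    · exact hk k (le_of_max_le_left h') X hX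
    · exact hk' k (le_of_max_le_right h') X hX
  · intro X hX
    obtain ⟨k₀, hk⟩ := h X hX.1 _ (norm_p_pos (p := p))
    refine ⟨{Y | Bd ‖(p : ℚ_[p])‖ (X - Y)}, mem_nhdsWithin_of_mem_nhds
      (bd_nhds (continuous_const.sub continuous_id) (sub_self X) norm_p_pos),
      k₀, fun k hk' Y hY => ?_⟩
    obtain ⟨c, hc, hb⟩ := hk k hk'
    refine ⟨c, hc, ?_⟩
    have e : c.1.1 - 1 - (p : ℚ_[p]) ^ k • Y =
        (c.1.1 - 1 - (p : ℚ_[p]) ^ k • X) + (p : ℚ_[p]) ^ k • (X - Y) := by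
      rw [smul_sub]; abel
    rw [e]
    refine Bd.add (fun i j => (hb i j).trans_eq ?_) ((Bd.smul hY _).mono (le_of_eq ?_))
    · rw [norm_pow, pow_succ']
    · rw [norm_pow, pow_succ]

theorem inv_eq {T : Matrix κ κ ℚ_[p]} (hT : T * S = 1) (c : Ort S) :
    (c⁻¹).1.1 = 1 + T * (c.1.1 - 1)ᵀ * S := by
  have h1 : c.1.1ᵀ * S * c.1.1 = S := c.2
  have h2 : c.1.1 * (c⁻¹).1.1 = 1 := c.1.mul_inv
  calc (c⁻¹).1.1 = T * (c.1.1ᵀ * S * c.1.1) * (c⁻¹).1.1 := by rw [h1, hT, Matrix.one_mul]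
    _ = T * c.1.1ᵀ * S * (c.1.1 * (c⁻¹).1.1) := by simp only [Matrix.mul_assoc]
    _ = 1 + T * (c.1.1 - 1)ᵀ * S := by
        rw [h2, Matrix.mul_one, transpose_sub, transpose_one, Matrix.mul_sub, Matrix.sub_mul,
          Matrix.mul_one, hT]
        abel

theorem step (hS : Sᵀ = S) (hu : IsUnit S) {Γ : Subgroup (Ort S)}
    (h : ∀ X, Xᵀ * S = -(S * X) → Tan Γ X) :
    ∃ k₀ : ℕ, ∀ k, k₀ ≤ k → ∀ g : Ort S, Bd (‖(p : ℚ_[p])‖ ^ k) (g.1.1 - 1) →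
      ∃ c ∈ Γ, Bd (‖(p : ℚ_[p])‖ ^ (k + 1)) ((c⁻¹ * g).1.1 - 1) := by
  obtain ⟨k₀, hk₀⟩ := uniform h
  obtain ⟨T, hST, hTS⟩ : ∃ T, S * T = 1 ∧ T * S = 1 := ⟨hu.unit⁻¹.1, hu.mul_val_inv, hu.val_inv_mul⟩
  obtain ⟨s, hs, hsS⟩ := exists_bd S
  obtain ⟨t, ht, htT⟩ := exists_bd T
  obtain ⟨q, hq⟩ : ∃ q, q = ‖(p : ℚ_[p])‖ := ⟨_, rfl⟩
  have hq0 : 0 < q := hq ▸ norm_p_pos
  have hq1 : q < 1 := hq ▸ Padic.norm_p_lt_one
  obtain ⟨w, hw⟩ : ∃ w, w = ‖(2⁻¹ : ℚ_[p])‖ := ⟨_, rfl⟩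
  have hw0 : 0 ≤ w := hw ▸ norm_nonneg _
  have hlim : Tendsto (fun k : ℕ => (w + 1) * (t * q ^ k * s)) atTop (𝓝 0) := by
    simpa using (((tendsto_pow_atTop_nhds_zero_of_lt_one hq0.le hq1).const_mul t).mul_const
      s).const_mul (w + 1)
  obtain ⟨k₁, hk₁⟩ := eventually_atTop.1 (hlim.eventually (gt_mem_nhds hq0))
  rw [← hq] at hk₀ ⊢
  refine ⟨max k₀ k₁, fun k hk g hg => ?_⟩
  have hqk : 0 < q ^ k := pow_pos hq0 k
  have hx : 0 < t * q ^ k * s := by positivity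
  have b0 := hk₁ k (le_of_max_le_right hk)
  have b1 : w * (t * q ^ k * s) ≤ q := by nlinarith
  have b2 : t * q ^ k * s ≤ 1 := by nlinarith
  have hle : q ^ (k + 1) ≤ q ^ k := pow_le_pow_of_le_one hq0.le hq1.le (Nat.le_succ k)
  obtain ⟨E, hE⟩ : ∃ E, E = g.1.1 - 1 := ⟨_, rfl⟩
  rw [← hE] at hg
  have hgE : g.1.1 = 1 + E := by rw [hE]; abel
  have hrel : Eᵀ * S + S * E + Eᵀ * S * E = 0 := by
    have h1 : g.1.1ᵀ * S * g.1.1 = S := g.2
    rw [hgE, transpose_add, transpose_one, Matrix.add_mul, Matrix.one_mul, Matrix.mul_add,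
      Matrix.mul_one, Matrix.add_mul] at h1
    calc Eᵀ * S + S * E + Eᵀ * S * E = S + Eᵀ * S + (S * E + Eᵀ * S * E) - S := by abel
      _ = 0 := by rw [h1, sub_self]
  obtain ⟨F, hF⟩ : ∃ F, F = (2⁻¹ : ℚ_[p]) • (T * Eᵀ * S * E) := ⟨_, rfl⟩
  have hFb : Bd (q ^ (k + 1)) F := by
    rw [hF]
    refine ((((htT.mul hg.transpose ht.le hqk.le).mul hsS (by positivity) hs.le).mul hg hx.le
      hqk.le).smul _).mono ?_
    rw [← hw, ← mul_assoc, pow_succ']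
    exact mul_le_mul_of_nonneg_right b1 hqk.le
  have hSF : S * F = (2⁻¹ : ℚ_[p]) • (Eᵀ * S * E) := by
    rw [hF, Matrix.mul_smul, ← Matrix.mul_assoc, ← Matrix.mul_assoc, ← Matrix.mul_assoc, hST,
      Matrix.one_mul]
  have hFS : Fᵀ * S = (2⁻¹ : ℚ_[p]) • (Eᵀ * S * E) := by
    have := congrArg Matrix.transpose hSF
    rwa [transpose_mul, hS, transpose_smul, transpose_mul, transpose_mul, transpose_transpose, hS,
      ← Matrix.mul_assoc] at this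
  have hZ : (E + F)ᵀ * S = -(S * (E + F)) := by
    rw [transpose_add, Matrix.add_mul, Matrix.mul_add, hSF, hFS, eq_neg_iff_add_eq_zero, ← hrel]
    have : Eᵀ * S * E = (2⁻¹ : ℚ_[p]) • (Eᵀ * S * E) + (2⁻¹ : ℚ_[p]) • (Eᵀ * S * E) := by
      rw [← add_smul]; norm_num
    nth_rewrite 3 [this]
    abel
  have hp0 : (p : ℚ_[p]) ^ k ≠ 0 := pow_ne_zero _ (norm_pos_iff.1 norm_p_pos)
  obtain ⟨c, hc, hb⟩ := hk₀ k (le_of_max_le_left hk) (((p : ℚ_[p]) ^ k)⁻¹ • (E + F)) ⟨by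
    rw [transpose_smul, Matrix.smul_mul, Matrix.mul_smul, hZ, smul_neg], by
    refine ((hg.add (hFb.mono hle)).smul _).mono (le_of_eq ?_)
    rw [norm_inv, norm_pow, ← hq, inv_mul_cancel₀ hqk.ne']⟩
  rw [smul_inv_smul₀ hp0] at hb
  refine ⟨c, hc, ?_⟩
  have hcg : Bd (q ^ (k + 1)) (g.1.1 - c.1.1) := by
    have e : g.1.1 - c.1.1 = -((c.1.1 - 1 - (E + F)) + F) := by rw [hgE]; abel
    rw [e]
    exact (hb.add hFb).neg
  have hc1 : Bd (q ^ k) (c.1.1 - 1) := by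
    have e : c.1.1 - 1 = E + -(g.1.1 - c.1.1) := by rw [hE]; abel
    rw [e]
    exact hg.add (hcg.mono hle).neg
  have hci : Bd 1 (c⁻¹).1.1 := by
    rw [inv_eq hTS]
    exact bd_one.add (((htT.mul hc1.transpose ht.le hqk.le).mul hsS (by positivity) hs.le).mono b2)
  have e : (c⁻¹ * g).1.1 - 1 = (c⁻¹).1.1 * (g.1.1 - c.1.1) := by
    have h2 : (c⁻¹).1.1 * c.1.1 = 1 := c.1.inv_mul
    rw [Matrix.mul_sub, h2]
    rfl
  rw [e]
  exact (hci.mul hcg zero_le_one (pow_pos hq0 _).le).mono (le_of_eq (one_mul _))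

end Tan2Aux

open Tan2Aux Filter Topology in
theorem open_of_tan (hS : Sᵀ = S) (hu : IsUnit S) {Γ : Subgroup (Ort S)}
    (h : ∀ X, Xᵀ * S = -(S * X) → Tan Γ X) :
    IsOpen (Γ.topologicalClosure : Set (Ort S)) := by
  obtain ⟨k₀, hk₀⟩ := step hS hu h
  have hind := isInducing_ort hu
  refine Subgroup.isOpen_of_mem_nhds _ (g := 1) (mem_of_superset
    (bd_nhds (f := fun g : Ort S => g.1.1 - 1) (hind.continuous.sub continuous_const)
      (sub_self _) (pow_pos (norm_p_pos (p := p)) k₀)) fun g hg => ?_)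
  have key : ∀ j : ℕ, ∃ c ∈ Γ, Bd (‖(p : ℚ_[p])‖ ^ (k₀ + j)) ((c⁻¹ * g).1.1 - 1) := by
    intro j
    induction j with
    | zero => exact ⟨1, Γ.one_mem, by simpa using hg⟩
    | succ j ih =>
      obtain ⟨c, hc, hb⟩ := ih
      obtain ⟨c', hc', hb'⟩ := hk₀ _ (Nat.le_add_right k₀ j) _ hb
      refine ⟨c * c', Γ.mul_mem hc hc', ?_⟩
      rw [_root_.mul_inv_rev, mul_assoc]
      exact hb'
  choose c hc hb using key
  have h1 : Tendsto (fun j => (c j)⁻¹ * g) atTop (𝓝 1) := by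
    rw [hind.tendsto_nhds_iff]
    refine tendsto_pi_nhds.2 fun i => tendsto_pi_nhds.2 fun j => ?_
    rw [tendsto_iff_norm_sub_tendsto_zero]
    refine squeeze_zero (fun n => norm_nonneg _) (fun n => hb n i j) ?_
    exact (tendsto_pow_atTop_nhds_zero_of_lt_one (norm_nonneg _) Padic.norm_p_lt_one).comp
      (tendsto_atTop_mono (fun n => Nat.le_add_left n k₀) tendsto_id)
  have h2 : Tendsto c atTop (𝓝 g) := by
    simpa using h1.inv.const_mul g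
  exact mem_closure_of_tendsto h2 (Eventually.of_forall hc)

theorem open_closure (hS : Sᵀ = S) (hu : IsUnit S) (hκ : 5 ≤ Fintype.card κ)
    {Γ K : Subgroup (Ort S)} (hK : IsCompact (K : Set (Ort S))) (hΓ : Γ ≤ K) (hinf : Infinite Γ)
    {𝒢 : Set (Ort S)} (h𝒢 : ∀ g ∈ 𝒢, ∃ m : ℕ, 0 < m ∧ ∀ γ ∈ Γ, g * γ ^ m * g⁻¹ ∈ Γ)
    (hd : ∀ g : Ort S, g.1.1.det = 1 → g ∈ closure 𝒢) :
    IsOpen (Γ.topologicalClosure : Set (Ort S)) := by
  obtain ⟨V, hV⟩ := exists_tan_submodule Γ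
  obtain ⟨X₀, hX₀, hT⟩ := exists_tan_ne_zero hK hΓ hinf
  have hc := (isInducing_ort hu).continuous
  refine open_of_tan hS hu fun X hX => (hV X).1 (so_irred hS hu hκ V
    (fun Y hY => ((hV Y).1 hY).skew) ((Submodule.ne_bot_iff V).2 ⟨X₀, (hV _).2 hT, hX₀⟩)
    (fun g hg Y hY => ?_) X hX)
  refine closure_minimal (t := {g : Ort S | g.1.1 * Y * (g⁻¹).1.1 ∈ V}) (fun g' hg' => ?_)
    (V.closed_of_finiteDimensional.preimage
      ((hc.matrix_mul continuous_const).matrix_mul (hc.comp continuous_inv))) (hd g hg)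
  obtain ⟨m, hm, hm'⟩ := h𝒢 g' hg'
  exact (hV _).2 (((hV Y).1 hY).conj hm hm')

theorem open_closure_un {a b : ℤ} [NeZero a] [NeZero b] (hs : IsNm (a : ℚ_[p]) (b : ℚ_[p]))
    {H : Matrix κ κ (Q a b ℚ_[p])} (hH : Hᴴ = -H) (hu : IsUnit H) (hκ : 3 ≤ Fintype.card κ)
    {Γ K : Subgroup (Un H)} (hK : IsCompact (K : Set (Un H))) (hΓ : Γ ≤ K) (hinf : Infinite Γ)
    {𝒢 : Set (Un H)} (h𝒢 : ∀ g ∈ 𝒢, ∃ m : ℕ, 0 < m ∧ ∀ γ ∈ Γ, g * γ ^ m * g⁻¹ ∈ Γ)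
    (hd : ∀ g : Un H, nrd g.1.1 = 1 → g ∈ closure 𝒢) :
    IsOpen (Γ.topologicalClosure : Set (Un H)) := by
  obtain ⟨S, e, hS, hU, he⟩ := exists_morita_top hs hH hu
  have h := open_closure hS hU (by rw [Fintype.card_prod, Fintype.card_fin]; omega)
    (Γ := Γ.map e.toMulEquiv.toMonoidHom) (K := K.map e.toMulEquiv.toMonoidHom)
    (hK.image e.continuous) (Subgroup.map_mono hΓ)
    (Infinite.of_injective _ (Γ.equivMapOfInjective e.toMulEquiv.toMonoidHom e.injective).injective)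
    (𝒢 := e '' 𝒢) (by
      rintro _ ⟨g, hg, rfl⟩
      obtain ⟨m, hm, hm'⟩ := h𝒢 g hg
      refine ⟨m, hm, ?_⟩
      rintro _ ⟨γ, hγ, rfl⟩
      exact ⟨_, hm' γ hγ, by rw [map_mul, map_mul, map_pow, map_inv]; rfl⟩) (by
      intro g hg
      obtain ⟨g', rfl⟩ := e.surjective g
      exact image_closure_subset_closure_image e.continuous
        ⟨g', hd g' (by rw [← he, hg]), rfl⟩)
  have h1 : (Γ.topologicalClosure : Set (Un H)) =
      e ⁻¹' ((Γ.map e.toMulEquiv.toMonoidHom).topologicalClosure : Set (Ort S)) := by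
    have h2 := e.toHomeomorph.preimage_closure (e '' (Γ : Set (Un H)))
    have h3 : e.toHomeomorph ⁻¹' (e '' (Γ : Set (Un H))) = Γ :=
      Set.preimage_image_eq _ e.injective
    rw [h3] at h2
    exact h2.symm
  rw [h1]
  exact h.preimage e.continuous

end Pool.Agent.P.MP_3c2f8c_gt
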