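import Pool.Agent.P.MP_3c2f8c_gt.Lo.Top

/-! LO-5: the congruence subgroup attached to a norm. -/

namespace Pool.Agent.P.MP_3c2f8c_gt

open Matrix

variable {p : ℕ} [Fact p.Prime] {κ μ : Type} [Fintype κ] [DecidableEq κ] [Fintype μ]

namespace Eich2Aux

/-- Operator bound for the norm `v ↦ ‖A v‖`. -/
def Sm (A : (κ → ℚ_[p]) →ₗ[ℚ_[p]] (μ → ℚ_[p])) (ρ : ℝ) (M : Matrix κ κ ℚ_[p]) : Prop :=
  ∀ v, ‖A (M *ᵥ v)‖ ≤ ρ * ‖A v‖

variable {A : (κ → ℚ_[p]) →ₗ[ℚ_[p]] (μ → ℚ_[p])} {ρ ρ' : ℝ} {M N : Matrix κ κ ℚ_[p]}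

omit [DecidableEq κ] in
theorem Sm.add (h : Sm A ρ M) (k : Sm A ρ N) : Sm A ρ (M + N) := fun v => by
  rw [add_mulVec, map_add]
  exact (IsUltrametricDist.norm_add_le_max _ _).trans (max_le (h v) (k v))

omit [DecidableEq κ] in
theorem Sm.mul (h : Sm A ρ M) (k : Sm A ρ' N) (h0 : 0 ≤ ρ) : Sm A (ρ * ρ') (M * N) := fun v => by
  rw [← mulVec_mulVec, mul_assoc]
  exact (h _).trans (mul_le_mul_of_nonneg_left (k v) h0)

omit [DecidableEq κ] in
theorem Sm.mono (h : Sm A ρ M) (k : ρ ≤ ρ') : Sm A ρ' M := fun v =>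
  (h v).trans (mul_le_mul_of_nonneg_right k (norm_nonneg _))

omit [DecidableEq κ] in
theorem Sm.smul (h : Sm A ρ M) {c : ℚ_[p]} (hc : ‖c‖ ≤ 1) : Sm A ρ (c • M) := fun v => by
  rw [smul_mulVec, map_smul, norm_smul]
  exact (mul_le_of_le_one_left (norm_nonneg _) hc).trans (h v)

theorem Sm.iso (h : Sm A ρ (M - 1)) (h1 : ρ < 1) (v : κ → ℚ_[p]) : ‖A (M *ᵥ v)‖ = ‖A v‖ := by
  have h2 := h v
  rw [sub_mulVec, one_mulVec, map_sub] at h2
  rcases (norm_nonneg (A v)).eq_or_lt with h0 | h0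
  · rw [← h0, mul_zero, norm_le_zero_iff, sub_eq_zero] at h2
    rw [h2]
  · have h3 : ‖A (M *ᵥ v) - A v‖ < ‖A v‖ := h2.trans_lt (mul_lt_of_lt_one_left h0 h1)
    have h4 := IsUltrametricDist.norm_add_eq_max_of_norm_ne_norm h3.ne
    rw [sub_add_cancel, max_eq_right h3.le] at h4
    exact h4

theorem pow_expand (h : Sm A ρ (M - 1)) (h0 : 0 ≤ ρ) (h1 : ρ ≤ 1) (n : ℕ) :
    ∃ Z, Sm A ρ Z ∧ M ^ n = 1 + (n : ℚ_[p]) • (M - 1) + Z * (M - 1) := by
  induction n with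
  | zero => exact ⟨0, fun v => by simpa using mul_nonneg h0 (norm_nonneg _), by simp⟩
  | succ n ih =>
    obtain ⟨Z, hZ, e⟩ := ih
    refine ⟨Z + (n : ℚ_[p]) • (M - 1) + (M - 1) * Z,
      (hZ.add (h.smul (IsUltrametricDist.norm_natCast_le_one _ n))).add
        ((h.mul hZ h0).mono (mul_le_of_le_one_left h0 h1)), ?_⟩
    obtain ⟨X, rfl⟩ : ∃ X, M = 1 + X := ⟨M - 1, by abel⟩
    rw [pow_succ', e]
    simp only [add_sub_cancel_left, Nat.cast_succ, add_smul, one_smul, mul_add, add_mul, one_mul,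
      mul_one, mul_smul_comm, smul_mul_assoc, smul_add, mul_assoc]
    abel

theorem norm_p_lt : ‖(p : ℚ_[p])‖ < 1 := Padic.norm_p_lt_one

theorem norm_p_pos : 0 < ‖(p : ℚ_[p])‖ :=
  norm_pos_iff.2 (Nat.cast_ne_zero.2 (Fact.out : p.Prime).ne_zero)

theorem norm_prime {l : ℕ} (hl : l.Prime) : ‖(p : ℚ_[p])‖ ^ 2 < ‖(l : ℚ_[p])‖ := by
  have h1 : ‖(p : ℚ_[p])‖ ^ 2 < ‖(p : ℚ_[p])‖ := by
    rw [sq]; exact mul_lt_of_lt_one_left norm_p_pos norm_p_lt
  by_cases h : p = l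
  · rw [← h]; exact h1
  · rw [Padic.norm_natCast_eq_one_iff.2 ((Nat.coprime_primes Fact.out hl).2 h)]
    exact h1.trans norm_p_lt

theorem r_lt : ‖(p : ℚ_[p])‖ ^ 2 < 1 := pow_lt_one₀ (norm_nonneg _) norm_p_lt two_ne_zero

/-- The congruence subgroup. -/
def Kc (S : Matrix κ κ ℚ_[p]) (A : (κ → ℚ_[p]) →ₗ[ℚ_[p]] (μ → ℚ_[p])) : Subgroup (Ort S) where
  carrier := {g | Sm A (‖(p : ℚ_[p])‖ ^ 2) (g.1.1 - 1)}
  one_mem' := fun v => by simp; positivity
  mul_mem' := by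
    intro g h hg hh
    have h1 : Sm A 1 g.1.1 := fun v => by rw [one_mul]; exact (Sm.iso hg r_lt v).le
    have h2 := (h1.mul hh zero_le_one).add (by rw [one_mul]; exact hg)
    rw [one_mul] at h2
    have h3 : (g * h).1.1 - 1 = g.1.1 * (h.1.1 - 1) + (g.1.1 - 1) := by
      rw [mul_sub, mul_one, sub_add_sub_cancel]; rfl
    change Sm A _ _
    rw [h3]; exact h2
  inv_mem' := by
    intro g hg v
    have h1 : g.1.1 *ᵥ ((g⁻¹).1.1 *ᵥ v) = v := by
      rw [mulVec_mulVec]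
      change (g.1.1 * (g.1⁻¹).1) *ᵥ v = v
      rw [Units.mul_inv, one_mulVec]
    have h2 := hg ((g⁻¹).1.1 *ᵥ v)
    rw [← Sm.iso hg r_lt ((g⁻¹).1.1 *ᵥ v), sub_mulVec, h1, one_mulVec, map_sub, norm_sub_rev,
      ← map_sub] at h2
    rw [sub_mulVec, one_mulVec]
    exact h2

theorem conj_mem {S : Matrix κ κ ℚ_[p]} {g h : Ort S} (h1 : Sm A 1 g.1.1) (h2 : Sm A 1 (g⁻¹).1.1)
    (hh : h ∈ Kc S A) : g * h * g⁻¹ ∈ Kc S A := by
  have h3 := (h1.mul hh zero_le_one).mul h2 (by positivity)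
  rw [one_mul, mul_one] at h3
  have h4 : (g * h * g⁻¹).1.1 - 1 = g.1.1 * (h.1.1 - 1) * (g⁻¹).1.1 := by
    rw [mul_sub, sub_mul, mul_one]
    congr 1
    exact (Units.mul_inv g.1).symm
  change Sm A _ _
  rw [h4]; exact h3

omit [DecidableEq κ] in
theorem norm_mulVec_le {ε : ℝ} (hε : 0 ≤ ε) (h : ∀ i j, ‖M i j‖ ≤ ε) (v : κ → ℚ_[p]) :
    ‖M *ᵥ v‖ ≤ ε * ‖v‖ := by
  refine (pi_norm_le_iff_of_nonneg (by positivity)).2 fun i => ?_
  refine IsUltrametricDist.norm_sum_le_of_forall_le_of_nonneg (by positivity) fun j _ => ?_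
  rw [norm_mul]
  exact mul_le_mul (h i j) (norm_le_pi_norm v j) (norm_nonneg _) hε

end Eich2Aux

open Eich2Aux in
theorem exists_congr_subgroup (S : Matrix κ κ ℚ_[p]) (A : (κ → ℚ_[p]) →ₗ[ℚ_[p]] (μ → ℚ_[p]))
    (hA : Function.Injective A) : ∃ K : Subgroup (Ort S), CO K ∧
      (∀ g ∈ K, IsOfFinOrder g → g = 1) ∧ ∀ g : Ort S, (∀ v, ‖A (g.1.1 *ᵥ v)‖ = ‖A v‖) →
        g ∈ Subgroup.normalizer (K : Set (Ort S)) := by
  obtain ⟨c, hc0, hc⟩ := A.exists_antilipschitzWith (LinearMap.ker_eq_bot.2 hA)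
  have hc1 : ∀ v, ‖v‖ ≤ c * ‖A v‖ := fun v => by simpa using hc.le_mul_dist v 0
  have hc0' : (0 : ℝ) < c := hc0
  obtain ⟨C, hC0, hC⟩ := (LinearMap.toContinuousLinearMap A).bound
  have hC1 : ∀ v, ‖A v‖ ≤ C * ‖v‖ := hC
  have hAc : Continuous A := A.continuous_of_finiteDimensional
  have hent : Continuous fun g : Ort S => g.1.1 :=
    Units.continuous_val.comp continuous_subtype_val
  have hbd : ∀ g ∈ Kc S A, ∀ i j, ‖g.1.1 i j‖ ≤ c * C := by
    intro g hg i j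
    have h1 : g.1.1 i j = (g.1.1 *ᵥ Pi.single j 1) i := by simp
    rw [h1]
    refine (norm_le_pi_norm _ i).trans ((hc1 _).trans ?_)
    rw [Sm.iso hg r_lt]
    refine mul_le_mul_of_nonneg_left ((hC1 _).trans ?_) hc0'.le
    rw [Pi.norm_single, norm_one, mul_one]
  refine ⟨Kc S A, ⟨?_, ?_⟩, ?_, ?_⟩
  · refine (isCompact_ort S (c * C)).of_isClosed_subset ?_
      fun g hg i j => ⟨hbd g hg i j, hbd _ (inv_mem hg) i j⟩
    change IsClosed {g : Ort S | ∀ v, ‖A ((g.1.1 - 1) *ᵥ v)‖ ≤ ‖(p : ℚ_[p])‖ ^ 2 * ‖A v‖}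
    rw [Set.ofPred_forall]
    refine isClosed_iInter fun v => isClosed_le ?_ continuous_const
    exact (hAc.comp ((hent.sub continuous_const).matrix_mulVec continuous_const)).norm
  · have hp := norm_p_pos (p := p)
    have hε : 0 < ‖(p : ℚ_[p])‖ ^ 2 / (C * c) := by positivity
    refine Subgroup.isOpen_of_mem_nhds _ (g := 1) (Filter.mem_of_superset
      (IsOpen.mem_nhds (s := {g : Ort S | ∀ i j,
        ‖(g.1.1 - 1) i j‖ < ‖(p : ℚ_[p])‖ ^ 2 / (C * c)}) ?_ ?_) ?_)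
    · simp only [Set.ofPred_forall]
      refine isOpen_iInter_of_finite fun i => isOpen_iInter_of_finite fun j =>
        isOpen_lt ?_ continuous_const
      exact ((hent.sub continuous_const).matrix_elem i j).norm
    · intro i j
      simpa using hε
    · intro g hg v
      refine (hC1 _).trans ((mul_le_mul_of_nonneg_left
        ((norm_mulVec_le hε.le (fun i j => (hg i j).le) v).trans
          (mul_le_mul_of_nonneg_left (hc1 v) hε.le)) hC0.le).trans (le_of_eq ?_))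
      field_simp
  · intro g hg hfin
    by_contra hne
    obtain ⟨l, hl, hdvd⟩ := Nat.exists_prime_and_dvd (mt orderOf_eq_one_iff.1 hne)
    have ho : orderOf (g ^ (orderOf g / l)) = l :=
      orderOf_pow_orderOf_div hfin.orderOf_pos.ne' hdvd
    set h := g ^ (orderOf g / l) with hh
    have hK : h ∈ Kc S A := pow_mem hg _
    obtain ⟨Z, hZ, e⟩ := pow_expand hK (by positivity) r_lt.le l
    have h1 : h.1.1 ^ l = 1 := by
      have : h ^ l = 1 := by rw [← ho]; exact pow_orderOf_eq_one h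
      rw [← Units.val_pow_eq_pow_val, ← Subgroup.coe_pow, this]; rfl
    have h2 : h.1.1 - 1 = 0 := by
      refine Matrix.ext_of_mulVec_single fun j => ?_
      rw [zero_mulVec]
      apply hA
      rw [map_zero, ← norm_le_zero_iff]
      have h3 := hZ ((h.1.1 - 1) *ᵥ Pi.single j 1)
      have h4 : Z * (h.1.1 - 1) = -((l : ℚ_[p]) • (h.1.1 - 1)) := by
        rw [h1, add_assoc, left_eq_add] at e
        exact eq_neg_of_add_eq_zero_right e
      rw [mulVec_mulVec, h4, neg_mulVec, map_neg, norm_neg, smul_mulVec, map_smul,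
        norm_smul] at h3
      by_contra h5
      exact absurd (le_of_mul_le_mul_right h3 (not_le.1 h5)) (not_le.2 (norm_prime hl))
    have h3 : h = 1 := Subtype.ext (Units.ext (sub_eq_zero.1 h2))
    rw [h3, orderOf_one] at ho
    exact hl.one_lt.ne ho
  · intro g hg
    have h1 : Sm A 1 g.1.1 := fun v => by rw [one_mul, hg]
    have h2 : Sm A 1 (g⁻¹).1.1 := fun v => by
      rw [one_mul, ← hg, mulVec_mulVec]
      change ‖A ((g.1.1 * (g.1⁻¹).1) *ᵥ v)‖ ≤ _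
      rw [Units.mul_inv, one_mulVec]
    rw [Subgroup.mem_normalizer_iff]
    intro h
    refine ⟨conj_mem h1 h2, fun hh => ?_⟩
    have := conj_mem h2 (by rw [inv_inv]; exact h1) hh
    simpa [mul_assoc] using this

end Pool.Agent.P.MP_3c2f8c_gt
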