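import Pool.Agent.P.MP_3c2f8c_gt.Lo.Eich1
import Pool.Agent.P.MP_3c2f8c_gt.Lo.Eich2
import Pool.Agent.P.MP_3c2f8c_gt.NT.Compl

/-! LO-6: a good level at a split prime. -/

namespace Pool.Agent.P.MP_3c2f8c_gt

open Matrix

variable {p : ℕ} [Fact p.Prime] {κ : Type} [Fintype κ] [DecidableEq κ]

namespace Eich3Aux

open CDAux

theorem exists_unit {c : ℚ_[p]} (hc : c ≠ 0) :
    ∃ u t : ℚ_[p], ‖u‖ = 1 ∧ t ≠ 0 ∧ (c = t ^ 2 * u ∨ c = t ^ 2 * (u * p)) := by
  have hp : (p : ℚ_[p]) ≠ 0 := Nat.cast_ne_zero.2 (Fact.out : p.Prime).ne_zero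
  have hp' : (p : ℝ) ≠ 0 := Nat.cast_ne_zero.2 (Fact.out : p.Prime).ne_zero
  have h1 : ‖c * (p : ℚ_[p]) ^ (-c.valuation)‖ = 1 := by
    rw [norm_mul, Padic.norm_eq_zpow_neg_valuation hc, Padic.norm_p_zpow, ← zpow_add₀ hp',
      add_neg_cancel, zpow_zero]
  obtain ⟨j, hj | hj⟩ := Int.even_or_odd' c.valuation
  · refine ⟨_, (p : ℚ_[p]) ^ j, h1, zpow_ne_zero _ hp, Or.inl ?_⟩
    rw [hj, two_mul, _root_.zpow_neg, zpow_add₀ hp]
    have := zpow_ne_zero j hp
    field_simp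
  · refine ⟨_, (p : ℚ_[p]) ^ j, h1, zpow_ne_zero _ hp, Or.inr ?_⟩
    rw [hj, two_mul, _root_.zpow_neg, zpow_add_one₀ hp, zpow_add₀ hp]
    have := zpow_ne_zero j hp
    field_simp

section Plane

variable {E : Type} [Field E] [CharZero E] {S : Matrix κ κ E} {e f : κ → E}

omit [DecidableEq κ] in
theorem qf_ef (hS : Sᵀ = S) (he : qf S e e = 0) (hf : qf S f f = 0) (hef : qf S e f = 1) (c : E) :
    qf S (e + c • f) (e + c • f) = 2 * c := by
  classical
  simp only [qf_add_left, qf_add_right, qf_smul_left, qf_smul_right, he, hf, hef, qf_comm hS f e]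
  ring

theorem refl_ef (hS : Sᵀ = S) (he : qf S e e = 0) (hf : qf S f f = 0) (hef : qf S e f = 1) {c : E}
    (hc : c ≠ 0) (v : κ → E) : refl S (e + c • f) *ᵥ v
      = v - (qf S e v / c + qf S f v) • e - (qf S e v + c * qf S f v) • f := by
  rw [refl_mulVec, qf_ef hS he hf hef, qf_add_left, qf_smul_left]
  match_scalars <;> field_simp

theorem qf_e_refl (hS : Sᵀ = S) (he : qf S e e = 0) (hf : qf S f f = 0) (hef : qf S e f = 1)
    {c : E} (hc : c ≠ 0) (v : κ → E) : qf S e (refl S (e + c • f) *ᵥ v) = -(c * qf S f v) := by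
  rw [refl_ef hS he hf hef hc, qf_sub_right, qf_sub_right, qf_smul_right, qf_smul_right, he, hef]
  ring

theorem qf_f_refl (hS : Sᵀ = S) (he : qf S e e = 0) (hf : qf S f f = 0) (hef : qf S e f = 1)
    {c : E} (hc : c ≠ 0) (v : κ → E) : qf S f (refl S (e + c • f) *ᵥ v) = -(qf S e v / c) := by
  rw [refl_ef hS he hf hef hc, qf_sub_right, qf_sub_right, qf_smul_right, qf_smul_right, hf,
    qf_comm hS f e, hef]
  ring

theorem refl_three (hS : Sᵀ = S) (he : qf S e e = 0) (hf : qf S f f = 0) (hef : qf S e f = 1)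
    {u c : E} (hu : u ≠ 0) (hc : c ≠ 0) : refl S (e + (u * c) • f)
      = refl S (e + u • f) * (refl S (e + (1 : E) • f) * refl S (e + c • f)) := by
  refine ext_mulVec fun v => ?_
  rw [← mulVec_mulVec, ← mulVec_mulVec, refl_ef hS he hf hef hu, qf_e_refl hS he hf hef one_ne_zero,
    qf_f_refl hS he hf hef one_ne_zero, refl_ef hS he hf hef one_ne_zero, qf_e_refl hS he hf hef hc,
    qf_f_refl hS he hf hef hc, refl_ef hS he hf hef hc, refl_ef hS he hf hef (mul_ne_zero hu hc)]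
  match_scalars <;> field_simp <;> ring

/-- the coordinates adapted to the frame -/
def crd (S : Matrix κ κ E) (e f x : κ → E) : (κ → E) →ₗ[E] (Unit ⊕ Unit ⊕ Unit ⊕ κ → E) where
  toFun v := Sum.elim (fun _ => qf S e v) (Sum.elim (fun _ => qf S f v)
    (Sum.elim (fun _ => qf S x v) (v - qf S f v • e - qf S e v • f - (qf S x v / qf S x x) • x)))
  map_add' v w := by
    funext i
    rcases i with _ | _ | _ | i <;> simp [qf_add_right]
    ring
  map_smul' c v := by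
    funext i
    rcases i with _ | _ | _ | i <;> simp [qf_smul_right]
    ring

theorem crd_inj (S : Matrix κ κ E) (e f x : κ → E) : Function.Injective (crd S e f x) := by
  refine (injective_iff_map_eq_zero _).2 fun v h => ?_
  have h1 : qf S e v = 0 := congrFun h (.inl ())
  have h2 : qf S f v = 0 := congrFun h (.inr (.inl ()))
  have h3 : qf S x v = 0 := congrFun h (.inr (.inr (.inl ())))
  have h4 : v - qf S f v • e - qf S e v • f - (qf S x v / qf S x x) • x = 0 :=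
    funext fun i => congrFun h (.inr (.inr (.inr i)))
  simpa [h1, h2, h3] using h4

end Plane

omit [DecidableEq κ] in
theorem norm_eq_of {μ : Type} [Fintype μ] (A : (κ → ℚ_[p]) →ₗ[ℚ_[p]] (μ → ℚ_[p]))
    {T : Matrix κ κ ℚ_[p]} [DecidableEq κ] (hT : T * T = 1)
    (h : ∀ v i, ∃ j, ‖A (T *ᵥ v) i‖ = ‖A v j‖) (v : κ → ℚ_[p]) : ‖A (T *ᵥ v)‖ = ‖A v‖ := by
  have key : ∀ v, ‖A (T *ᵥ v)‖ ≤ ‖A v‖ := fun v =>
    (pi_norm_le_iff_of_nonneg (norm_nonneg _)).2 fun i => by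
      obtain ⟨j, hj⟩ := h v i
      rw [hj]
      exact norm_le_pi_norm _ j
  refine le_antisymm (key v) ?_
  have h1 := key (T *ᵥ v)
  rwa [mulVec_mulVec, hT, one_mulVec] at h1

end Eich3Aux

open CDAux Eich3Aux in
theorem exists_level {S : Matrix κ κ ℚ_[p]} (hS : Sᵀ = S) (hu : IsUnit S)
    (hκ : 6 ≤ Fintype.card κ) : ∃ K : Subgroup (Ort S), GoodLev K := by
  have hp : (p : ℚ_[p]) ≠ 0 := Nat.cast_ne_zero.2 (Fact.out : p.Prime).ne_zero
  obtain ⟨L, -⟩ := exists_padicLF p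
  obtain ⟨e, f, he, hf, hef, hw⟩ := exists_frame L hS hu hκ
  obtain ⟨x, hex, hfx, hx⟩ := hw (2 * p)
  have hx0 : qf S x x ≠ 0 := by rw [hx]; exact mul_ne_zero two_ne_zero hp
  obtain ⟨K, hK1, hK2, hK3⟩ := exists_congr_subgroup S (crd S e f x) (crd_inj S e f x)
  refine ⟨K, hK1, ?_, hK2⟩
  haveI := fiRes_normal (G := Ort S)
  obtain ⟨M, hM⟩ : ∃ M : Subgroup (Ort S),
    M = fiRes (Ort S) ⊔ Subgroup.normalizer (K : Set (Ort S)) := ⟨_, rfl⟩
  have hM1 : fiRes (Ort S) ≤ M := hM ▸ le_sup_left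
  have hM2 : Subgroup.normalizer (K : Set (Ort S)) ≤ M := hM ▸ le_sup_right
  let P : ℚ_[p] → Prop := fun c => ∀ y, qf S y y = c → ∀ h : Ort S, h.1.1 = refl S y → h ∈ M
  have move : ∀ (a h h' : Ort S) (y : κ → ℚ_[p]), h.1.1 = refl S y →
      h'.1.1 = refl S (a.1.1 *ᵥ y) → a * h = h' * a := fun a h h' y h1 h2 =>
    Subtype.ext (Units.ext (by
      change a.1.1 * h.1.1 = h'.1.1 * a.1.1
      rw [h1, h2, conj_refl]))
  have hP : ∀ y, qf S y y ≠ 0 → ∀ h ∈ M, h.1.1 = refl S y → P (qf S y y) := by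
    intro y hy h h1 h2 y' hy' h' h3
    obtain ⟨g, hg, h4⟩ := exists_fiRes_mulVec hS he hf hef hw hy
    obtain ⟨g', hg', h5⟩ := exists_fiRes_mulVec hS he hf hef hw (hy' ▸ hy : qf S y' y' ≠ 0)
    obtain ⟨r, hr⟩ := exists_refl hS (v := g.1.1 *ᵥ y) (by rwa [qf_ort])
    have h6 := move g h r y h2 hr
    have h7 := move g' h' r y' h3 (by rw [h5, hy', ← h4, hr])
    have h8 : r ∈ M := (M.mul_mem_cancel_right (hM1 hg)).1 (h6 ▸ M.mul_mem (hM1 hg) h1)
    exact (M.mul_mem_cancel_left (hM1 hg')).1 (h7 ▸ M.mul_mem h8 (hM1 hg'))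
  have hsc : ∀ c t, t ≠ 0 → P c → P (t ^ 2 * c) := by
    intro c t ht h y hy r hr
    refine h (t⁻¹ • y) ?_ r (by rw [refl_smul S y (inv_ne_zero ht), hr])
    rw [qf_smul_left, qf_smul_right, hy]
    field_simp
  have h1 : ∀ u : ℚ_[p], ‖u‖ = 1 → P (2 * u) := by
    intro u hu1
    have hu0 : u ≠ 0 := by
      rintro rfl
      simp at hu1
    have hq : qf S (e + u • f) (e + u • f) ≠ 0 := by
      rw [qf_ef hS he hf hef]; exact mul_ne_zero two_ne_zero hu0
    obtain ⟨r, hr⟩ := exists_refl hS hq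
    rw [← qf_ef hS he hf hef]
    refine hP _ hq r (hM2 (hK3 r ?_)) hr
    rw [hr]
    have hxr : ∀ v, qf S x (refl S (e + u • f) *ᵥ v) = qf S x v := fun v => by
      rw [refl_ef hS he hf hef hu0, qf_sub_right, qf_sub_right, qf_smul_right, qf_smul_right,
        qf_comm hS x e, qf_comm hS x f, hex, hfx]
      ring
    refine norm_eq_of _ (refl_mul_self hq) fun v i => ?_
    rcases i with _ | _ | _ | i
    · refine ⟨.inr (.inl ()), ?_⟩
      change ‖qf S e (refl S (e + u • f) *ᵥ v)‖ = ‖qf S f v‖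
      rw [qf_e_refl hS he hf hef hu0, norm_neg, norm_mul, hu1, one_mul]
    · refine ⟨.inl (), ?_⟩
      change ‖qf S f (refl S (e + u • f) *ᵥ v)‖ = ‖qf S e v‖
      rw [qf_f_refl hS he hf hef hu0, norm_neg, norm_div, hu1, div_one]
    · exact ⟨.inr (.inr (.inl ())), congrArg norm (hxr v)⟩
    · refine ⟨.inr (.inr (.inr i)), congrArg norm (congrFun (?_ :
        refl S (e + u • f) *ᵥ v - qf S f (refl S (e + u • f) *ᵥ v) • e
          - qf S e (refl S (e + u • f) *ᵥ v) • f - (qf S x (refl S (e + u • f) *ᵥ v) / qf S x x) • x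
        = v - qf S f v • e - qf S e v • f - (qf S x v / qf S x x) • x) i)⟩
      rw [qf_e_refl hS he hf hef hu0, qf_f_refl hS he hf hef hu0, hxr, refl_ef hS he hf hef hu0]
      module
  have h2 : P (2 * p) := by
    obtain ⟨r, hr⟩ := exists_refl hS hx0
    rw [← hx]
    refine hP _ hx0 r (hM2 (hK3 r ?_)) hr
    rw [hr]
    have e1 : ∀ v, qf S e (refl S x *ᵥ v) = qf S e v := fun v => by
      rw [refl_mulVec, qf_sub_right, qf_smul_right, hex, mul_zero, sub_zero]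
    have e2 : ∀ v, qf S f (refl S x *ᵥ v) = qf S f v := fun v => by
      rw [refl_mulVec, qf_sub_right, qf_smul_right, hfx, mul_zero, sub_zero]
    have e3 : ∀ v, qf S x (refl S x *ᵥ v) = -qf S x v := fun v => by
      rw [refl_mulVec, qf_sub_right, qf_smul_right, div_mul_cancel₀ _ hx0]
      ring
    refine norm_eq_of _ (refl_mul_self hx0) fun v i => ⟨i, ?_⟩
    rcases i with _ | _ | _ | i
    · exact congrArg norm (e1 v)
    · exact congrArg norm (e2 v)
    · exact (congrArg norm (e3 v)).trans (norm_neg _)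
    · refine congrArg norm (congrFun (?_ :
        refl S x *ᵥ v - qf S f (refl S x *ᵥ v) • e - qf S e (refl S x *ᵥ v) • f
          - (qf S x (refl S x *ᵥ v) / qf S x x) • x
        = v - qf S f v • e - qf S e v • f - (qf S x v / qf S x x) • x) i)
      rw [e1, e2, e3, refl_mulVec]
      match_scalars <;> ring
  have h3 : ∀ u : ℚ_[p], ‖u‖ = 1 → P (2 * (u * p)) := by
    intro u hu1
    have hu0 : u ≠ 0 := by
      rintro rfl
      simp at hu1
    have hq : ∀ c : ℚ_[p], c ≠ 0 → qf S (e + c • f) (e + c • f) ≠ 0 := fun c hc => by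
      rw [qf_ef hS he hf hef]; exact mul_ne_zero two_ne_zero hc
    obtain ⟨r₁, hr₁⟩ := exists_refl hS (hq u hu0)
    obtain ⟨r₂, hr₂⟩ := exists_refl hS (hq 1 one_ne_zero)
    obtain ⟨r₃, hr₃⟩ := exists_refl hS (hq p hp)
    rw [← qf_ef hS he hf hef]
    refine hP _ (hq _ (mul_ne_zero hu0 hp)) (r₁ * (r₂ * r₃))
      (M.mul_mem (h1 u hu1 _ (qf_ef hS he hf hef _) _ hr₁)
        (M.mul_mem (h1 1 norm_one _ (qf_ef hS he hf hef _) _ hr₂)
          (h2 _ (qf_ef hS he hf hef _) _ hr₃))) ?_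
    rw [refl_three hS he hf hef hu0 hp, ← hr₁, ← hr₂, ← hr₃]
    rfl
  have h4 : ⊤ ≤ M := by
    rw [← refl_generate hS hu, Subgroup.closure_le]
    rintro r ⟨y, hy, hr⟩
    obtain ⟨u, t, hu1, ht, h | h⟩ := exists_unit (div_ne_zero hy two_ne_zero)
    · exact hsc _ t ht (h1 u hu1) y (by linear_combination 2 * h) r hr
    · exact hsc _ t ht (h3 u hu1) y (by linear_combination 2 * h) r hr
  intro g
  have h5 : g ∈ (M : Set (Ort S)) := h4 (Subgroup.mem_top g)
  rw [hM, Subgroup.normal_mul] at h5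
  obtain ⟨a, ha, b, hb, rfl⟩ := h5
  exact ⟨a, ha, by rwa [inv_mul_cancel_left]⟩

theorem exists_level_un {a b : ℤ} [NeZero a] [NeZero b] (hs : IsNm (a : ℚ_[p]) (b : ℚ_[p]))
    {H : Matrix κ κ (Q a b ℚ_[p])} (hH : Hᴴ = -H) (hu : IsUnit H) (hκ : 3 ≤ Fintype.card κ) :
    ∃ K : Subgroup (Un H), GoodLev K := by
  obtain ⟨S, e, h1, h2, -⟩ := exists_morita_top hs hH hu
  obtain ⟨K, hK⟩ := exists_level h1 h2 (by rw [Fintype.card_prod, Fintype.card_fin]; omega)
  exact ⟨_, hK.comap e⟩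

end Pool.Agent.P.MP_3c2f8c_gt
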