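import Pool.Agent.P.MP_3c2f8c_gt.Lo.HDefs

/-! LO-16: a line in general position. -/

namespace Pool.Agent.P.MP_3c2f8c_gt

namespace Hk7Aux

open Polynomial

variable {N : ℕ}

/-- The sign of an index. -/
def sg (s : Fin 2) : ℤ := 1 - 2 * (s.1 : ℤ)

theorem sg_rev (s : Fin 2) : sg s.rev = -sg s := by revert s; decide

theorem sg_ne (s : Fin 2) : sg s ≠ 0 := by revert s; decide

theorem sg_inj {s t : Fin 2} (h : sg s = sg t) : s = t := by revert s t; decide

theorem sg_cases (s : Fin 2) : sg s = 1 ∨ sg s = -1 := by revert s; decide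

theorem sg_neg {s t : Fin 2} (h : sg s = -sg t) : s = t.rev := by revert s t; decide

/-- The root attached to a pair of indices. -/
def ρ (i j : Ix N) (c : Fin N) : ℤ :=
  (if i.1 = c then sg i.2 else 0) - if j.1 = c then sg j.2 else 0

theorem ρ_fst {i j : Ix N} (h : i ≠ j) : ρ i j i.1 ≠ 0 := by
  rw [ρ, if_pos rfl]
  split_ifs with e
  · exact sub_ne_zero.2 fun e' => h (Prod.ext e.symm (sg_inj e'))
  · rw [sub_zero]
    exact sg_ne _

theorem ρ_snd {i j : Ix N} (h : i ≠ j) : ρ i j j.1 ≠ 0 := by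
  rw [ρ, if_pos rfl]
  split_ifs with e
  · exact sub_ne_zero.2 fun e' => h (Prod.ext e (sg_inj e'))
  · rw [zero_sub]
    exact neg_ne_zero.2 (sg_ne _)

theorem ρ_supp {i j : Ix N} {c : Fin N} (h : ρ i j c ≠ 0) : i.1 = c ∨ j.1 = c := by
  by_contra hc
  rw [not_or] at hc
  exact h (by rw [ρ, if_neg hc.1, if_neg hc.2, sub_zero])

theorem comb {i j i' j' : Ix N} (h : i ≠ j) (h' : i' ≠ j') {L L' : ℤ} (hL : L ≠ 0) (hL' : L' ≠ 0)
    (e : ∀ c, L' * ρ i j c = L * ρ i' j' c) :
    (i' = i ∧ j' = j) ∨ (i' = j ∧ j' = i) ∨ (i' = bar i ∧ j' = bar j) ∨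
      (i' = bar j ∧ j' = bar i) := by
  have e1 : ∀ c, ρ i j c ≠ 0 → i'.1 = c ∨ j'.1 = c := fun c hc => ρ_supp fun h0 => by
    have := e c
    rw [h0, mul_zero] at this
    exact mul_ne_zero hL' hc this
  have e2 : ∀ c, ρ i' j' c ≠ 0 → i.1 = c ∨ j.1 = c := fun c hc => ρ_supp fun h0 => by
    have := e c
    rw [h0, mul_zero] at this
    exact mul_ne_zero hL hc this.symm
  have a1 := e1 _ (ρ_fst h)
  have a2 := e1 _ (ρ_snd h)
  have a3 := e2 _ (ρ_fst h')
  have a4 := e2 _ (ρ_snd h')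
  have b1 := e i.1
  have b2 := e j.1
  obtain ⟨a, s⟩ := i
  obtain ⟨b, t⟩ := j
  obtain ⟨a', s'⟩ := i'
  obtain ⟨b', t'⟩ := j'
  simp only [bar, Prod.mk.injEq, ne_eq, ρ] at *
  by_cases hab : a = b
  · subst hab
    obtain rfl : a = a' := a3.elim id id
    obtain rfl : a = b' := a4.elim id id
    simp only [true_and] at *
    omega
  · have hba : ¬ b = a := fun e => hab e.symm
    have : (a' = a ∧ b' = b) ∨ (a' = b ∧ b' = a) := by
      rcases a1 with rfl | rfl
      · exact .inl ⟨rfl, a2.resolve_left hab⟩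
      · exact .inr ⟨a2.resolve_right hab, rfl⟩
    rcases this with ⟨rfl, rfl⟩ | ⟨rfl, rfl⟩
    · simp only [hab, hba, if_true, if_false, true_and, false_and, and_false, false_or,
        or_false] at b1 b2 ⊢
      have : (sg s' = sg s ∧ sg t' = sg t) ∨ (sg s' = -sg s ∧ sg t' = -sg t) := by
        rcases sg_cases s with c1 | c1 <;> rcases sg_cases t with c2 | c2 <;>
          rcases sg_cases s' with c3 | c3 <;> rcases sg_cases t' with c4 | c4 <;>
          rw [c1, c3] at b1 <;> rw [c2, c4] at b2 <;> omega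
      exact this.imp (fun c => ⟨sg_inj c.1, sg_inj c.2⟩) fun c => ⟨sg_neg c.1, sg_neg c.2⟩
    · simp only [hab, hba, if_true, if_false, true_and, false_and, and_false, false_or,
        or_false] at b1 b2 ⊢
      have : (sg s' = sg t ∧ sg t' = sg s) ∨ (sg s' = -sg t ∧ sg t' = -sg s) := by
        rcases sg_cases s with c1 | c1 <;> rcases sg_cases t with c2 | c2 <;>
          rcases sg_cases s' with c3 | c3 <;> rcases sg_cases t' with c4 | c4 <;>
          rw [c1, c4] at b1 <;> rw [c2, c3] at b2 <;> omega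
      exact this.imp (fun c => ⟨sg_inj c.1, sg_inj c.2⟩) fun c => ⟨sg_neg c.1, sg_neg c.2⟩

/-- The direction of the line. -/
def dir (i : Ix N) : ℤ := sg i.2 * ((i.1 : ℤ) + 1)

theorem dir_inj : Function.Injective (dir (N := N)) := by
  rintro ⟨a, s⟩ ⟨b, t⟩ e
  simp only [dir] at e
  rcases sg_cases s with c1 | c1 <;> rcases sg_cases t with c2 | c2 <;> rw [c1, c2] at e
  · exact Prod.ext (Fin.ext (by dsimp only; omega)) (sg_inj (c1.trans c2.symm))
  · omega
  · omega
  · exact Prod.ext (Fin.ext (by dsimp only; omega)) (sg_inj (c1.trans c2.symm))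

/-- The base point as a vector of polynomials. -/
noncomputable def Y (i : Ix N) : ℤ[X] := monomial (i.1 + 1) (sg i.2)

theorem coeff_Y (i j : Ix N) (k : ℤ) (c : Fin N) : (Y i - Y j - C k).coeff (c + 1) = ρ i j c := by
  simp only [Y, ρ, coeff_sub, coeff_monomial, coeff_C_succ, sub_zero, Nat.add_right_cancel_iff,
    Fin.val_inj]

theorem key {θ : ℝ} (hθ : Transcendental ℤ θ) (t : ℝ) {i j : Ix N} (h : i ≠ j)
    (hk : ∃ k : ℤ, pt dir (fun i => aeval θ (Y i)) t i - pt dir (fun i => aeval θ (Y i)) t j = k) :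
    Wall (pt dir (fun i : Ix N => aeval θ (Y i)) t) i j := by
  refine ⟨h, hk, fun i' j' h' hk' => ?_⟩
  obtain ⟨k, hk⟩ := hk
  obtain ⟨k', hk'⟩ := hk'
  refine comb h h' (sub_ne_zero.2 (dir_inj.ne h)) (sub_ne_zero.2 (dir_inj.ne h')) fun c => ?_
  have e : C (dir i' - dir j') * (Y i - Y j - C k) = C (dir i - dir j) * (Y i' - Y j' - C k') := by
    apply transcendental_iff_injective.1 hθ
    simp only [pt] at hk hk'
    simp only [map_mul, map_sub, aeval_C, eq_intCast, map_intCast]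
    linear_combination ((dir i' : ℝ) - dir j') * hk - ((dir i : ℝ) - dir j) * hk'
  have := congrArg (fun P => Polynomial.coeff P (c + 1)) e
  simpa only [coeff_C_mul, coeff_Y] using this

end Hk7Aux

open Hk7Aux in
theorem exists_line {N : ℕ} (hN : 0 < N) : ∃ (l : Ix N → ℤ) (y : Ix N → ℝ) (i₀ : Ix N),
    Function.Injective l ∧ (∀ i, l (bar i) = -l i) ∧ AntiW y ∧ Wall y i₀ (bar i₀) ∧
    ∀ t, Generic (pt l y t) ∨ ∃ i j, Wall (pt l y t) i j := by
  have hθ := transcendental_liouvilleNumber (m := 2) le_rfl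
  generalize liouvilleNumber (2 : ℕ) = θ at hθ
  have hd : ∀ i : Ix N, dir (bar i) = -dir i := fun i => by simp only [dir, bar, sg_rev, neg_mul]
  have hY : ∀ i : Ix N, Y (bar i) = -Y i := fun i => by simp only [Y, bar, sg_rev, map_neg]
  refine ⟨dir, pt dir (fun i => Polynomial.aeval θ (Y i)) (-θ), (⟨0, hN⟩, 0), dir_inj, hd,
    fun i => ?_, key hθ _ (fun e => absurd (congrArg Prod.snd e) (by simp [bar])) ⟨0, ?_⟩,
    fun t => ?_⟩
  · simp only [pt, hd, hY, map_neg, Int.cast_neg]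
    ring
  · simp only [pt, hd, hY, map_neg, Int.cast_neg]
    simp [Y, dir, sg, Polynomial.aeval_monomial]
  · have e : pt dir (pt dir (fun i : Ix N => Polynomial.aeval θ (Y i)) (-θ)) t
        = pt dir (fun i : Ix N => Polynomial.aeval θ (Y i)) (-θ + t) := by
      funext i
      simp only [pt]
      ring
    rw [e]
    refine or_iff_not_imp_left.2 fun hG => ?_
    simp only [Generic, not_forall, not_not] at hG
    obtain ⟨i, j, h, k, hk⟩ := hG
    exact ⟨i, j, key hθ _ h ⟨k, hk⟩⟩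

end Pool.Agent.P.MP_3c2f8c_gt
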