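import Pool.Agent.P.MP_3c2f8c_gt.Lo.Hk3
import Pool.Agent.P.MP_3c2f8c_gt.Lo.Hk5
import Pool.Agent.P.MP_3c2f8c_gt.Lo.Hk6
import Pool.Agent.P.MP_3c2f8c_gt.Lo.Hk7

/-! LO-17: the Hecke operator. -/

namespace Pool.Agent.P.MP_3c2f8c_gt

open Matrix

variable {p : ℕ} [Fact p.Prime] {N : ℕ}

namespace Hk8Aux

theorem pt_pt (l : Ix N → ℤ) (y : Ix N → ℝ) (t u : ℝ) : pt l (pt l y t) u = pt l y (t + u) := by
  funext i
  simp only [pt]
  ring

theorem generic_add_one {l : Ix N → ℤ} {y : Ix N → ℝ} {t : ℝ} (h : Generic (pt l y t)) :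
    Generic (pt l y (t + 1)) := fun i j hij k hk => h i j hij (k - (l i - l j)) (by
  simp only [pt] at hk ⊢
  push_cast
  linarith)

theorem interval (hp : p ≠ 2) {l : Ix N → ℤ} (hl : Function.Injective l)
    (hl' : ∀ i, l (bar i) = -l i) {y : Ix N → ℝ} (hy : AntiW y)
    (hw : ∀ t, Generic (pt l y t) ∨ ∃ i j, Wall (pt l y t) i j) {s : ℝ}
    (hs : Generic (pt l y s)) (n : ℕ) : ∀ t, s ≤ t → Generic (pt l y t) →
      {u | s ≤ u ∧ u ≤ t ∧ ¬ Generic (pt l y u)}.ncard = n →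
      Corr (Gx p (pt l y s)) (Gx p (pt l y t)) {g | InS l y s t 0 g.1.1} := by
  induction n using Nat.strong_induction_on with
  | _ n ih =>
  intro t hst ht hn
  have fin := finite_not_generic hl y s t
  rcases {u | s ≤ u ∧ u ≤ t ∧ ¬ Generic (pt l y u)}.eq_empty_or_nonempty with he | hne
  · rw [← Gx_pt_eq l y hst fun u h1 h2 => by
      by_contra h
      exact Set.eq_empty_iff_forall_notMem.1 he u ⟨h1, h2, h⟩]
    exact (corr_refl _).mono fun g hg =>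
      (inS_of_big hg.1 (big_of_generic l hs hg)).mono le_rfl hst
  obtain ⟨c, ⟨c1, c2, c3⟩, cmax⟩ := Set.exists_max_image _ id fin hne
  have c4 : s < c := lt_of_le_of_ne c1 fun h => c3 (h ▸ hs)
  have c5 : c < t := lt_of_le_of_ne c2 fun h => c3 (h ▸ ht)
  obtain ⟨i, j, hij⟩ := (hw c).resolve_left c3
  obtain ⟨ε₀, e0, e1⟩ := wall_step hp hl hl' (antiW_pt hl' hy c) hij
  obtain ⟨u, ⟨u1, u2⟩, u3⟩ := (Set.Ioo_infinite (show max s (max (c - ε₀) (c - (t - c))) < c by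
    simp only [max_lt_iff]
    exact ⟨c4, by linarith, by linarith⟩)).exists_notMem_finite fin
  simp only [max_lt_iff] at u1
  obtain ⟨u4, u5, u6⟩ := u1
  have u7 : Generic (pt l y u) := by
    by_contra h
    exact u3 ⟨u4.le, by linarith, h⟩
  obtain ⟨w, w1, w2, w3, w4, w5, -⟩ := e1 (c - u) (by linarith) (by linarith)
  have k1 := ih _ (hn ▸ Set.ncard_lt_ncard (s := {v | s ≤ v ∧ v ≤ u ∧ ¬ Generic (pt l y v)})
    ⟨fun v hv => ⟨hv.1, hv.2.1.trans (by linarith), hv.2.2⟩,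
      fun h => absurd (h ⟨c1, c2, c3⟩).2.1 (by linarith)⟩ fin) u u4.le u7 rfl
  have k2 := corr_wall w3 ((co_Gx _).relIndex_ne_zero (co_Gx _)) w1 w2
  rw [← w4, pt_pt, show c + -(c - u) = u by ring] at k2
  have k3 := k1.comp (𝒰 := {g : Osp N p | InS l y s t 0 g.1.1}) k2 fun g hg g' hg' =>
      (InS.mul hl hg (inS_of_big hg'.1.1 (w5 g' hg'.1 hg'.2)) u2).mono le_rfl c2
  rw [pt_pt, Gx_pt_eq l y (show c + (c - u) ≤ t by linarith) fun v h1 h2 => by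
    by_contra h
    have := cmax v ⟨by linarith, h2, h⟩
    simp only [id] at this
    linarith] at k3
  exact k3

end Hk8Aux

open Hk8Aux

theorem corr_interval (hp : p ≠ 2) {l : Ix N → ℤ} (hl : Function.Injective l)
    (hl' : ∀ i, l (bar i) = -l i) {y : Ix N → ℝ} (hy : AntiW y)
    (hw : ∀ t, Generic (pt l y t) ∨ ∃ i j, Wall (pt l y t) i j) {s t : ℝ} (hst : s ≤ t)
    (hs : Generic (pt l y s)) (ht : Generic (pt l y t)) :
    Corr (Gx p (pt l y s)) (Gx p (pt l y t)) {g | InS l y s t 0 g.1.1} :=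
  interval hp hl hl' hy hw hs _ t hst ht rfl

theorem hecke (hp : p ≠ 2) (hN : 0 < N) :
    ∃ (K : Subgroup (Osp N p)) (𝒮 : Subsemigroup (Osp N p)) (w : Osp N p), CO K ∧
      Corr K K (𝒮 : Set (Osp N p)) ∧ (∀ g ∈ 𝒮, RegP g.1.1.charpoly) ∧
      w ∈ Subgroup.normalizer (K : Set (Osp N p)) ∧ w.1.1.det = -1 := by
  obtain ⟨l, y, i₀, hl, hl', hy, hw0, hw⟩ := exists_line hN
  have hl0 : ∀ i, l i ≠ 0 := fun i h => bar_ne i (hl (by rw [hl', h, neg_zero]))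
  obtain ⟨ε₀, e0, e1⟩ := wall_step hp hl hl' hy hw0
  obtain ⟨δ, d0, d1, d2, d3⟩ : ∃ δ : ℝ, 0 < δ ∧ δ ≤ 1 ∧ δ ≤ ε₀ ∧
      ∀ u, 0 < u → u < δ → Generic (pt l y u) := by
    have fin : {u | 0 < u ∧ u ≤ 1 ∧ ¬ Generic (pt l y u)}.Finite :=
      (finite_not_generic hl y 0 1).subset fun u hu => ⟨hu.1.le, hu.2⟩
    obtain ⟨m, m1, m2⟩ := Set.exists_min_image _ id (fin.insert 1) (Set.insert_nonempty _ _)
    have m3 : m ≤ 1 := m2 1 (Set.mem_insert _ _)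
    have m4 : 0 < m := by
      rcases m1 with h | h
      · rw [h]; exact one_pos
      · exact h.1
    refine ⟨min m ε₀, lt_min m4 e0, (min_le_left _ _).trans m3, min_le_right _ _,
      fun u h1 h2 => ?_⟩
    by_contra h
    have a1 := h2.trans_le (min_le_left _ _)
    exact absurd (m2 u (Set.mem_insert_of_mem _ ⟨h1, by linarith, h⟩)) (not_le.2 a1)
  obtain ⟨w, -, -, -, w4, -, w6⟩ := e1 (δ / 4) (by linarith) (by linarith)
  obtain ⟨w7, w8⟩ := w6 rfl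
  obtain ⟨σ, s1, s2⟩ := exists_shift (p := p) hl'
  refine ⟨Gx p (pt l y (δ / 4)), ⟨{g | ∃ c, 0 < c ∧ InS l y (3 * δ / 4) (δ / 2) c g.1.1}, ?_⟩, w,
    co_Gx _, ?_, ?_, Subgroup.mem_normalizer_iff_map_conj_eq.2 (w4.symm.trans w7), w8⟩
  · rintro g h ⟨c, c1, c2⟩ ⟨c', -, c3⟩
    exact ⟨c + c', by omega, InS.mul hl c2 c3 (by linarith)⟩
  · have k1 := corr_interval hp hl hl' hy hw (show 3 * δ / 4 ≤ δ / 4 + 1 by linarith)
      (d3 _ (by linarith) (by linarith)) (generic_add_one (d3 _ (by linarith) (by linarith)))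
    rw [← Gx_pt_eq l y (show δ / 4 ≤ 3 * δ / 4 by linarith)
      fun u h1 h2 => d3 u (by linarith) (by linarith)] at k1
    have k2 := corr_shift (Gx p (pt l y (δ / 4))) σ
    rw [← s2] at k2
    refine k1.comp k2 fun g hg g' hg' => ⟨0 + 0 + 1, by omega, ?_⟩
    have a1 : g' * σ⁻¹ ∈ Gx p (pt l y (δ / 2 + 1)) := by
      rw [← Gx_pt_eq l y (show δ / 4 + 1 ≤ δ / 2 + 1 by linarith) fun u h1 h2 => by
        have := generic_add_one (d3 (u - 1) (by linarith) (by linarith))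
        rwa [sub_add_cancel] at this]
      exact hg'
    have a2 := inS_of_big a1.1
      (big_of_generic l (generic_add_one (d3 _ (by linarith) (by linarith))) a1)
    have a3 := (InS.mul hl hg a2 (by linarith)).mul_shift
    have a4 : g * g' = g * (g' * σ⁻¹) * σ := by group
    rw [a4, ← s1] at *
    exact a3
  · rintro g ⟨c, c1, c2⟩
    exact regP_of_inS hl hl0 (by linarith) c1 c2

theorem hecke_un (hp : p ≠ 2) (hN : 0 < N) {a b : ℤ} [NeZero a] [NeZero b]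
    {x : Fin N → Q a b ℚ_[p]} (hx : ∀ j, (x j).re = 0 ∧ sqp (x j) ≠ 0 ∧ IsSquare (sqp (x j)))
    {H : Matrix (Fin N) (Fin N) (Q a b ℚ_[p])} (hH : H = diagonal x) :
    ∃ (K : Subgroup (Un H)) (κ : Un H ⧸ K → Un H ⧸ K → ℕ) (w : Un H), CO K ∧ HK κ ∧
      (∀ (g : Un H) z z', κ (g • z) (g • z') = κ z z') ∧
      (∀ (m : ℕ) (γ : Un H) (z : Un H ⧸ K), Chain κ (m + 1) z (γ • z) → RegP (rchar γ.1.1)) ∧
      w ∈ Subgroup.normalizer (K : Set (Un H)) ∧ nrd w.1.1 = -1 := by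
  obtain ⟨K, 𝒮, w, h1, h2, h3, h4, h5⟩ := hecke (p := p) hp hN
  obtain ⟨x1, x2, x3⟩ := hx ⟨0, hN⟩
  obtain ⟨e, he⟩ := exists_morita_hyp (isNm_of_isSquare_sqp x1 (fun h => x2 (by
    rw [h]; simp [sqp])) x3) hx hH
  obtain ⟨κ, k1, k2, k3⟩ := Corr.exists_hecke (A := K.comap e.toMulEquiv.toMonoidHom)
    (𝒮 := 𝒮.comap e.toMulEquiv.toMonoidHom.toMulHom) (h2.comap e.toMulEquiv)
  refine ⟨_, κ, e.symm w, h1.comap e, k1, k2, fun m γ z h => ?_, ?_, ?_⟩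
  · obtain ⟨g, hg⟩ := k3 m γ z h
    have a1 := h3 _ hg
    have a2 : rchar (g⁻¹ * γ * g).1.1 = rchar γ.1.1 :=
      rchar_of_conj (u := g.1.1) g.1.isUnit (by
        have : g * (g⁻¹ * γ * g) = γ * g := by group
        exact congrArg (fun t : Un H => t.1.1) this)
    rw [← a2, ← (he _).2]
    exact a1
  · refine Subgroup.mem_normalizer_iff.2 fun h => ?_
    have := Subgroup.mem_normalizer_iff.1 h4 (e h)
    show e h ∈ K ↔ e (e.symm w * h * (e.symm w)⁻¹) ∈ K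
    rwa [map_mul, map_mul, map_inv, e.apply_symm_apply]
  · rw [← (he _).1, e.apply_symm_apply, h5]

end Pool.Agent.P.MP_3c2f8c_gt
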