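import Pool.Agent.P.MP_3c2f8c_gt.Qu.Defs
import Pool.Agent.P.MP_3c2f8c_gt.NT.Alg

/-! LO-1: reflections. -/

set_option linter.unusedSectionVars false

namespace Pool.Agent.P.MP_3c2f8c_gt

open Matrix

variable {E : Type} [Field E] [CharZero E] {κ : Type} [Fintype κ] [DecidableEq κ]

namespace CDAux

theorem qf_eq (S : Matrix κ κ E) (u v : κ → E) : qf S u v = (u ᵥ* S) ⬝ᵥ v := by
  rw [qf, dotProduct_mulVec]

theorem qf_comm {S : Matrix κ κ E} (hS : Sᵀ = S) (u v : κ → E) : qf S u v = qf S v u := by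
  rw [qf_eq, ← mulVec_transpose, hS, dotProduct_comm, qf]

theorem qf_add_left (S : Matrix κ κ E) (u v w : κ → E) :
    qf S (u + v) w = qf S u w + qf S v w := add_dotProduct _ _ _

theorem qf_sub_left (S : Matrix κ κ E) (u v w : κ → E) :
    qf S (u - v) w = qf S u w - qf S v w := sub_dotProduct _ _ _

theorem qf_neg_left (S : Matrix κ κ E) (u w : κ → E) : qf S (-u) w = -qf S u w :=
  neg_dotProduct _ _

theorem qf_smul_left (S : Matrix κ κ E) (c : E) (u w : κ → E) :
    qf S (c • u) w = c * qf S u w := smul_dotProduct _ _ _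

theorem qf_add_right (S : Matrix κ κ E) (u v w : κ → E) :
    qf S u (v + w) = qf S u v + qf S u w := by
  simp only [qf, mulVec_add, dotProduct_add]

theorem qf_sub_right (S : Matrix κ κ E) (u v w : κ → E) :
    qf S u (v - w) = qf S u v - qf S u w := by
  simp only [qf, mulVec_sub, dotProduct_sub]

theorem qf_neg_right (S : Matrix κ κ E) (u w : κ → E) : qf S u (-w) = -qf S u w := by
  simp only [qf, mulVec_neg, dotProduct_neg]

theorem qf_smul_right (S : Matrix κ κ E) (c : E) (u w : κ → E) :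
    qf S u (c • w) = c * qf S u w := by
  simp only [qf, mulVec_smul, dotProduct_smul, smul_eq_mul]

theorem qf_mulVec (S P : Matrix κ κ E) (u v : κ → E) :
    qf S (P *ᵥ u) (P *ᵥ v) = qf (Pᵀ * S * P) u v := by
  rw [qf, qf, ← mulVec_mulVec, ← mulVec_mulVec, dotProduct_mulVec u Pᵀ, vecMul_transpose]

theorem qf_ort {S : Matrix κ κ E} (g : Ort S) (u v : κ → E) :
    qf S (g.1.1 *ᵥ u) (g.1.1 *ᵥ v) = qf S u v := by
  have h : g.1.1ᵀ * S * g.1.1 = S := g.2
  rw [qf_mulVec, h]

theorem ext_mulVec {A B : Matrix κ κ E} (h : ∀ w, A *ᵥ w = B *ᵥ w) : A = B :=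
  Matrix.toLin'.injective (LinearMap.ext h)

theorem ext_qf {A B : Matrix κ κ E} (h : ∀ u v, qf A u v = qf B u v) : A = B := by
  ext i j
  simpa [qf] using h (Pi.single i 1) (Pi.single j 1)

end CDAux

open CDAux

theorem refl_mulVec (S : Matrix κ κ E) (v w : κ → E) :
    refl S v *ᵥ w = w - (2 * qf S v w / qf S v v) • v := by
  rw [refl, sub_mulVec, one_mulVec, smul_mulVec, vecMulVec_mulVec, op_smul_eq_smul, smul_smul,
    ← qf_eq, div_mul_eq_mul_div]

theorem refl_mul_self {S : Matrix κ κ E} {v : κ → E} (hv : qf S v v ≠ 0) :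
    refl S v * refl S v = 1 := by
  refine ext_mulVec fun w => ?_
  have e : 2 * (qf S v w - 2 * qf S v w / qf S v v * qf S v v) / qf S v v =
      -(2 * qf S v w / qf S v v) := by
    field_simp
    ring
  rw [← mulVec_mulVec, refl_mulVec S v w, refl_mulVec, qf_sub_right, qf_smul_right, e, neg_smul,
    sub_neg_eq_add, sub_add_cancel, one_mulVec]

theorem exists_refl {S : Matrix κ κ E} (hS : Sᵀ = S) {v : κ → E} (hv : qf S v v ≠ 0) :
    ∃ g : Ort S, g.1.1 = refl S v := by
  refine ⟨⟨⟨refl S v, refl S v, refl_mul_self hv, refl_mul_self hv⟩, ?_⟩, rfl⟩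
  change (refl S v)ᵀ * S * refl S v = S
  refine ext_qf fun x y => ?_
  rw [← qf_mulVec, refl_mulVec, refl_mulVec]
  simp only [qf_sub_left, qf_sub_right, qf_smul_left, qf_smul_right, qf_comm hS x v]
  field_simp
  ring

theorem det_refl {S : Matrix κ κ E} {v : κ → E} (hv : qf S v v ≠ 0) : (refl S v).det = -1 := by
  have e : refl S v = 1 + replicateCol Unit (-(2 / qf S v v) • v) * replicateRow Unit (v ᵥ* S) := by
    rw [← vecMulVec_eq, smul_vecMulVec, neg_smul, ← sub_eq_add_neg, refl]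
  rw [e, det_one_add_replicateCol_mul_replicateRow, dotProduct_smul, ← qf_eq, smul_eq_mul]
  field_simp
  ring

theorem refl_smul (S : Matrix κ κ E) (v : κ → E) {c : E} (hc : c ≠ 0) :
    refl S (c • v) = refl S v := by
  refine ext_mulVec fun w => ?_
  have e : 2 * (c * qf S v w) / (c * (c * qf S v v)) * c = 2 * qf S v w / qf S v v := by
    by_cases h : qf S v v = 0
    · simp [h]
    · field_simp
  rw [refl_mulVec, refl_mulVec, qf_smul_left, qf_smul_left, qf_smul_right, smul_smul, e]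

theorem conj_refl {S : Matrix κ κ E} (g : Ort S) (v : κ → E) :
    g.1.1 * refl S v = refl S (g.1.1 *ᵥ v) * g.1.1 := by
  refine ext_mulVec fun w => ?_
  rw [← mulVec_mulVec, ← mulVec_mulVec, refl_mulVec, refl_mulVec, qf_ort, qf_ort, mulVec_sub,
    mulVec_smul]

theorem det_ort {S : Matrix κ κ E} (hu : IsUnit S) (g : Ort S) :
    g.1.1.det = 1 ∨ g.1.1.det = -1 := by
  have h : g.1.1ᵀ * S * g.1.1 = S := g.2
  have h1 := congrArg det h
  have h0 : S.det ≠ 0 := ((isUnit_iff_isUnit_det S).1 hu).ne_zero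
  rw [det_mul, det_mul, det_transpose] at h1
  refine mul_self_eq_one_iff.1 (mul_right_cancel₀ h0 ?_)
  linear_combination h1

namespace CDAux

theorem refl_map {S : Matrix κ κ E} (hS : Sᵀ = S) {x y : κ → E} (hq : qf S x x = qf S y y)
    (h : qf S (x - y) (x - y) ≠ 0) : refl S (x - y) *ᵥ x = y := by
  have e : 2 * qf S (x - y) x = qf S (x - y) (x - y) := by
    simp only [qf_sub_left, qf_sub_right, qf_comm hS x y]
    linear_combination hq
  rw [refl_mulVec, e, div_self h, one_smul, sub_sub_cancel]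

theorem refl_fix {S : Matrix κ κ E} {v w : κ → E} (h : qf S v w = 0) : refl S v *ᵥ w = w := by
  rw [refl_mulVec, h, mul_zero, zero_div, zero_smul, sub_zero]

theorem refl_neg {S : Matrix κ κ E} {v : κ → E} (h : qf S v v ≠ 0) : refl S v *ᵥ (-v) = v := by
  rw [mulVec_neg, refl_mulVec, mul_div_assoc, div_self h, mul_one, two_smul]
  abel

/-- An anisotropic vector is moved to another one of the same length by reflections fixing the
common orthogonal. -/
theorem exists_move {S : Matrix κ κ E} (hS : Sᵀ = S) {x y : κ → E} (hq : qf S x x = qf S y y)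
    (hy : qf S y y ≠ 0) :
    ∃ h ∈ Subgroup.closure {h : Ort S | ∃ v, qf S v v ≠ 0 ∧ h.1.1 = refl S v},
      h.1.1 *ᵥ x = y ∧ ∀ w, qf S x w = 0 → qf S y w = 0 → h.1.1 *ᵥ w = w := by
  by_cases h : qf S (x - y) (x - y) = 0
  · have h' : qf S (x - -y) (x - -y) ≠ 0 := by
      intro h'
      simp only [qf_sub_left, qf_sub_right, qf_neg_left, qf_neg_right] at h h'
      refine hy (mul_left_cancel₀ (show (4 : E) ≠ 0 by norm_num) ?_)
      linear_combination h + h' - 2 * hq
    obtain ⟨a, ha⟩ := exists_refl hS hy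
    obtain ⟨b, hb⟩ := exists_refl hS h'
    have e : (a * b).1.1 = refl S y * refl S (x - -y) := by
      rw [← ha, ← hb]
      rfl
    refine ⟨a * b, mul_mem (Subgroup.subset_closure ⟨_, hy, ha⟩)
      (Subgroup.subset_closure ⟨_, h', hb⟩), ?_, fun w hx hw => ?_⟩
    · rw [e, ← mulVec_mulVec, refl_map hS (by rw [qf_neg_left, qf_neg_right, neg_neg, hq]) h',
        refl_neg hy]
    · have h0 : qf S (x - -y) w = 0 := by rw [qf_sub_left, qf_neg_left, hx, hw, neg_zero, sub_zero]
      rw [e, ← mulVec_mulVec, refl_fix h0, refl_fix hw]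
  · obtain ⟨a, ha⟩ := exists_refl hS h
    refine ⟨a, Subgroup.subset_closure ⟨_, h, ha⟩, ?_, fun w hx hw => ?_⟩
    · rw [ha, refl_map hS hq h]
    · rw [ha, refl_fix (by rw [qf_sub_left, hx, hw, sub_zero])]

theorem exists_aniso {S : Matrix κ κ E} (hS : Sᵀ = S) (hu : IsUnit S)
    (hκ : 5 ≤ Fintype.card κ) (u v : κ → E) :
    ∃ w, qf S w w ≠ 0 ∧ qf S u w = 0 ∧ qf S v w = 0 := by
  classical
  have hB : (Matrix.toBilin' S).Nondegenerate :=
    LinearMap.BilinForm.nondegenerate_toBilin'_iff_det_ne_zero.2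
      ((isUnit_iff_isUnit_det S).1 hu).ne_zero
  have hq : ∀ x y, Matrix.toBilin' S x y = qf S x y := fun x y => Matrix.toBilin'_apply' _ _ _
  set U : Submodule E (κ → E) := Submodule.span E (({u, v} : Finset (κ → E)) : Set (κ → E))
  have hU : Module.finrank E U ≤ 2 :=
    (finrank_span_finset_le_card (R := E) ({u, v} : Finset (κ → E))).trans Finset.card_le_two
  set W := (Matrix.toBilin' S).orthogonal U
  have hW : ∀ w ∈ W, qf S u w = 0 ∧ qf S v w = 0 := fun w hw =>
    ⟨(hq _ _).symm.trans (hw u (Submodule.subset_span (by simp))),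
      (hq _ _).symm.trans (hw v (Submodule.subset_span (by simp)))⟩
  by_contra hc
  have h0 : ∀ w ∈ W, qf S w w = 0 := fun w hw => by
    by_contra h
    exact hc ⟨w, h, hW w hw⟩
  have hle : W ≤ (Matrix.toBilin' S).orthogonal W := fun x hx y hy => by
    have h := h0 _ (add_mem hx hy)
    simp only [qf_add_left, qf_add_right, h0 x hx, h0 y hy, qf_comm hS x y] at h
    refine (hq _ _).trans (mul_left_cancel₀ (two_ne_zero' E) ?_)
    linear_combination h
  have h1 := Submodule.finrank_mono hle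
  have h2 : Module.finrank E W = _ := LinearMap.BilinForm.finrank_orthogonal hB U
  rw [LinearMap.BilinForm.finrank_orthogonal hB W] at h1
  rw [Module.finrank_fintype_fun_eq_card] at h1 h2
  omega

end CDAux

/-- Cartan-Dieudonné. -/
theorem refl_generate {S : Matrix κ κ E} (hS : Sᵀ = S) (hu : IsUnit S) :
    Subgroup.closure {h : Ort S | ∃ v, qf S v v ≠ 0 ∧ h.1.1 = refl S v} = ⊤ := by
  obtain ⟨P, d, hP, hd⟩ := exists_diag S hS
  have hdet : (diagonal d).det ≠ 0 := by
    have h1 := ((isUnit_iff_isUnit_det P).1 hP).ne_zero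
    have h2 := ((isUnit_iff_isUnit_det S).1 hu).ne_zero
    rw [← hd, det_mul, det_mul, det_transpose]
    exact mul_ne_zero (mul_ne_zero h1 h2) h1
  rw [det_diagonal, Finset.prod_ne_zero_iff] at hdet
  have he : ∀ j k, qf S (P *ᵥ Pi.single j 1) (P *ᵥ Pi.single k 1) = diagonal d j k := fun j k => by
    rw [qf_mulVec, hd, qf, single_one_dotProduct, mulVec_single_one]
    rfl
  have key : ∀ T : Finset κ, ∀ g : Ort S,
      (∀ k ∉ T, g.1.1 *ᵥ (P *ᵥ Pi.single k 1) = P *ᵥ Pi.single k 1) →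
      g ∈ Subgroup.closure {h : Ort S | ∃ v, qf S v v ≠ 0 ∧ h.1.1 = refl S v} := by
    intro T
    induction T using Finset.induction_on with
    | empty =>
      intro g hg
      have h1 : g.1.1 * P = 1 * P := by
        ext i k
        have := congrFun (hg k (Finset.notMem_empty k)) i
        rw [mulVec_mulVec] at this
        simpa using this
      have h2 : g = 1 := Subtype.ext (Units.ext (hP.mul_right_cancel h1))
      rw [h2]
      exact one_mem _
    | insert k T hk ih =>
      intro g hg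
      obtain ⟨h, hh, h1, h2⟩ := exists_move hS (qf_ort g (P *ᵥ Pi.single k 1) (P *ᵥ Pi.single k 1))
        (by rw [he, diagonal_apply_eq]; exact hdet k (Finset.mem_univ k))
      refine (Subgroup.mul_mem_cancel_left _ hh).1 (ih _ fun j hj => ?_)
      have e : (h * g).1.1 = h.1.1 * g.1.1 := rfl
      rw [e, ← mulVec_mulVec]
      by_cases hjk : j = k
      · rw [hjk, h1]
      · have hj' := hg j (by simp [hj, hjk])
        have h0 : qf S (P *ᵥ Pi.single k 1) (P *ᵥ Pi.single j 1) = 0 := by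
          rw [he, diagonal_apply_ne _ (Ne.symm hjk)]
        rw [hj']
        refine h2 _ ?_ h0
        rw [← hj', qf_ort, h0]
  exact eq_top_iff.2 fun g _ => key Finset.univ g fun k hk => absurd (Finset.mem_univ k) hk

theorem so_generate {S : Matrix κ κ E} (hS : Sᵀ = S) (hu : IsUnit S) (hκ : 5 ≤ Fintype.card κ)
    (g : Ort S) (hg : g.1.1.det = 1) :
    g ∈ Subgroup.closure {h : Ort S | ∃ u w, qf S u u ≠ 0 ∧ qf S w w ≠ 0 ∧ qf S u w = 0 ∧
      h.1.1 = refl S u * refl S w} := by
  set N := Subgroup.closure {h : Ort S | ∃ u w, qf S u u ≠ 0 ∧ qf S w w ≠ 0 ∧ qf S u w = 0 ∧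
      h.1.1 = refl S u * refl S w}
  set R : Set (Ort S) := {h : Ort S | ∃ v, qf S v v ≠ 0 ∧ h.1.1 = refl S v}
  have hsq : ∀ x ∈ R, x * x = 1 := by
    rintro x ⟨v, hv, hx⟩
    refine Subtype.ext (Units.ext ?_)
    change x.1.1 * x.1.1 = 1
    rw [hx, refl_mul_self hv]
  have hA : ∀ x ∈ R, ∀ y ∈ R, x * y ∈ N := by
    rintro x ⟨u, hu', hx⟩ y ⟨v, hv, hy⟩
    obtain ⟨w, hw, h1, h2⟩ := exists_aniso hS hu hκ u v
    obtain ⟨t, ht⟩ := exists_refl hS hw
    have e : x * y = (x * t) * (t * y) := by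
      rw [mul_assoc, ← mul_assoc t, hsq t ⟨w, hw, ht⟩, one_mul]
    rw [e]
    refine mul_mem (Subgroup.subset_closure ⟨u, w, hu', hw, h1, ?_⟩)
      (Subgroup.subset_closure ⟨w, v, hw, hv, (qf_comm hS _ _).trans h2, ?_⟩)
    · rw [← hx, ← ht]
      rfl
    · rw [← hy, ← ht]
      rfl
  have step : ∀ x ∈ R, ∀ y : Ort S,
      (y ∈ N ∧ y.1.1.det = 1 ∨ ∃ t ∈ R, t * y ∈ N ∧ y.1.1.det = -1) →
      (x * y ∈ N ∧ (x * y).1.1.det = 1 ∨ ∃ t ∈ R, t * (x * y) ∈ N ∧ (x * y).1.1.det = -1) := by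
    intro x hx y hy
    have hd : (x * y).1.1.det = -y.1.1.det := by
      obtain ⟨v, hv, hx⟩ := hx
      change (x.1.1 * y.1.1).det = _
      rw [det_mul, hx, det_refl hv, neg_one_mul]
    rcases hy with ⟨h1, h2⟩ | ⟨t, ht, h1, h2⟩
    · refine Or.inr ⟨x, hx, ?_, by rw [hd, h2]⟩
      rwa [← mul_assoc, hsq x hx, one_mul]
    · refine Or.inl ⟨?_, by rw [hd, h2, neg_neg]⟩
      have e : x * y = (x * t) * (t * y) := by
        rw [mul_assoc, ← mul_assoc t, hsq t ht, one_mul]
      rw [e]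
      exact mul_mem (hA x hx t ht) h1
  have hall : ∀ y ∈ Subgroup.closure R,
      y ∈ N ∧ y.1.1.det = 1 ∨ ∃ t ∈ R, t * y ∈ N ∧ y.1.1.det = -1 := by
    intro y hy
    induction hy using Subgroup.closure_induction_left with
    | one => exact Or.inl ⟨one_mem _, det_one⟩
    | mul_left x hx y _ ih => exact step x hx y ih
    | inv_mul_cancel x hx y _ ih =>
      rw [inv_eq_of_mul_eq_one_right (hsq x hx)]
      exact step x hx y ih
  rcases hall g (by rw [refl_generate hS hu]; trivial) with h | ⟨_, _, _, h⟩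
  · exact h.1
  · rw [hg] at h
    exact absurd (by linear_combination h) (two_ne_zero' E)

end Pool.Agent.P.MP_3c2f8c_gt
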