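import Pool.Agent.P.MP_3c2f8c_gt.Lo.Top
import Pool.Agent.P.MP_3c2f8c_gt.Lo.CD
import Pool.Agent.P.MP_3c2f8c_gt.NT.Local2

/-! LO-4: Eichler transformations. -/

namespace Pool.Agent.P.MP_3c2f8c_gt

open Matrix

variable {E : Type} [Field E] [CharZero E] {κ : Type} [Fintype κ] [DecidableEq κ]

namespace Eich1Aux

open CDAux

theorem exists_iso (L : LF E) {S : Matrix κ κ E} (hS : Sᵀ = S) (hκ : 6 ≤ Fintype.card κ)
    (x : κ → E) : ∃ u, u ≠ 0 ∧ qf S x u = 0 ∧ qf S u u = 0 := by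
  obtain ⟨i0, hi0⟩ : ∃ i0 : κ, ∀ j, (x ᵥ* S) i0 = 0 → (x ᵥ* S) j = 0 := by
    by_cases h : ∃ i, (x ᵥ* S) i ≠ 0
    · obtain ⟨i, hi⟩ := h
      exact ⟨i, fun j hj => absurd hj hi⟩
    · push Not at h
      obtain ⟨i⟩ : Nonempty κ := Fintype.card_pos_iff.1 (by omega)
      exact ⟨i, fun j _ => h j⟩
  obtain ⟨P, hP⟩ : ∃ P : Matrix κ {j // j ≠ i0} E, ∀ i j, P i j =
      (if i = j.1 then 1 else 0) - if i = i0 then (x ᵥ* S) j.1 / (x ᵥ* S) i0 else 0 :=
    ⟨Matrix.of _, fun _ _ => rfl⟩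
  obtain ⟨y, hy0, hy⟩ := L.isoM (ι := {j // j ≠ i0}) (by
    rw [Fintype.card_subtype_compl, Fintype.card_subtype_eq]; omega) (Pᵀ * S * P) (by
    rw [transpose_mul, transpose_mul, transpose_transpose, hS, Matrix.mul_assoc])
  refine ⟨P *ᵥ y, fun h => hy0 (funext fun j => ?_), ?_, ?_⟩
  · have := congrFun h j.1
    simpa [mulVec, dotProduct, hP, j.2, Subtype.val_inj] using this
  · have : (x ᵥ* S) ᵥ* P = 0 := by
      ext j
      generalize x ᵥ* S = l at hi0 hP
      simp only [vecMul, dotProduct, hP, mul_sub, mul_ite, mul_one, mul_zero,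
        Finset.sum_sub_distrib, Finset.sum_ite_eq', Finset.mem_univ, if_true, Pi.zero_apply]
      by_cases h : l i0 = 0
      · rw [h, hi0 _ h, zero_mul, sub_zero]
      · rw [mul_div_cancel₀ _ h, sub_self]
    rw [qf_eq, dotProduct_mulVec, this, zero_dotProduct]
  · rw [← hy, qf, ← mulVec_mulVec, ← mulVec_mulVec, dotProduct_mulVec y Pᵀ, vecMul_transpose]

omit [CharZero E] in
theorem exists_dual {S : Matrix κ κ E} (hu : IsUnit S) {e : κ → E} (he : e ≠ 0) :
    ∃ v, qf S e v = 1 := by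
  obtain ⟨i, hi⟩ := Function.ne_iff.1 he
  obtain ⟨T, hT⟩ := hu.exists_right_inv
  refine ⟨T *ᵥ Pi.single i (e i)⁻¹, ?_⟩
  rw [qf, mulVec_mulVec, hT, one_mulVec, dotProduct_single, mul_inv_cancel₀ hi]

theorem eich_mulVec (S : Matrix κ κ E) (e w v : κ → E) : eich S e w *ᵥ v =
    v + qf S e v • w - qf S w v • e - (qf S w w / 2 * qf S e v) • e := by
  simp only [eich, sub_mulVec, add_mulVec, one_mulVec, smul_mulVec, vecMulVec_mulVec,
    op_smul_eq_smul, smul_smul, ← qf_eq]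

theorem eich_mul {S : Matrix κ κ E} (hS : Sᵀ = S) {e w w' : κ → E} (he : qf S e e = 0)
    (hw : qf S e w = 0) (hw' : qf S e w' = 0) :
    eich S e w * eich S e w' = eich S e (w + w') := by
  refine ext_mulVec fun v => ?_
  rw [← mulVec_mulVec]
  simp only [eich_mulVec, qf_add_left, qf_add_right, qf_sub_right, qf_smul_right, he, hw', hw,
    qf_comm hS w e, qf_comm hS w' w]
  module

omit [CharZero E] in
theorem eich_zero (S : Matrix κ κ E) (e : κ → E) : eich S e 0 = 1 := by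
  simp [eich, qf]

theorem eich_qf {S : Matrix κ κ E} (hS : Sᵀ = S) {e w : κ → E} (he : qf S e e = 0)
    (hw : qf S e w = 0) (u v : κ → E) :
    qf S (eich S e w *ᵥ u) (eich S e w *ᵥ v) = qf S u v := by
  simp only [eich_mulVec, qf_add_left, qf_add_right, qf_sub_left, qf_sub_right, qf_smul_left,
    qf_smul_right, he, hw, qf_comm hS w e, qf_comm hS u e, qf_comm hS u w]
  ring

theorem exists_ort {S : Matrix κ κ E} (hS : Sᵀ = S) {e w : κ → E} (he : qf S e e = 0)
    (hw : qf S e w = 0) : ∃ g : Ort S, g.1.1 = eich S e w := by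
  have hw' : qf S e (-w) = 0 := by rw [qf_neg_right, hw, neg_zero]
  refine ⟨⟨⟨eich S e w, eich S e (-w), ?_, ?_⟩, ?_⟩, rfl⟩
  · rw [eich_mul hS he hw hw', add_neg_cancel, eich_zero]
  · rw [eich_mul hS he hw' hw, neg_add_cancel, eich_zero]
  · change (eich S e w)ᵀ * S * eich S e w = S
    exact ext_qf fun u v => by rw [← qf_mulVec, eich_qf hS he hw]

theorem eich_pow {S : Matrix κ κ E} (hS : Sᵀ = S) {e w : κ → E} (he : qf S e e = 0)
    (hw : qf S e w = 0) (k : ℕ) : eich S e w ^ k = eich S e ((k : E) • w) := by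
  induction k with
  | zero => rw [pow_zero, Nat.cast_zero, zero_smul, eich_zero]
  | succ k ih =>
    rw [pow_succ, ih, eich_mul hS he (by rw [qf_smul_right, hw, mul_zero]) hw, Nat.cast_succ,
      add_smul, one_smul]

end Eich1Aux

open CDAux Eich1Aux

theorem exists_frame (L : LF E) {S : Matrix κ κ E} (hS : Sᵀ = S) (hu : IsUnit S)
    (hκ : 6 ≤ Fintype.card κ) : ∃ e f : κ → E, qf S e e = 0 ∧ qf S f f = 0 ∧ qf S e f = 1 ∧
      ∀ c : E, ∃ w, qf S e w = 0 ∧ qf S f w = 0 ∧ qf S w w = c := by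
  obtain ⟨e, he0, -, he⟩ := exists_iso L hS hκ 0
  obtain ⟨f', hf'⟩ := exists_dual hu he0
  obtain ⟨f, hf, hef⟩ : ∃ f, qf S f f = 0 ∧ qf S e f = 1 := by
    refine ⟨f' - (qf S f' f' / 2) • e, ?_, ?_⟩
    · simp only [qf_sub_left, qf_sub_right, qf_smul_left, qf_smul_right, he, hf', qf_comm hS f' e]
      ring
    · simp only [qf_sub_right, qf_smul_right, he, hf', mul_zero, sub_zero]
  have hfe : qf S f e = 1 := by rw [qf_comm hS, hef]
  refine ⟨e, f, he, hf, hef, fun c => ?_⟩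
  obtain ⟨u, hu0, h1, h2⟩ := exists_iso L hS hκ (e + (c / 2) • f)
  rw [qf_add_left, qf_smul_left] at h1
  have h3 : qf S e u = -(c / 2 * qf S f u) := eq_neg_of_add_eq_zero_left h1
  by_cases ht : qf S f u = 0
  · obtain ⟨v, hv⟩ := exists_dual hu hu0
    rw [ht, mul_zero, neg_zero] at h3
    obtain ⟨w, a1, a2, a3⟩ : ∃ w, qf S e w = 0 ∧ qf S f w = 0 ∧ qf S u w = 1 := by
      refine ⟨v - qf S f v • e - qf S e v • f, ?_, ?_, ?_⟩ <;>
        simp only [qf_sub_right, qf_smul_right, he, hf, hef, hfe, hv, qf_comm hS u e,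
          qf_comm hS u f, h3, ht] <;> ring
    refine ⟨w + ((c - qf S w w) / 2) • u, ?_, ?_, ?_⟩ <;>
      simp only [qf_add_left, qf_add_right, qf_smul_left, qf_smul_right, a1, a2, a3, h2, h3, ht,
        qf_comm hS w u] <;> ring
  · refine ⟨(qf S f u)⁻¹ • u - (e - (c / 2) • f), ?_, ?_, ?_⟩ <;>
      simp only [qf_sub_left, qf_sub_right, qf_smul_left, qf_smul_right, he, hf, hef, hfe, h2, h3,
        qf_comm hS u e, qf_comm hS u f] <;> field_simp <;> ring

theorem exists_eich {S : Matrix κ κ E} (hS : Sᵀ = S) {e w : κ → E} (he : qf S e e = 0)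
    (hw : qf S e w = 0) : ∃ g ∈ fiRes (Ort S), g.1.1 = eich S e w := by
  obtain ⟨g, hg⟩ := exists_ort hS he hw
  refine ⟨g, mem_fiRes_of_root fun k hk => ?_, hg⟩
  have hw' : qf S e ((k : E)⁻¹ • w) = 0 := by rw [qf_smul_right, hw, mul_zero]
  obtain ⟨g', hg'⟩ := exists_ort hS he hw'
  refine ⟨g', Subtype.ext (Units.ext ?_)⟩
  rw [Subgroup.coe_pow, Units.val_pow_eq_pow_val, hg', hg, eich_pow hS he hw', smul_smul,
    mul_inv_cancel₀ (Nat.cast_ne_zero.2 hk.ne'), one_smul]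

/-- Eichler's criterion. -/
theorem exists_fiRes_mulVec {S : Matrix κ κ E} (hS : Sᵀ = S) {e f : κ → E} (he : qf S e e = 0)
    (hf : qf S f f = 0) (hef : qf S e f = 1)
    (hw : ∀ c : E, ∃ w, qf S e w = 0 ∧ qf S f w = 0 ∧ qf S w w = c) {y : κ → E}
    (hy : qf S y y ≠ 0) : ∃ g ∈ fiRes (Ort S), g.1.1 *ᵥ y = e + (qf S y y / 2) • f := by
  have hfe : qf S f e = 1 := by rw [qf_comm hS, hef]
  have main : ∀ y : κ → E, qf S e y ≠ 0 →
      ∃ g ∈ fiRes (Ort S), g.1.1 *ᵥ y = e + (qf S y y / 2) • f := by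
    intro y hβ
    obtain ⟨w, a1, a2, a3⟩ := hw (qf S y y - 2 * qf S e y)
    obtain ⟨w0, hw0⟩ : ∃ w0, w0 = y - qf S f y • e - qf S e y • f := ⟨_, rfl⟩
    have b1 : qf S e w0 = 0 := by
      simp only [hw0, qf_sub_right, qf_smul_right, he, hef]
      ring
    obtain ⟨g1, hg1, e1⟩ := exists_eich hS he (w := (qf S e y)⁻¹ • (w - w0)) (by
      rw [qf_smul_right, qf_sub_right, a1, b1, sub_zero, mul_zero])
    obtain ⟨g2, hg2, e2⟩ := exists_eich hS hf (w := -w) (by rw [qf_neg_right, a2, neg_zero])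
    obtain ⟨α, hα⟩ : ∃ α : E, g1.1.1 *ᵥ y = α • e + qf S e y • f + w := by
      refine ⟨qf S f y - qf S ((qf S e y)⁻¹ • (w - w0)) y -
        qf S ((qf S e y)⁻¹ • (w - w0)) ((qf S e y)⁻¹ • (w - w0)) / 2 * qf S e y, ?_⟩
      rw [e1, eich_mulVec, smul_smul, mul_inv_cancel₀ hβ, one_smul]
      have : y = w0 + qf S f y • e + qf S e y • f := by rw [hw0]; module
      linear_combination (norm := module) this
    have hq := qf_ort g1 y y
    simp only [hα, qf_add_left, qf_add_right, qf_smul_left, qf_smul_right, he, hf, hef, hfe, a1, a2,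
      a3, qf_comm hS w e, qf_comm hS w f] at hq
    have h1 : α = 1 := mul_left_cancel₀ hβ (by linear_combination (1 / 2 : E) * hq)
    refine ⟨g2 * g1, mul_mem hg2 hg1, ?_⟩
    rw [Subgroup.coe_mul, Units.val_mul, ← mulVec_mulVec, hα, h1, e2, eich_mulVec]
    simp only [qf_add_right, qf_smul_right, qf_neg_left, qf_neg_right, hf, hfe, a1, a2, a3,
      qf_comm hS w e, qf_comm hS w f]
    module
  by_cases hβ : qf S e y = 0
  · obtain ⟨w0, hw0⟩ : ∃ w0, w0 = y - qf S f y • e := ⟨_, rfl⟩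
    have b1 : qf S e w0 = 0 := by
      simp only [hw0, qf_sub_right, qf_smul_right, he, hβ]
      ring
    have b2 : qf S f w0 = 0 := by
      simp only [hw0, qf_sub_right, qf_smul_right, hfe]
      ring
    have b3 : qf S w0 y = qf S y y := by
      simp only [hw0, qf_sub_left, qf_smul_left, hβ]
      ring
    have b4 : qf S w0 w0 = qf S y y := by
      simp only [hw0, qf_sub_left, qf_sub_right, qf_smul_left, qf_smul_right, he, hβ,
        qf_comm hS y e]
      ring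
    obtain ⟨σ, h1, h2⟩ : ∃ σ : E, σ ≠ 0 ∧ 1 + σ * qf S f y / 2 ≠ 0 := by
      by_cases h : 1 + 1 * qf S f y / 2 = 0
      · refine ⟨-1, by norm_num, fun h' => ?_⟩
        exact two_ne_zero (α := E) (by linear_combination h + h')
      · exact ⟨1, one_ne_zero, h⟩
    obtain ⟨g0, hg0, e0⟩ := exists_eich hS hf (w := σ • w0) (by rw [qf_smul_right, b2, mul_zero])
    obtain ⟨g, hg, e1⟩ := main (g0.1.1 *ᵥ y) (by
      rw [e0, eich_mulVec]
      simp only [qf_add_right, qf_sub_right, qf_smul_left, qf_smul_right, hef, hβ, b1, b3, b4]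
      intro h
      exact mul_ne_zero (mul_ne_zero h1 hy) h2 (by linear_combination -h))
    refine ⟨g * g0, mul_mem hg hg0, ?_⟩
    rw [Subgroup.coe_mul, Units.val_mul, ← mulVec_mulVec, e1, qf_ort]
  · exact main y hβ

end Pool.Agent.P.MP_3c2f8c_gt
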