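import Pool.Agent.P.MP_3c2f8c_gt.Lo.Top

/-! LO-10: stabilisers of norms. -/

namespace Pool.Agent.P.MP_3c2f8c_gt

open Matrix

variable {p : ℕ} [Fact p.Prime] {N : ℕ}

theorem bar_bar (i : Ix N) : bar (bar i) = i := by simp [bar]

theorem bar_ne (i : Ix N) : bar i ≠ i := fun h =>
  (by decide : ∀ a : Fin 2, a.rev ≠ a) i.2 (congrArg Prod.snd h)

namespace Hk1Aux

theorem W_mul (M : Matrix (Ix N) (Ix N) ℚ_[p]) (i j : Ix N) :
    (hypW N ℚ_[p] * M) i j = M (bar i) j := by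
  simp [hypW, Matrix.mul_apply, bar]

theorem mul_W (M : Matrix (Ix N) (Ix N) ℚ_[p]) (i j : Ix N) :
    (M * hypW N ℚ_[p]) i j = M i (bar j) := by
  have h : ∀ k : Ix N, j = (k.1, k.2.rev) ↔ k = bar j := fun k =>
    ⟨fun h => by rw [h]; exact (bar_bar k).symm, fun h => by rw [h]; exact (bar_bar j).symm⟩
  simp [hypW, Matrix.mul_apply, h]

theorem exists_int {a : ℚ_[p]} (ha : a ≠ 0) : ∃ n : ℤ, ∀ t : ℝ,
    (‖a‖ ≤ (p : ℝ) ^ t ↔ n ≤ t) ∧ (‖a‖ < (p : ℝ) ^ t ↔ n < t) := by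
  have hp : (1 : ℝ) < p := by exact_mod_cast (Fact.out : p.Prime).one_lt
  refine ⟨-a.valuation, fun t => ?_⟩
  rw [Padic.norm_eq_zpow_neg_valuation ha, ← Real.rpow_intCast]
  exact ⟨Real.rpow_le_rpow_left_iff hp, Real.rpow_lt_rpow_left_iff hp⟩

theorem le_of_floor {a : ℚ_[p]} {s t : ℝ} (h : ⌊s⌋ ≤ ⌊t⌋) (ha : ‖a‖ ≤ (p : ℝ) ^ s) :
    ‖a‖ ≤ (p : ℝ) ^ t := by
  obtain rfl | h0 := eq_or_ne a 0
  · rw [norm_zero]
    positivity
  obtain ⟨n, hn⟩ := exists_int h0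
  exact (hn t).1.2 (Int.le_floor.1 ((Int.le_floor.2 ((hn s).1.1 ha)).trans h))

theorem cont (l : Ix N → ℤ) (y : Ix N → ℝ) (i j : Ix N) :
    Continuous fun u => pt l y u i - pt l y u j := by
  simp only [pt]
  fun_prop

theorem near (d c : ℝ) : ∀ᶠ ε in nhdsWithin (0 : ℝ) (Set.Ioi 0), ∀ a : ℚ_[p],
    ‖a‖ ≤ (p : ℝ) ^ (d + ε * c) ↔ ‖a‖ ≤ (p : ℝ) ^ d ∧ (c < 0 → ‖a‖ < (p : ℝ) ^ d) := by
  have hp : (0 : ℝ) < p := by exact_mod_cast (Fact.out : p.Prime).pos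
  have h0 : Filter.Tendsto (fun ε : ℝ => d + ε * c) (nhdsWithin 0 (Set.Ioi 0)) (nhds d) :=
    (Continuous.tendsto' (by fun_prop) 0 d (by simp)).mono_left nhdsWithin_le_nhds
  filter_upwards [h0.eventually (Ioo_mem_nhds (sub_lt_iff_lt_add.2 (Int.ceil_lt_add_one d))
    (Int.lt_floor_add_one d)), self_mem_nhdsWithin] with ε h1 (h2 : 0 < ε) a
  obtain rfl | ha := eq_or_ne a 0
  · simp only [norm_zero]
    exact iff_of_true (by positivity) ⟨by positivity, fun _ => by positivity⟩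
  obtain ⟨n, hn⟩ := exists_int ha
  rw [(hn _).1, (hn _).1, (hn _).2]
  refine ⟨fun h => ⟨Int.le_floor.1 (Int.lt_add_one_iff.1 ?_), fun hc => ?_⟩, fun h => ?_⟩
  · exact_mod_cast h.trans_lt h1.2
  · linarith [mul_neg_of_pos_of_neg h2 hc]
  · obtain hc | hc := lt_or_ge c 0
    · have h3 : (n : ℝ) + 1 ≤ ⌈d⌉ := by exact_mod_cast Int.lt_ceil.2 (h.2 hc)
      linarith [h1.1]
    · linarith [h.1, mul_nonneg h2.le hc]

end Hk1Aux

theorem osp_inv_apply (g : Osp N p) (i j : Ix N) : (g⁻¹).1.1 i j = g.1.1 (bar j) (bar i) := by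
  have h : g.1.1ᵀ * hypW N ℚ_[p] = hypW N ℚ_[p] * (g⁻¹).1.1 := by
    refine Eq.trans ?_ (congrArg (· * (g⁻¹).1.1) (show g.1.1ᵀ * hypW N ℚ_[p] * g.1.1 = _ from g.2))
    rw [Matrix.mul_assoc _ g.1.1, Subgroup.coe_inv, Units.mul_inv, Matrix.mul_one]
  have h1 := congrFun (congrFun h (bar i)) j
  rw [Hk1Aux.mul_W, Hk1Aux.W_mul, bar_bar] at h1
  exact h1.symm

theorem mem_Gx {x : Ix N → ℝ} (hx : AntiW x) (g : Osp N p) : g ∈ Gx p x ↔ Wb x g.1.1 :=
  ⟨fun h => h.1, fun h => ⟨h, fun i j => by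
    have h1 := h (bar j) (bar i)
    rwa [hx, hx, neg_sub_neg, ← osp_inv_apply] at h1⟩⟩

theorem co_Gx (x : Ix N → ℝ) : CO (Gx p x) := by
  have hp : (0 : ℝ) < p := by exact_mod_cast (Fact.out : p.Prime).pos
  have h1 : ∀ i j, Continuous fun g : Osp N p => g.1.1 i j := fun i j =>
    (Units.continuous_val.comp continuous_subtype_val).matrix_elem i j
  have h2 : ∀ {f : Osp N p → Matrix (Ix N) (Ix N) ℚ_[p]}, (∀ i j, Continuous fun g => f g i j) →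
      IsClopen {g | Wb x (f g)} := fun {f} hf => by
    simp only [Wb, Set.ofPred_forall, ← mem_closedBall_zero_iff]
    exact isClopen_iInter_of_finite fun i => isClopen_iInter_of_finite fun j =>
      (IsUltrametricDist.isClopen_closedBall _ (Real.rpow_pos_of_pos hp _).ne').preimage (hf i j)
  have h3 : IsClopen (Gx p x : Set (Osp N p)) :=
    (h2 h1).inter (h2 fun i j => (h1 i j).comp continuous_inv)
  obtain ⟨R, hR⟩ := Finite.bddAbove_range fun q : Ix N × Ix N => (p : ℝ) ^ (x q.1 - x q.2)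
  exact ⟨(isCompact_ort _ R).of_isClosed_subset h3.1 fun g hg i j =>
    ⟨(hg.1 i j).trans (hR ⟨(i, j), rfl⟩), (hg.2 i j).trans (hR ⟨(i, j), rfl⟩)⟩, h3.2⟩

theorem Gx_mono {x x' : Ix N → ℝ} (h : ∀ i j, ⌊x i - x j⌋ ≤ ⌊x' i - x' j⌋) :
    Gx p x ≤ Gx p x' := fun _ hg =>
  ⟨fun i j => Hk1Aux.le_of_floor (h i j) (hg.1 i j), fun i j => Hk1Aux.le_of_floor (h i j) (hg.2 i j)⟩

theorem antiW_pt {l : Ix N → ℤ} (hl : ∀ i, l (bar i) = -l i) {y : Ix N → ℝ} (hy : AntiW y)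
    (t : ℝ) : AntiW (pt l y t) := fun i => by
  simp only [pt, hl, hy i, Int.cast_neg]
  ring

/-- The stabiliser does not change along a segment of generic points. -/
theorem Gx_pt_eq (l : Ix N → ℤ) (y : Ix N → ℝ) {t t' : ℝ} (h : t ≤ t')
    (hg : ∀ u, t ≤ u → u ≤ t' → Generic (pt l y u)) : Gx p (pt l y t) = Gx p (pt l y t') := by
  have key : ∀ i j, ⌊pt l y t i - pt l y t j⌋ = ⌊pt l y t' i - pt l y t' j⌋ := fun i j => by
    by_cases hij : i = j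
    · simp [hij]
    have h1 : ∀ k : ℤ, (k : ℝ) ∉ Set.uIcc (pt l y t i - pt l y t j) (pt l y t' i - pt l y t' j) :=
      fun k hk => by
        obtain ⟨u, hu, h2⟩ := intermediate_value_uIcc (f := fun u => pt l y u i - pt l y u j)
          (Hk1Aux.cont l y i j).continuousOn hk
        rw [Set.uIcc_of_le h] at hu
        exact hg u hu.1 hu.2 i j hij k h2
    refine le_antisymm (not_lt.1 fun h2 => h1 _ (Set.mem_uIcc_of_ge (Int.floor_lt.1 h2).le
      (Int.floor_le _))) (not_lt.1 fun h2 => h1 _ (Set.mem_uIcc_of_le (Int.floor_lt.1 h2).le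
      (Int.floor_le _)))
  exact le_antisymm (Gx_mono fun i j => (key i j).le) (Gx_mono fun i j => (key i j).ge)

theorem finite_not_generic {l : Ix N → ℤ} (hl : Function.Injective l) (y : Ix N → ℝ) (t t' : ℝ) :
    {u | t ≤ u ∧ u ≤ t' ∧ ¬ Generic (pt l y u)}.Finite := by
  have key : ∀ q : {q : Ix N × Ix N // q.1 ≠ q.2}, ((fun u => pt l y u q.1.1 - pt l y u q.1.2) ⁻¹'
      (Int.cast '' (Int.cast ⁻¹' ((fun u => pt l y u q.1.1 - pt l y u q.1.2) ''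
        Set.Icc t t')))).Finite := fun q => by
    refine Set.Finite.preimage (fun u _ v _ h => ?_) (Set.Finite.image _ (isCompact_iff_finite.1
      (Int.isClosedEmbedding_coe_real.isCompact_preimage
        (isCompact_Icc.image (Hk1Aux.cont l y _ _)))))
    have h1 : (l q.1.1 - l q.1.2 : ℝ) ≠ 0 :=
      sub_ne_zero.2 (by exact_mod_cast fun h => q.2 (hl h))
    refine mul_right_cancel₀ h1 ?_
    simp only [pt] at h
    linarith
  refine (Set.finite_iUnion key).subset fun u hu => ?_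
  obtain ⟨h1, h2, h3⟩ := hu
  simp only [Generic, not_forall, not_not] at h3
  obtain ⟨i, j, hij, k, hk⟩ := h3
  exact Set.mem_iUnion.2 ⟨⟨(i, j), hij⟩, k, ⟨u, ⟨h1, h2⟩, hk⟩, hk.symm⟩

theorem exists_shift {l : Ix N → ℤ} (hl : ∀ i, l (bar i) = -l i) :
    ∃ s : Osp N p, s.1.1 = diagonal (fun i => (p : ℚ_[p]) ^ (-l i)) ∧ ∀ (y : Ix N → ℝ) (t : ℝ),
      Gx p (pt l y (t + 1)) = (Gx p (pt l y t)).map (MulAut.conj s).toMonoidHom := by
  have hp : (0 : ℝ) < p := by exact_mod_cast (Fact.out : p.Prime).pos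
  have hq : (p : ℚ_[p]) ≠ 0 := by exact_mod_cast (Fact.out : p.Prime).ne_zero
  let s : Osp N p := ⟨⟨diagonal fun i => (p : ℚ_[p]) ^ (-l i), diagonal fun i => (p : ℚ_[p]) ^ l i,
    by simp [diagonal_mul_diagonal, zpow_ne_zero _ hq],
    by simp [diagonal_mul_diagonal, zpow_ne_zero _ hq]⟩, by
      change _ᵀ * _ * _ = _
      ext i j
      simp only [diagonal_transpose, mul_diagonal, diagonal_mul, hypW, of_apply]
      split_ifs with h
      · rw [h, show (i.1, i.2.rev) = bar i from rfl, hl, mul_one, ← zpow_add₀ hq]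
        simp
      · simp⟩
  refine ⟨s, rfl, fun y t => ?_⟩
  have key : ∀ g : Osp N p, Wb (pt l y (t + 1)) g.1.1 ↔ Wb (pt l y t) (s⁻¹ * g * s).1.1 :=
    fun g => forall₂_congr fun i j => by
      have h1 : (s⁻¹ * g * s).1.1 = diagonal (fun i => (p : ℚ_[p]) ^ l i) * g.1.1 *
        diagonal fun i => (p : ℚ_[p]) ^ (-l i) := rfl
      rw [h1, mul_diagonal, diagonal_mul, norm_mul, norm_mul, Padic.norm_p_zpow, Padic.norm_p_zpow,
        ← Real.rpow_intCast, ← Real.rpow_intCast, mul_right_comm, ← Real.rpow_add hp,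
        ← le_inv_mul_iff₀ (Real.rpow_pos_of_pos hp _), ← Real.rpow_neg hp.le, ← Real.rpow_add hp]
      simp only [pt, Int.cast_neg]
      ring_nf
  ext g
  rw [Subgroup.mem_map_equiv, MulAut.conj_symm_apply]
  refine and_congr (key g) ((key g⁻¹).trans ?_)
  simp only [_root_.mul_inv_rev, inv_inv, mul_assoc]

/-- Just after and just before the point `y`. -/
theorem exists_mem_Gx_pt (l : Ix N → ℤ) (hl : ∀ i, l (bar i) = -l i) {y : Ix N → ℝ}
    (hy : AntiW y) : ∃ ε₀ : ℝ, 0 < ε₀ ∧ ∀ ε : ℝ, 0 < ε → ε < ε₀ → ∀ g : Osp N p,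
      (g ∈ Gx p (pt l y ε) ↔ g ∈ Gx p y ∧
        ∀ i j, l i < l j → ‖g.1.1 i j‖ < (p : ℝ) ^ (y i - y j)) ∧
      (g ∈ Gx p (pt l y (-ε)) ↔ g ∈ Gx p y ∧
        ∀ i j, l j < l i → ‖g.1.1 i j‖ < (p : ℝ) ^ (y i - y j)) := by
  obtain ⟨ε₀, h0, h⟩ := mem_nhdsGT_iff_exists_Ioo_subset.1 (Filter.eventually_all.2 fun i =>
    Filter.eventually_all.2 fun j => (Hk1Aux.near (p := p) (y i - y j) (l i - l j)).and
      (Hk1Aux.near (p := p) (y i - y j) (l j - l i)))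
  refine ⟨ε₀, h0, fun ε h1 h2 g => ?_⟩
  simp only [mem_Gx (antiW_pt hl hy _), mem_Gx hy, Wb, ← forall_and]
  refine ⟨forall₂_congr fun i j => ?_, forall₂_congr fun i j => ?_⟩
  · rw [← Int.cast_lt (R := ℝ), ← sub_neg, ← (h ⟨h1, h2⟩ i j).1]
    simp only [pt]
    ring_nf
  · rw [← Int.cast_lt (R := ℝ), ← sub_neg, ← (h ⟨h1, h2⟩ i j).2]
    simp only [pt]
    ring_nf

end Pool.Agent.P.MP_3c2f8c_gt
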