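import Pool.Agent.P.MP_3c2f8c_gt.Lo.Hk1

/-! LO-11: unit minors. -/

namespace Pool.Agent.P.MP_3c2f8c_gt

open Matrix

variable {p : ℕ} [Fact p.Prime] {N : ℕ}

namespace Hk2Aux

theorem p_pos : (0 : ℝ) < p := by exact_mod_cast (Fact.out : p.Prime).pos

theorem p_one_lt : (1 : ℝ) < p := by exact_mod_cast (Fact.out : p.Prime).one_lt

/-- A bound by a non-integral power of `p` is strict. -/
theorem lt_of_nonint {a : ℚ_[p]} {r : ℝ} (hr : ∀ k : ℤ, r ≠ k) (h : ‖a‖ ≤ (p : ℝ) ^ r) :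
    ‖a‖ < (p : ℝ) ^ r := by
  refine lt_of_le_of_ne h fun he => ?_
  by_cases ha : a = 0
  · rw [ha, norm_zero] at he
    exact (Real.rpow_pos_of_pos p_pos r).ne he
  · rw [Padic.norm_eq_zpow_neg_valuation ha, ← Real.rpow_intCast] at he
    have h1 : ((-a.valuation : ℤ) : ℝ) ≤ r :=
      (Real.rpow_le_rpow_left_iff p_one_lt).1 he.le
    have h2 : r ≤ ((-a.valuation : ℤ) : ℝ) :=
      (Real.rpow_le_rpow_left_iff p_one_lt).1 he.ge
    exact hr _ (le_antisymm h2 h1)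

theorem prod_perm {k : ℕ} (x : Fin k → ℝ) (σ : Equiv.Perm (Fin k)) :
    ∏ i, (p : ℝ) ^ (x (σ i) - x i) = 1 := by
  rw [← Real.rpow_sum_of_pos p_pos, Finset.sum_sub_distrib, Equiv.sum_comp σ x, sub_self,
    Real.rpow_zero]

theorem norm_term {k : ℕ} (A : Matrix (Fin k) (Fin k) ℚ_[p]) (σ : Equiv.Perm (Fin k)) :
    ‖Equiv.Perm.sign σ • ∏ i, A (σ i) i‖ = ∏ i, ‖A (σ i) i‖ := by
  rw [← norm_prod]
  rcases Int.units_eq_one_or (Equiv.Perm.sign σ) with h | h <;> simp [h]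

theorem det_le {k : ℕ} (x : Fin k → ℝ) {A : Matrix (Fin k) (Fin k) ℚ_[p]}
    (hA : ∀ a b, ‖A a b‖ ≤ (p : ℝ) ^ (x a - x b)) : ‖A.det‖ ≤ 1 := by
  rw [Matrix.det_apply]
  refine IsUltrametricDist.norm_sum_le_of_forall_le_of_nonneg zero_le_one fun σ _ => ?_
  rw [norm_term, ← prod_perm (p := p) x σ]
  exact Finset.prod_le_prod (fun i _ => norm_nonneg _) fun i _ => hA _ _

theorem norm_sum_lt {ι : Type} (s : Finset ι) (f : ι → ℚ_[p]) {c : ℝ} (hc : 0 < c)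
    (h : ∀ i ∈ s, ‖f i‖ < c) : ‖∑ i ∈ s, f i‖ < c := by
  classical
  induction s using Finset.induction_on with
  | empty => simpa using hc
  | insert a s ha ih =>
    rw [Finset.sum_insert ha]
    refine lt_of_le_of_lt (IsUltrametricDist.norm_add_le_max _ _) (max_lt ?_ ?_)
    · exact h a (Finset.mem_insert_self _ _)
    · exact ih fun i hi => h i (Finset.mem_insert_of_mem hi)

theorem norm_eq_one_of_lt {u v : ℚ_[p]} (hu : ‖u‖ = 1) (hv : ‖v‖ < 1) : ‖u + v‖ = 1 := by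
  rw [IsUltrametricDist.norm_add_eq_max_of_norm_ne_norm (by rw [hu]; exact hv.ne'), hu]
  exact max_eq_left hv.le

theorem det_eq_one {k : ℕ} (x : Fin k → ℝ) {A : Matrix (Fin k) (Fin k) ℚ_[p]}
    (hA : ∀ a b, ‖(A - 1) a b‖ < (p : ℝ) ^ (x a - x b)) : ‖A.det‖ = 1 := by
  have hd : ∀ a, ‖A a a‖ = 1 := fun a => by
    have h := hA a a
    rw [sub_self, Real.rpow_zero, Matrix.sub_apply, Matrix.one_apply_eq] at h
    have : A a a = 1 + (A a a - 1) := by ring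
    rw [this]
    exact norm_eq_one_of_lt norm_one h
  have ho : ∀ a b, a ≠ b → ‖A a b‖ < (p : ℝ) ^ (x a - x b) := fun a b hab => by
    have h := hA a b
    rwa [Matrix.sub_apply, Matrix.one_apply_ne hab, sub_zero] at h
  have hle : ∀ a b, ‖A a b‖ ≤ (p : ℝ) ^ (x a - x b) := fun a b => by
    by_cases hab : a = b
    · subst hab
      rw [hd, sub_self, Real.rpow_zero]
    · exact (ho a b hab).le
  rw [Matrix.det_apply, ← Finset.add_sum_erase _ _ (Finset.mem_univ (1 : Equiv.Perm (Fin k)))]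
  refine norm_eq_one_of_lt ?_ (norm_sum_lt _ _ one_pos fun σ hσ => ?_)
  · rw [norm_term]
    exact Finset.prod_eq_one fun i _ => hd i
  · have hne : σ ≠ 1 := (Finset.mem_erase.1 hσ).1
    obtain ⟨i, hi⟩ : ∃ i, σ i ≠ i := by
      by_contra hcon
      push Not at hcon
      exact hne (Equiv.ext hcon)
    rw [norm_term, ← prod_perm (p := p) x σ, ← Finset.mul_prod_erase _ _ (Finset.mem_univ i),
      ← Finset.mul_prod_erase _ _ (Finset.mem_univ i)]
    have hpos : 0 < ∏ j ∈ Finset.univ.erase i, (p : ℝ) ^ (x (σ j) - x j) :=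
      Finset.prod_pos fun j _ => Real.rpow_pos_of_pos p_pos _
    calc ‖A (σ i) i‖ * ∏ j ∈ Finset.univ.erase i, ‖A (σ j) j‖
        ≤ ‖A (σ i) i‖ * ∏ j ∈ Finset.univ.erase i, (p : ℝ) ^ (x (σ j) - x j) :=
          mul_le_mul_of_nonneg_left
            (Finset.prod_le_prod (fun j _ => norm_nonneg _) fun j _ => hle _ _) (norm_nonneg _)
      _ < _ := mul_lt_mul_of_pos_right (ho _ _ hi) hpos

/-- The core lemma. -/
theorem core {y : Ix N → ℝ} {g h : Matrix (Ix N) (Ix N) ℚ_[p]} (hgh : g * h = 1) (hg : Wb y g)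
    (hh : Wb y h) {k : ℕ} {τ : Fin k → Ix N} (hτ : Function.Injective τ)
    (hb : ∀ b, (∀ j, (∃ m : ℤ, y j - y (τ b) = m) → ∃ a, τ a = j) ∨
      (‖g (τ b) (τ b)‖ = 1 ∧ ∀ a, a ≠ b → ∀ m : ℤ, y (τ a) - y (τ b) ≠ m)) :
    ‖(g.submatrix τ τ).det‖ = 1 := by
  classical
  set F : Fin k → Prop := fun b => ∀ j, (∃ m : ℤ, y j - y (τ b) = m) → ∃ a, τ a = j with hF
  set B : Matrix (Fin k) (Fin k) ℚ_[p] := Matrix.of fun c b =>
    if F b then h (τ c) (τ b) else if c = b then (g (τ b) (τ b))⁻¹ else 0 with hB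
  have hA : ‖(g.submatrix τ τ).det‖ ≤ 1 := det_le (fun a => y (τ a)) fun a b => hg _ _
  have hBle : ‖B.det‖ ≤ 1 := by
    refine det_le (fun a => y (τ a)) fun c b => ?_
    rw [hB, Matrix.of_apply]
    split_ifs with h1 h2
    · exact hh _ _
    · subst h2
      rw [norm_inv, ((hb c).resolve_left h1).1, inv_one, sub_self, Real.rpow_zero]
    · rw [norm_zero]
      exact (Real.rpow_pos_of_pos p_pos _).le
  have hAB : ‖(g.submatrix τ τ * B).det‖ = 1 := by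
    refine det_eq_one (fun a => y (τ a)) fun a b => ?_
    by_cases hFb : F b
    · have e1 : (g.submatrix τ τ * B) a b = ∑ j ∈ Finset.univ.image τ, g (τ a) j * h j (τ b) := by
        rw [Finset.sum_image fun c _ d _ hcd => hτ hcd, Matrix.mul_apply]
        refine Finset.sum_congr rfl fun c _ => ?_
        rw [hB, Matrix.of_apply, if_pos hFb, Matrix.submatrix_apply]
      have e2 : (1 : Matrix (Fin k) (Fin k) ℚ_[p]) a b = ∑ j, g (τ a) j * h j (τ b) := by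
        rw [← Matrix.mul_apply, hgh, Matrix.one_apply, Matrix.one_apply]
        simp only [hτ.eq_iff]
      rw [Matrix.sub_apply, e1, e2, ← Finset.sum_add_sum_compl (Finset.univ.image τ),
        sub_add_cancel_left, norm_neg]
      refine norm_sum_lt _ _ (Real.rpow_pos_of_pos p_pos _) fun j hj => ?_
      have hj' : ∀ m : ℤ, y j - y (τ b) ≠ m := fun m hm => by
        obtain ⟨c, hc⟩ := hFb j ⟨m, hm⟩
        exact (Finset.mem_compl.1 hj) (Finset.mem_image.2 ⟨c, Finset.mem_univ _, hc⟩)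
      rw [norm_mul, show y (τ a) - y (τ b) = (y (τ a) - y j) + (y j - y (τ b)) by ring,
        Real.rpow_add p_pos]
      exact mul_lt_mul_of_le_of_lt_of_nonneg_of_pos (hg _ _) (lt_of_nonint hj' (hh _ _))
        (norm_nonneg _) (Real.rpow_pos_of_pos p_pos _)
    · obtain ⟨hu, hs⟩ := (hb b).resolve_left hFb
      have hne : g (τ b) (τ b) ≠ 0 := fun h0 => by
        rw [h0, norm_zero] at hu
        exact zero_ne_one hu
      have e1 : (g.submatrix τ τ * B) a b = g (τ a) (τ b) * (g (τ b) (τ b))⁻¹ := by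
        rw [Matrix.mul_apply, Finset.sum_eq_single b]
        · rw [hB, Matrix.of_apply, if_neg hFb, if_pos rfl, Matrix.submatrix_apply]
        · intro c _ hc
          rw [hB, Matrix.of_apply, if_neg hFb, if_neg hc, mul_zero]
        · intro hc
          exact absurd (Finset.mem_univ b) hc
      rw [Matrix.sub_apply, e1]
      by_cases hab : a = b
      · subst hab
        rw [mul_inv_cancel₀ hne, Matrix.one_apply_eq, sub_self, norm_zero]
        exact Real.rpow_pos_of_pos p_pos _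
      · rw [Matrix.one_apply_ne hab, sub_zero, norm_mul, norm_inv, hu, inv_one, mul_one]
        exact lt_of_nonint (hs a hab) (hg _ _)
  rw [Matrix.det_mul, norm_mul] at hAB
  refine le_antisymm hA ?_
  calc (1 : ℝ) = ‖(g.submatrix τ τ).det‖ * ‖B.det‖ := hAB.symm
    _ ≤ ‖(g.submatrix τ τ).det‖ * 1 := mul_le_mul_of_nonneg_left hBle (norm_nonneg _)
    _ = _ := mul_one _

theorem mul_inv_mat (g : Osp N p) : g.1.1 * (g⁻¹).1.1 = 1 := by
  have h : (g * g⁻¹).1.1 = 1 := by rw [mul_inv_cancel]; rfl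
  simpa only [Subgroup.coe_mul, Units.val_mul] using h

end Hk2Aux

open Hk2Aux

theorem big_of_generic (l : Ix N → ℤ) {y : Ix N → ℝ} (hy : Generic y) {g : Osp N p}
    (hg : g ∈ Gx p y) : Big l g.1.1 := by
  intro k τ hτ
  refine core (mul_inv_mat g) hg.1 hg.2 hτ.1 fun b => Or.inl fun j ⟨m, hm⟩ => ⟨b, ?_⟩
  by_contra hne
  exact hy j (τ b) (fun h => hne h.symm) m hm

theorem big_of_wall {l : Ix N → ℤ} (hl : ∀ i, l (bar i) = -l i) {y : Ix N → ℝ} {i₀ j₀ : Ix N}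
    (hw : Wall y i₀ j₀) (hlt : l j₀ < l i₀) {g : Osp N p} (hg : g ∈ Gx p y)
    (h1 : ‖g.1.1 i₀ i₀‖ = 1) (h2 : ‖g.1.1 (bar j₀) (bar j₀)‖ = 1) : Big l g.1.1 := by
  intro k τ hτ
  refine core (mul_inv_mat g) hg.1 hg.2 hτ.1 fun b => ?_
  by_cases hF : ∀ j, (∃ m : ℤ, y j - y (τ b) = m) → ∃ a, τ a = j
  · exact Or.inl hF
  right
  push Not at hF
  obtain ⟨j, ⟨m, hm⟩, hj⟩ := hF
  have hbar : ∀ i i' : Ix N, bar i = bar i' → i = i' := fun i i' h => by
    rw [← bar_bar i, h, bar_bar]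
  have hW : ∀ a, a ≠ b → ∀ n : ℤ, y (τ a) - y (τ b) = n →
      (τ a = i₀ ∧ τ b = j₀) ∨ (τ a = j₀ ∧ τ b = i₀) ∨ (τ a = bar i₀ ∧ τ b = bar j₀) ∨
        (τ a = bar j₀ ∧ τ b = bar i₀) := fun a hab n hn =>
    hw.2.2 _ _ (fun h => hab (hτ.1 h)) ⟨n, hn⟩
  rcases hw.2.2 j (τ b) (fun h => hj b h.symm) ⟨m, hm⟩ with
    ⟨e1, e2⟩ | ⟨e1, e2⟩ | ⟨e1, e2⟩ | ⟨e1, e2⟩
  · obtain ⟨a, ha⟩ := hτ.2 b j (by rw [e1, e2]; exact hlt)
    exact absurd ha (hj a)
  · refine ⟨by rw [e2]; exact h1, fun a hab n hn => ?_⟩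
    rcases hW a hab n hn with ⟨f1, f2⟩ | ⟨f1, f2⟩ | ⟨f1, f2⟩ | ⟨f1, f2⟩
    · exact hw.1 (e2.symm.trans f2)
    · exact hj a (f1.trans e1.symm)
    · refine hj a ?_
      rw [f1, e1, ← e2, f2, bar_bar]
    · exact bar_ne i₀ (f2.symm.trans e2)
  · refine ⟨by rw [e2]; exact h2, fun a hab n hn => ?_⟩
    rcases hW a hab n hn with ⟨f1, f2⟩ | ⟨f1, f2⟩ | ⟨f1, f2⟩ | ⟨f1, f2⟩
    · exact bar_ne j₀ (e2.symm.trans f2)
    · refine hj a ?_
      rw [f1, e1, ← f2, e2, bar_bar]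
    · exact hj a (f1.trans e1.symm)
    · exact hw.1 (hbar _ _ (f2.symm.trans e2))
  · obtain ⟨a, ha⟩ := hτ.2 b j (by rw [e1, e2, hl, hl]; omega)
    exact absurd ha (hj a)

end Pool.Agent.P.MP_3c2f8c_gt
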