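import Pool.Agent.P.MP_3c2f8c_gt.Lo.Hk2

/-! LO-12: crossing a wall. -/

namespace Pool.Agent.P.MP_3c2f8c_gt

open Matrix

variable {p : ℕ} [Fact p.Prime] {N : ℕ}

namespace Hk3Aux

theorem ppos : (0 : ℝ) < p := by exact_mod_cast (Fact.out : p.Prime).pos

theorem rp (t : ℝ) : (0 : ℝ) < (p : ℝ) ^ t := Real.rpow_pos_of_pos ppos t

/-- The normalised size of an entry. -/
noncomputable def nu (y : Ix N → ℝ) (g : Matrix (Ix N) (Ix N) ℚ_[p]) (i j : Ix N) : ℝ :=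
  ‖g i j‖ / (p : ℝ) ^ (y i - y j)

variable {y : Ix N → ℝ} {g h : Matrix (Ix N) (Ix N) ℚ_[p]}

theorem nu_nonneg (i j : Ix N) : 0 ≤ nu y g i j := div_nonneg (norm_nonneg _) (rp _).le

theorem nu_le {i j : Ix N} : nu y g i j ≤ 1 ↔ ‖g i j‖ ≤ (p : ℝ) ^ (y i - y j) :=
  div_le_one (rp _)

theorem nu_lt {i j : Ix N} : nu y g i j < 1 ↔ ‖g i j‖ < (p : ℝ) ^ (y i - y j) :=
  div_lt_one (rp _)

theorem nu_self (i : Ix N) : nu y g i i = ‖g i i‖ := by simp [nu]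

theorem nu_lt_of (hg : Wb y g) {i j : Ix N} (hij : ¬ ∃ k : ℤ, y i - y j = k) :
    nu y g i j < 1 := by
  refine nu_lt.2 (lt_of_le_of_ne (hg i j) fun e => hij ?_)
  have h0 : g i j ≠ 0 := fun h0 => by
    rw [h0, norm_zero] at e
    exact (rp _).ne e
  rw [Padic.norm_eq_zpow_neg_valuation h0, ← Real.rpow_intCast] at e
  have h1 : (1 : ℝ) < p := by exact_mod_cast (Fact.out : p.Prime).one_lt
  exact ⟨_, (Real.rpow_right_inj ppos h1.ne').1 e.symm⟩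

theorem norm_mul_eq (i k j : Ix N) :
    ‖g i k * h k j‖ = nu y g i k * nu y h k j * (p : ℝ) ^ (y i - y j) := by
  rw [norm_mul, nu, nu, show y i - y j = (y i - y k) + (y k - y j) by ring, Real.rpow_add ppos]
  field_simp [(rp (p := p) (y i - y k)).ne', (rp (p := p) (y k - y j)).ne']

theorem norm_mul_lt {i k j : Ix N} :
    ‖g i k * h k j‖ < (p : ℝ) ^ (y i - y j) ↔ nu y g i k * nu y h k j < 1 := by
  rw [norm_mul_eq (y := y), mul_lt_iff_lt_one_left (rp _)]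

theorem lt_left {a b : ℝ} (ha : a < 1) (h0 : 0 ≤ b) (hb : b ≤ 1) : a * b < 1 := by
  rcases le_total a 0 with h | h <;> nlinarith

theorem lt_right {a b : ℝ} (h0 : 0 ≤ a) (ha : a ≤ 1) (hb : b < 1) : a * b < 1 := by
  rw [mul_comm]
  exact lt_left hb h0 ha

theorem add_lt {u v : ℚ_[p]} {r : ℝ} (hu : ‖u‖ < r) (hv : ‖v‖ < r) : ‖u + v‖ < r :=
  (IsUltrametricDist.norm_add_le_max u v).trans_lt (max_lt hu hv)

theorem sub_lt {u v : ℚ_[p]} {r : ℝ} (hu : ‖u‖ < r) (hv : ‖v‖ < r) : ‖u - v‖ < r := by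
  rw [sub_eq_add_neg]
  exact add_lt hu (by rwa [norm_neg])

theorem sum_lt {s : Finset (Ix N)} {f : Ix N → ℚ_[p]} {r : ℝ} (hr : 0 < r)
    (hf : ∀ k ∈ s, ‖f k‖ < r) : ‖∑ k ∈ s, f k‖ < r :=
  Finset.sum_induction f (fun u => ‖u‖ < r) (fun _ _ => add_lt) (by simpa using hr) hf

/-- The class of `i` is contained in `{i, j}`. -/
def Cl (y : Ix N → ℝ) (i j : Ix N) : Prop :=
  i ≠ j ∧ ∀ k, (∃ m : ℤ, y i - y k = m) → k = i ∨ k = j

theorem block (hg : Wb y g) (hh : Wb y h) {i j : Ix N} (hc : Cl y i j) (c : Ix N) :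
    ‖(g * h) i c - (g i i * h i c + g i j * h j c)‖ < (p : ℝ) ^ (y i - y c) := by
  rw [Matrix.mul_apply, ← Finset.add_sum_erase _ _ (Finset.mem_univ i),
    ← Finset.add_sum_erase _ _ (Finset.mem_erase.2 ⟨hc.1.symm, Finset.mem_univ j⟩), ← add_assoc,
    add_sub_cancel_left]
  refine sum_lt (rp _) fun k hk => norm_mul_lt.2 (lt_left (nu_lt_of hg fun e => ?_)
    (nu_nonneg _ _) (nu_le.2 (hh k c)))
  simp only [Finset.mem_erase] at hk
  exact (hc.2 k e).elim hk.2.1 hk.1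

theorem diag_rel (hg : Wb y g) (hh : Wb y h) (e : g * h = 1) {i j : Ix N} (hc : Cl y i j)
    (h1 : nu y g i i * nu y h i i < 1) (h2 : nu y g i j * nu y h j i < 1) : False := by
  have b := block hg hh hc i
  have b1 := add_lt b (add_lt (norm_mul_lt.2 h1) (norm_mul_lt.2 h2))
  simp [e] at b1

theorem off_rel (hg : Wb y g) (hh : Wb y h) (e : g * h = 1) {i j : Ix N} (hc : Cl y i j) :
    ‖g i i * h i j + g i j * h j j‖ < (p : ℝ) ^ (y i - y j) := by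
  have b := block hg hh hc j
  rwa [e, one_apply_ne hc.1, zero_sub, norm_neg] at b

theorem dual (hg : Wb y g) (hh : Wb y h) (e : g * h = 1) {i j : Ix N} (hc : Cl y i j)
    (h1 : nu y g i i < 1) : nu y h j j < 1 := by
  have a1 : ¬ nu y g i j < 1 := fun a => diag_rel hg hh e hc
    (lt_left h1 (nu_nonneg _ _) (nu_le.2 (hh _ _))) (lt_left a (nu_nonneg _ _) (nu_le.2 (hh _ _)))
  have a2 := sub_lt (off_rel hg hh e hc)
    (norm_mul_lt.2 (lt_left h1 (nu_nonneg _ _) (nu_le.2 (hh i j))))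
  rw [add_sub_cancel_left, norm_mul_lt, le_antisymm (nu_le.2 (hg i j)) (not_lt.1 a1),
    one_mul] at a2
  exact a2

theorem thin (hp : p ≠ 2) {g : Osp N p} (hg : g ∈ Gx p y) {i : Ix N} (hc : Cl y i (bar i))
    (h1 : nu y g.1.1 (bar i) i < 1) : nu y g.1.1 i (bar i) < 1 := by
  have e : g.1.1 * (g⁻¹).1.1 = 1 := by
    rw [← Units.val_mul, ← Subgroup.coe_mul, mul_inv_cancel]
    rfl
  have a1 : ¬ nu y g.1.1 i i < 1 := fun a => diag_rel hg.1 hg.2 e hc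
    (lt_left a (nu_nonneg _ _) (nu_le.2 (hg.2 _ _)))
    (lt_right (nu_nonneg _ _) (nu_le.2 (hg.1 _ _)) (by
      rwa [nu, osp_inv_apply, bar_bar]))
  have a2 := off_rel hg.1 hg.2 e hc
  have h2 : ‖(2 : ℚ_[p])‖ = 1 := by
    have : ‖((2 : ℕ) : ℚ_[p])‖ = 1 := Padic.norm_natCast_eq_one_iff.2
      ((Nat.coprime_primes Fact.out Nat.prime_two).2 hp)
    simpa using this
  rw [osp_inv_apply, osp_inv_apply, bar_bar, mul_comm (g.1.1 i (bar i)), ← two_mul, norm_mul, h2,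
    one_mul, norm_mul_lt, le_antisymm (nu_le.2 (hg.1 i i)) (not_lt.1 a1), one_mul] at a2
  exact a2

theorem exists_w (hy : AntiW y) (σ : Equiv.Perm (Ix N)) (h1 : ∀ i, σ (σ i) = i)
    (h2 : ∀ i, σ (bar i) = bar (σ i)) (h3 : ∀ i, ∃ m : ℤ, y (σ i) - y i = m) :
    ∃ w ∈ Gx p y, w⁻¹ = w ∧ (∀ g i j, nu y (w.1.1 * g) i j = nu y g (σ i) j) ∧
      (∀ g i j, nu y (g * w.1.1) i j = nu y g i (σ j)) ∧
      w.1.1.det ^ 2 = 1 ∧ (∀ i j, σ = Equiv.swap i j → i ≠ j → w.1.1.det = -1) := by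
  choose n hn using h3
  have p0 : (p : ℚ_[p]) ≠ 0 := Nat.cast_ne_zero.2 (Fact.out : p.Prime).ne_zero
  let d : Ix N → ℚ_[p] := fun i => (p : ℚ_[p]) ^ (-n i)
  have dd : ∀ {i j}, (n i : ℝ) + n j = 0 → d i * d j = 1 := fun {i j} e => by
    have e' : -n i + -n j = 0 := by
      have : n i + n j = 0 := by exact_mod_cast e
      omega
    simp only [d]
    rw [← zpow_add₀ p0, e', zpow_zero]
  have d1 : ∀ i, d (σ i) * d i = 1 := fun i => dd (by rw [← hn, ← hn, h1]; ring)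
  have d2 : ∀ i, d i * d (bar i) = 1 := fun i => dd (by rw [← hn, ← hn, h2, hy, hy]; ring)
  have nd : ∀ i, ‖d i‖ = (p : ℝ) ^ (y (σ i) - y i) := fun i => by
    simp only [d]
    rw [Padic.norm_p_zpow, neg_neg, hn, Real.rpow_intCast]
  let w : Matrix (Ix N) (Ix N) ℚ_[p] := (diagonal d).submatrix σ id
  have wv : ∀ i j, w i j = if σ i = j then d j else 0 := fun i j => by
    simp only [w, submatrix_apply, id, diagonal_apply]
    split_ifs with e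
    exacts [by rw [e], rfl]
  have wl : ∀ g : Matrix (Ix N) (Ix N) ℚ_[p], ∀ i j, (w * g) i j = d (σ i) * g (σ i) j := by
    intro g i j
    simp [Matrix.mul_apply, wv]
  have wr : ∀ g : Matrix (Ix N) (Ix N) ℚ_[p], ∀ i j, (g * w) i j = g i (σ j) * d j := by
    intro g i j
    rw [Matrix.mul_apply, Finset.sum_eq_single (σ j) (fun k _ hk => ?_) (by simp), wv, if_pos (h1 j)]
    rw [wv, if_neg fun e => hk (by rw [← e, h1]), mul_zero]
  have ww : w * w = 1 := by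
    ext i j
    rw [wl, wv, h1, one_apply]
    split_ifs with e
    exacts [e ▸ d1 i, mul_zero _]
  have wo : wᵀ * hypW N ℚ_[p] * w = hypW N ℚ_[p] := by
    ext i j
    have e : (wᵀ * hypW N ℚ_[p]) i (σ j) = hypW N ℚ_[p] (σ i) (σ j) * d i := by
      rw [← transpose_apply (wᵀ * hypW N ℚ_[p]), transpose_mul, transpose_transpose, wr,
        transpose_apply]
    have hb : ∀ i j : Ix N, hypW N ℚ_[p] i j = if j = bar i then 1 else 0 := fun _ _ => rfl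
    rw [wr, e, hb, hb, ← h2]
    simp only [σ.injective.eq_iff]
    split_ifs with e'
    · rw [one_mul, e', d2]
    · simp
  have nl : ∀ g : Matrix (Ix N) (Ix N) ℚ_[p], ∀ i j, nu y (w * g) i j = nu y g (σ i) j := by
    intro g i j
    rw [nu, nu, wl, norm_mul, nd, h1, div_eq_div_iff (rp _).ne' (rp _).ne', mul_right_comm,
      ← Real.rpow_add ppos, mul_comm]
    congr 2
    ring
  have nr : ∀ g : Matrix (Ix N) (Ix N) ℚ_[p], ∀ i j, nu y (g * w) i j = nu y g i (σ j) := by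
    intro g i j
    rw [nu, nu, wr, norm_mul, nd, div_eq_div_iff (rp _).ne' (rp _).ne', mul_assoc,
      ← Real.rpow_add ppos]
    congr 2
    ring
  let W : Osp N p := ⟨⟨w, w, ww, ww⟩, wo⟩
  refine ⟨W, (mem_Gx hy W).2 fun i j => nu_le.1 ?_, rfl, nl, nr, ?_, fun i j e hij => ?_⟩
  · have := nl 1 i j
    rw [Matrix.mul_one] at this
    exact this.trans_le (nu_le.2 (wb_one y _ _))
  · change w.det ^ 2 = 1
    rw [sq, ← det_mul, ww, det_one]
  · change w.det = -1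
    have e1 : ∏ k, d k = 1 := by
      rw [← Finset.mul_prod_erase _ _ (Finset.mem_univ i),
        ← Finset.mul_prod_erase _ _ (Finset.mem_erase.2 ⟨hij.symm, Finset.mem_univ j⟩),
        ← mul_assoc, Finset.prod_eq_one, mul_one]
      · have := d1 j
        rwa [e, Equiv.swap_apply_right] at this
      · intro k hk
        simp only [Finset.mem_erase] at hk
        have : (n k : ℝ) = 0 := by
          rw [← hn, e, Equiv.swap_apply_of_ne_of_ne hk.2.1 hk.1, sub_self]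
        have h0 : n k = 0 := by exact_mod_cast this
        simp [d, h0]
    rw [det_permute, det_diagonal, e1, e, Equiv.Perm.sign_swap hij]
    simp

theorem bar_inj {i j : Ix N} : bar i = bar j ↔ i = j :=
  ⟨fun e => by rw [← bar_bar i, e, bar_bar], fun e => by rw [e]⟩

theorem exists_perm {i₀ j₀ : Ix N} (hy : AntiW y) (hw : Wall y i₀ j₀) :
    ∃ σ : Equiv.Perm (Ix N), (∀ i, σ (σ i) = i) ∧ (∀ i, σ (bar i) = bar (σ i)) ∧
      (∀ i, ∃ m : ℤ, y (σ i) - y i = m) ∧ σ i₀ = j₀ ∧ (j₀ = bar i₀ → σ = Equiv.swap i₀ j₀) := by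
  obtain ⟨k, hk⟩ := hw.2.1
  have sw : ∀ a b : Ix N, (∃ m : ℤ, y a - y b = m) → ∀ i, ∃ m : ℤ, y (Equiv.swap a b i) - y i = m := by
    rintro a b ⟨m, hm⟩ i
    rw [Equiv.swap_apply_def]
    split_ifs with e1 e2
    · exact ⟨-m, by rw [e1]; push_cast; linarith⟩
    · exact ⟨m, by rw [e2, hm]⟩
    · exact ⟨0, by simp⟩
  have sb : ∀ a b i : Ix N, Equiv.swap (bar a) (bar b) (bar i) = bar (Equiv.swap a b i) := by
    intro a b i
    simp only [Equiv.swap_apply_def, bar_inj]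
    split_ifs <;> rfl
  by_cases ht : j₀ = bar i₀
  · refine ⟨Equiv.swap i₀ j₀, fun i => Equiv.swap_apply_self _ _ _, fun i => ?_, sw _ _ ⟨k, hk⟩,
      Equiv.swap_apply_left _ _, fun _ => rfl⟩
    rw [← sb, ht, bar_bar, Equiv.swap_comm]
  · have n1 : i₀ ≠ bar i₀ := (bar_ne _).symm
    have n2 : i₀ ≠ bar j₀ := fun e => ht (by rw [e, bar_bar])
    have n3 : j₀ ≠ bar j₀ := (bar_ne _).symm
    have dj : Equiv.Perm.Disjoint (Equiv.swap i₀ j₀) (Equiv.swap (bar i₀) (bar j₀)) := by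
      intro i
      by_cases e1 : i = i₀
      · exact Or.inr (Equiv.swap_apply_of_ne_of_ne (e1 ▸ n1) (e1 ▸ n2))
      by_cases e2 : i = j₀
      · exact Or.inr (Equiv.swap_apply_of_ne_of_ne (e2 ▸ ht) (e2 ▸ n3))
      exact Or.inl (Equiv.swap_apply_of_ne_of_ne e1 e2)
    have cm := dj.commute
    refine ⟨Equiv.swap i₀ j₀ * Equiv.swap (bar i₀) (bar j₀), fun i => ?_, fun i => ?_, fun i => ?_,
      ?_, fun e => absurd e ht⟩
    · nth_rewrite 1 [cm.eq]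
      simp only [Equiv.Perm.mul_apply, Equiv.swap_apply_self]
    · nth_rewrite 1 [cm.eq]
      have e := sb (bar i₀) (bar j₀)
      simp only [bar_bar] at e
      rw [Equiv.Perm.mul_apply, Equiv.Perm.mul_apply, e, sb]
    · obtain ⟨m, hm⟩ := sw i₀ j₀ ⟨k, hk⟩ (Equiv.swap (bar i₀) (bar j₀) i)
      obtain ⟨m', hm'⟩ := sw (bar i₀) (bar j₀) ⟨-k, by rw [hy, hy]; push_cast; linarith⟩ i
      exact ⟨m + m', by rw [Equiv.Perm.mul_apply]; push_cast; linarith⟩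
    · rw [Equiv.Perm.mul_apply, Equiv.swap_apply_of_ne_of_ne n1 n2, Equiv.swap_apply_left]

theorem wall_symm {i₀ j₀ : Ix N} (hw : Wall y i₀ j₀) : Wall y j₀ i₀ := by
  obtain ⟨h1, ⟨k, hk⟩, h3⟩ := hw
  refine ⟨h1.symm, ⟨-k, by push_cast; linarith⟩, fun i j hij h => ?_⟩
  have := h3 i j hij h
  tauto

theorem wall_cl {i₀ j₀ : Ix N} (hw : Wall y i₀ j₀) : Cl y i₀ j₀ := by
  refine ⟨hw.1, fun k hk => ?_⟩
  by_cases e : i₀ = k
  · exact Or.inl e.symm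
  rcases hw.2.2 i₀ k e hk with h | h | h | h
  · exact Or.inr h.2
  · exact absurd h.1 hw.1
  · exact absurd h.1.symm (bar_ne _)
  · exact Or.inr (by rw [h.2, h.1, bar_bar])

theorem strict_iff {l : Ix N → ℤ} (hl' : ∀ i, l (bar i) = -l i) {i₀ j₀ : Ix N}
    (hw : Wall y i₀ j₀) (hlt : l j₀ < l i₀) (hg : Wb y g) :
    (∀ i j, l i < l j → ‖g i j‖ < (p : ℝ) ^ (y i - y j)) ↔
      nu y g j₀ i₀ < 1 ∧ nu y g (bar i₀) (bar j₀) < 1 := by
  have hb : l (bar i₀) < l (bar j₀) := by rw [hl', hl']; omega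
  refine ⟨fun h => ⟨nu_lt.2 (h _ _ hlt), nu_lt.2 (h _ _ hb)⟩, fun h i j hij => nu_lt.1 ?_⟩
  by_cases e : ∃ k : ℤ, y i - y j = k
  · rcases hw.2.2 i j (fun e' => by rw [e'] at hij; exact lt_irrefl _ hij) e with
      ⟨rfl, rfl⟩ | ⟨rfl, rfl⟩ | ⟨rfl, rfl⟩ | ⟨rfl, rfl⟩
    · omega
    · exact h.1
    · exact h.2
    · omega
  · exact nu_lt_of hg e

theorem step (hp : p ≠ 2) {l : Ix N → ℤ} (hl' : ∀ i, l (bar i) = -l i) (hy : AntiW y)
    {i₀ j₀ : Ix N} (hw : Wall y i₀ j₀) (hlt : l j₀ < l i₀) :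
    ∃ ε₀ : ℝ, 0 < ε₀ ∧ ∀ ε : ℝ, 0 < ε → ε < ε₀ → ∃ w ∈ Gx p y,
      w ∉ Gx p (pt l y ε) ∧ Gx p (pt l y ε) ≤ Gx p y ∧
      Gx p (pt l y (-ε)) = (Gx p (pt l y ε)).map (MulAut.conj w).toMonoidHom ∧
      (∀ g ∈ Gx p y, w⁻¹ * g ∉ Gx p (pt l y ε) → Big l g.1.1) ∧
      (j₀ = bar i₀ → Gx p (pt l y (-ε)) = Gx p (pt l y ε) ∧ w.1.1.det = -1) := by
  obtain ⟨ε₀, h0, H⟩ := exists_mem_Gx_pt (p := p) l hl' hy
  obtain ⟨σ, s1, s2, s3, s4, s5⟩ := exists_perm hy hw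
  obtain ⟨w, hwG, wi, wl, wr, -, wd⟩ := exists_w (p := p) hy σ s1 s2 s3
  have s4' : σ j₀ = i₀ := by rw [← s4, s1]
  refine ⟨ε₀, h0, fun ε e1 e2 => ?_⟩
  have P : ∀ g : Osp N p, g ∈ Gx p (pt l y ε) ↔ g ∈ Gx p y ∧
      nu y g.1.1 j₀ i₀ < 1 ∧ nu y g.1.1 (bar i₀) (bar j₀) < 1 := fun g => by
    rw [(H ε e1 e2 g).1]
    exact and_congr_right fun hg => strict_iff hl' hw hlt hg.1
  have M : ∀ g : Osp N p, g ∈ Gx p (pt l y (-ε)) ↔ g ∈ Gx p y ∧
      nu y g.1.1 i₀ j₀ < 1 ∧ nu y g.1.1 (bar j₀) (bar i₀) < 1 := fun g => by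
    rw [(H ε e1 e2 g).2]
    refine and_congr_right fun hg => ?_
    rw [← strict_iff (l := fun i => -l i) (fun i => by simp [hl']) (wall_symm hw) (by omega) hg.1]
    simp only [neg_lt_neg_iff]
  have inv : ∀ g : Osp N p, g.1.1 * (g⁻¹).1.1 = 1 ∧ (g⁻¹).1.1 * g.1.1 = 1 := fun g =>
    ⟨g.1.mul_inv, g.1.inv_mul⟩
  refine ⟨w, hwG, fun h => ?_, fun g hg => ((P g).1 hg).1, ?_, fun g hg h => ?_, fun e => ⟨?_, ?_⟩⟩
  · have := ((P w).1 h).2.1
    rw [← Matrix.mul_one w.1.1, wl, s4', nu_self] at this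
    simp at this
  · ext g
    rw [Subgroup.mem_map_equiv, M, P, MulAut.conj_symm_apply, wi]
    simp only [Subgroup.coe_mul, Units.val_mul, wr, wl, s2, s4, s4']
    refine and_congr_left fun _ => ⟨fun hg => mul_mem (mul_mem hwG hg) hwG, fun hg => ?_⟩
    exact (Subgroup.mul_mem_cancel_left _ hwG).1 ((Subgroup.mul_mem_cancel_right _ hwG).1 hg)
  · rw [P, wi] at h
    simp only [Subgroup.coe_mul, Units.val_mul, wl, s2, s4, s4', mul_mem hwG hg, true_and] at h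
    have a : nu y g.1.1 i₀ i₀ < 1 ↔ nu y g.1.1 (bar j₀) (bar j₀) < 1 := by
      rw [nu_self (bar j₀), ← osp_inv_apply, ← nu_self (y := y)]
      exact ⟨dual hg.1 hg.2 (inv g).1 (wall_cl hw),
        dual hg.2 hg.1 (inv g).2 (wall_cl (wall_symm hw))⟩
    have a1 : ¬ nu y g.1.1 i₀ i₀ < 1 := fun b => h ⟨b, a.1 b⟩
    refine big_of_wall hl' hw hlt hg ?_ ?_
    · rw [← nu_self (y := y)]
      exact le_antisymm (nu_le.2 (hg.1 _ _)) (not_lt.1 a1)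
    · rw [← nu_self (y := y)]
      exact le_antisymm (nu_le.2 (hg.1 _ _)) (not_lt.1 fun b => a1 (a.2 b))
  · subst e
    ext g
    rw [M, P, bar_bar, and_self, and_self]
    refine and_congr_right fun hg => ⟨fun b => ?_, thin hp hg (wall_cl hw)⟩
    have c := thin hp hg (i := bar i₀) (by rw [bar_bar]; exact wall_cl (wall_symm hw))
    rw [bar_bar] at c
    exact c b
  · exact wd _ _ (s5 e) hw.1

end Hk3Aux

open Hk3Aux in
theorem wall_step (hp : p ≠ 2) {l : Ix N → ℤ} (hl : Function.Injective l)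
    (hl' : ∀ i, l (bar i) = -l i) {y : Ix N → ℝ} (hy : AntiW y) {i₀ j₀ : Ix N}
    (hw : Wall y i₀ j₀) : ∃ ε₀ : ℝ, 0 < ε₀ ∧ ∀ ε : ℝ, 0 < ε → ε < ε₀ → ∃ w ∈ Gx p y,
      w ∉ Gx p (pt l y ε) ∧ Gx p (pt l y ε) ≤ Gx p y ∧
      Gx p (pt l y (-ε)) = (Gx p (pt l y ε)).map (MulAut.conj w).toMonoidHom ∧
      (∀ g ∈ Gx p y, w⁻¹ * g ∉ Gx p (pt l y ε) → Big l g.1.1) ∧
      (j₀ = bar i₀ → Gx p (pt l y (-ε)) = Gx p (pt l y ε) ∧ w.1.1.det = -1) := by
  rcases lt_or_gt_of_ne (hl.ne hw.1) with h | h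
  · obtain ⟨ε₀, h0, H⟩ := step hp hl' hy (wall_symm hw) h
    refine ⟨ε₀, h0, fun ε e1 e2 => ?_⟩
    obtain ⟨w, a1, a2, a3, a4, a5, a6⟩ := H ε e1 e2
    exact ⟨w, a1, a2, a3, a4, a5, fun e => a6 (by rw [e, bar_bar])⟩
  · exact step hp hl' hy hw h

end Pool.Agent.P.MP_3c2f8c_gt
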