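import Pool.Agent.P.MP_3c2f8c_gt.Lo.Top

/-! LO-7: the tangent space of a subgroup. -/

namespace Pool.Agent.P.MP_3c2f8c_gt

open Matrix

variable {p : ℕ} [Fact p.Prime] {κ : Type} [Fintype κ] [DecidableEq κ] {S : Matrix κ κ ℚ_[p]}

namespace Tan1Aux

set_option linter.unusedSectionVars false

open Filter Topology
open scoped Matrix.Norms.Elementwise

theorem p_ne : (p : ℚ_[p]) ≠ 0 := by exact_mod_cast (Fact.out : p.Prime).ne_zero

theorem pk_ne (k : ℕ) : (p : ℚ_[p]) ^ k ≠ 0 := pow_ne_zero _ p_ne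

theorem pk_lim : Tendsto (fun k : ℕ => (p : ℚ_[p]) ^ k) atTop (𝓝 0) :=
  tendsto_pow_atTop_nhds_zero_of_norm_lt_one Padic.norm_p_lt_one

/-- the rescaled difference from the identity -/
noncomputable def sc (k : ℕ) (c : Matrix κ κ ℚ_[p]) : Matrix κ κ ℚ_[p] :=
  ((p : ℚ_[p]) ^ k)⁻¹ • (c - 1)

theorem eq_sc (k : ℕ) (c : Matrix κ κ ℚ_[p]) : c = 1 + (p : ℚ_[p]) ^ k • sc k c := by
  rw [sc, smul_smul, mul_inv_cancel₀ (pk_ne k), one_smul, add_sub_cancel]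

theorem sc_eq (k : ℕ) (Y : Matrix κ κ ℚ_[p]) : sc k (1 + (p : ℚ_[p]) ^ k • Y) = Y := by
  rw [sc, add_sub_cancel_left, smul_smul, inv_mul_cancel₀ (pk_ne k), one_smul]

theorem sc_mul (k : ℕ) (c d : Matrix κ κ ℚ_[p]) :
    sc k (c * d) = sc k c + sc k d + (p : ℚ_[p]) ^ k • (sc k c * sc k d) := by
  conv_lhs => rw [eq_sc k c, eq_sc k d]
  rw [← sc_eq k (sc k c + sc k d + (p : ℚ_[p]) ^ k • (sc k c * sc k d))]
  congr 1
  simp only [mul_add, add_mul, mul_one, one_mul, smul_add, smul_mul_assoc, mul_smul_comm]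
  abel

theorem tan_iff {Γ : Subgroup (Ort S)} {X : Matrix κ κ ℚ_[p]} : Tan Γ X ↔
    ∀ ε : ℝ, 0 < ε → ∃ k₀ : ℕ, ∀ k : ℕ, k₀ ≤ k → ∃ c ∈ Γ, ‖sc k c.1.1 - X‖ ≤ ε := by
  refine forall₂_congr fun ε hε => exists_congr fun k₀ => forall₂_congr fun k _ =>
    exists_congr fun c => and_congr_right fun _ => ?_
  have hk : 0 < ‖(p : ℚ_[p]) ^ k‖ := norm_pos_iff.mpr (pk_ne k)
  have e : c.1.1 - 1 - (p : ℚ_[p]) ^ k • X = (p : ℚ_[p]) ^ k • (sc k c.1.1 - X) := by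
    rw [smul_sub, sc, smul_smul, mul_inv_cancel₀ (pk_ne k), one_smul]
  rw [Matrix.norm_le_iff hε.le, e]
  refine forall₂_congr fun i j => ?_
  rw [Matrix.smul_apply, smul_eq_mul, norm_mul, mul_comm ε, mul_le_mul_iff_right₀ hk]

theorem tan_seq {Γ : Subgroup (Ort S)} {X : Matrix κ κ ℚ_[p]} : Tan Γ X ↔
    ∃ c : ℕ → Ort S, (∀ k, c k ∈ Γ) ∧ Tendsto (fun k => sc k (c k).1.1) atTop (𝓝 X) := by
  rw [tan_iff]
  constructor
  · intro h
    let A : ℕ → Set (Matrix κ κ ℚ_[p]) := fun k => (fun c : Ort S => sc k c.1.1) '' Γ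
    have hA : ∀ k, (A k).Nonempty := fun k => ⟨_, 1, Γ.one_mem, rfl⟩
    have h1 : ∀ k : ℕ, ∃ c ∈ Γ,
        dist X (sc k c.1.1) < Metric.infDist X (A k) + 1 / ((k : ℝ) + 1) := fun k => by
      obtain ⟨_, ⟨c, hc, rfl⟩, h2⟩ := (Metric.infDist_lt_iff (x := X) (hA k)).mp
        (lt_add_of_pos_right _ (Nat.one_div_pos_of_nat (n := k)))
      exact ⟨c, hc, h2⟩
    choose c hc hd using h1
    refine ⟨c, hc, ?_⟩
    have h2 : Tendsto (fun k => Metric.infDist X (A k)) atTop (𝓝 0) := by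
      rw [Metric.tendsto_atTop]
      intro ε hε
      obtain ⟨k₀, hk⟩ := h (ε / 2) (half_pos hε)
      refine ⟨k₀, fun k hk' => ?_⟩
      obtain ⟨d, hdΓ, hd⟩ := hk k hk'
      rw [Real.dist_0_eq_abs, abs_of_nonneg Metric.infDist_nonneg]
      have h3 : Metric.infDist X (A k) ≤ dist X (sc k d.1.1) :=
        Metric.infDist_le_dist_of_mem ⟨d, hdΓ, rfl⟩
      rw [dist_comm, dist_eq_norm] at h3
      linarith
    have h3 := h2.add tendsto_one_div_add_atTop_nhds_zero_nat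
    rw [add_zero] at h3
    refine tendsto_iff_dist_tendsto_zero.mpr ?_
    exact squeeze_zero (fun _ => dist_nonneg) (fun k => by rw [dist_comm]; exact (hd k).le) h3
  · rintro ⟨c, hc, h⟩ ε hε
    obtain ⟨k₀, hk⟩ := Metric.tendsto_atTop.mp h ε hε
    exact ⟨k₀, fun k hk' => ⟨c k, hc k, by rw [← dist_eq_norm]; exact (hk k hk').le⟩⟩

theorem lim_mul {c d : ℕ → Matrix κ κ ℚ_[p]} {X Y : Matrix κ κ ℚ_[p]}
    (hc : Tendsto (fun k => sc k (c k)) atTop (𝓝 X))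
    (hd : Tendsto (fun k => sc k (d k)) atTop (𝓝 Y)) :
    Tendsto (fun k => sc k (c k * d k)) atTop (𝓝 (X + Y)) := by
  have h := (hc.add hd).add ((pk_lim (p := p)).smul (hc.mul hd))
  rw [zero_smul, add_zero] at h
  simpa only [sc_mul] using h

theorem lim_pow {c : ℕ → Matrix κ κ ℚ_[p]} {X : Matrix κ κ ℚ_[p]}
    (hc : Tendsto (fun k => sc k (c k)) atTop (𝓝 X)) (m : ℕ) :
    Tendsto (fun k => sc k (c k ^ m)) atTop (𝓝 ((m : ℚ_[p]) • X)) := by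
  induction m with
  | zero => simp [sc]
  | succ m ih =>
    have h := lim_mul ih hc
    simpa only [pow_succ, Nat.cast_succ, add_smul, one_smul] using h

theorem tan_add {Γ : Subgroup (Ort S)} {X Y : Matrix κ κ ℚ_[p]} (hX : Tan Γ X) (hY : Tan Γ Y) :
    Tan Γ (X + Y) := by
  obtain ⟨c, hc, h⟩ := tan_seq.mp hX
  obtain ⟨d, hd, h'⟩ := tan_seq.mp hY
  exact tan_seq.mpr ⟨fun k => c k * d k, fun k => Γ.mul_mem (hc k) (hd k), lim_mul h h'⟩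

theorem tan_nat {Γ : Subgroup (Ort S)} {X : Matrix κ κ ℚ_[p]} (hX : Tan Γ X) (m : ℕ) :
    Tan Γ ((m : ℚ_[p]) • X) := by
  obtain ⟨c, hc, h⟩ := tan_seq.mp hX
  refine tan_seq.mpr ⟨fun k => c k ^ m, fun k => Γ.pow_mem (hc k) m, ?_⟩
  simpa only [Subgroup.coe_pow, Units.val_pow_eq_pow_val] using lim_pow h m

theorem tan_inv {Γ : Subgroup (Ort S)} {X : Matrix κ κ ℚ_[p]} (hX : Tan Γ X) :
    Tan Γ ((p : ℚ_[p])⁻¹ • X) := by
  obtain ⟨c, hc, h⟩ := tan_seq.mp hX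
  refine tan_seq.mpr ⟨fun k => c (k - 1), fun k => hc _, ?_⟩
  rw [← tendsto_add_atTop_iff_nat 1]
  refine (h.const_smul (p : ℚ_[p])⁻¹).congr fun k => ?_
  simp only [sc, Nat.add_sub_cancel, smul_smul, pow_succ, _root_.mul_inv_rev]

theorem tan_closed (Γ : Subgroup (Ort S)) : IsClosed {X | Tan Γ X} := by
  refine isClosed_of_closure_subset fun X hX => tan_iff.mpr fun ε hε => ?_
  obtain ⟨Y, hY, hd⟩ := Metric.mem_closure_iff.mp hX (ε / 2) (half_pos hε)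
  obtain ⟨k₀, hk⟩ := tan_iff.mp hY (ε / 2) (half_pos hε)
  refine ⟨k₀, fun k hk' => ?_⟩
  obtain ⟨c, hc, h⟩ := hk k hk'
  refine ⟨c, hc, ?_⟩
  rw [← dist_eq_norm] at h ⊢
  have := dist_triangle_right (sc k c.1.1) X Y
  linarith

theorem tan_smul {Γ : Subgroup (Ort S)} {X : Matrix κ κ ℚ_[p]} (hX : Tan Γ X) (a : ℚ_[p]) :
    Tan Γ (a • X) := by
  have h1 : ∀ b : ℤ_[p], Tan Γ ((b : ℚ_[p]) • X) := fun b => by
    refine PadicInt.denseRange_natCast.induction_on b ?_ fun m => ?_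
    · exact (tan_closed Γ).preimage (f := fun b : ℤ_[p] => (b : ℚ_[p]) • X)
        (continuous_subtype_val.smul continuous_const)
    · rw [PadicInt.coe_natCast]
      exact tan_nat hX m
  have h2 : ∀ (j : ℕ) (a : ℚ_[p]), ‖(p : ℚ_[p]) ^ j * a‖ ≤ 1 → Tan Γ (a • X) := fun j => by
    induction j with
    | zero => exact fun a ha => h1 ⟨a, by simpa using ha⟩
    | succ j ih =>
      intro a ha
      have h3 := tan_inv (ih (p * a) (by rwa [← mul_assoc, ← pow_succ]))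
      rwa [smul_smul, inv_mul_cancel_left₀ p_ne] at h3
  have h3 := (pk_lim (p := p).mul_const a).norm
  rw [zero_mul, norm_zero] at h3
  obtain ⟨j, hj⟩ := (h3.eventually (ge_mem_nhds zero_lt_one)).exists
  exact h2 j a hj

theorem norm_add_le {A B : Matrix κ κ ℚ_[p]} {r : ℝ} (hA : ‖A‖ ≤ r) (hB : ‖B‖ ≤ r) :
    ‖A + B‖ ≤ r := by
  have hr : 0 ≤ r := (norm_nonneg _).trans hA
  rw [Matrix.norm_le_iff hr] at hA hB ⊢
  exact fun i j => (IsUltrametricDist.norm_add_le_max _ _).trans (max_le (hA i j) (hB i j))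

theorem norm_mul_le {A B : Matrix κ κ ℚ_[p]} (hA : ‖A‖ ≤ 1) (hB : ‖B‖ ≤ 1) : ‖A * B‖ ≤ 1 := by
  rw [Matrix.norm_le_iff zero_le_one] at hA hB ⊢
  intro i j
  rw [Matrix.mul_apply]
  refine IsUltrametricDist.norm_sum_le_of_forall_le_of_nonneg zero_le_one fun l _ => ?_
  rw [norm_mul]
  exact mul_le_one₀ (hA i l) (norm_nonneg _) (hB l j)

theorem norm_smul_le_one {a : ℚ_[p]} {A : Matrix κ κ ℚ_[p]} (ha : ‖a‖ ≤ 1) (hA : ‖A‖ ≤ 1) :
    ‖a • A‖ ≤ 1 := by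
  rw [norm_smul]
  exact mul_le_one₀ ha (norm_nonneg _) hA

theorem pow_eq {t : ℚ_[p]} (ht : ‖t‖ ≤ 1) {Z : Matrix κ κ ℚ_[p]} (hZ : ‖Z‖ ≤ 1) (m : ℕ) :
    ∃ W : Matrix κ κ ℚ_[p], ‖W‖ ≤ 1 ∧
      (1 + t • Z) ^ m = 1 + ((m : ℚ_[p]) * t) • Z + (t * t) • W := by
  induction m with
  | zero => exact ⟨0, by simp, by simp⟩
  | succ m ih =>
    obtain ⟨W, hW, e⟩ := ih
    refine ⟨W + (m : ℚ_[p]) • (Z * Z) + t • (W * Z), norm_add_le (norm_add_le hW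
      (norm_smul_le_one (IsUltrametricDist.norm_natCast_le_one _ m) (norm_mul_le hZ hZ)))
      (norm_smul_le_one ht (norm_mul_le hW hZ)), ?_⟩
    rw [pow_succ, e]
    simp only [mul_add, add_mul, mul_one, one_mul, smul_mul_assoc, mul_smul_comm, Nat.cast_succ]
    module

theorem step {X c : Matrix κ κ ℚ_[p]} (hX : ‖X‖ ≤ 1) {ε : ℝ} (hε : ε ≤ 1) {j : ℕ}
    (hj : ‖(p : ℚ_[p]) ^ j‖ ≤ ε) (hc : ‖sc (j + 1) c - X‖ ≤ ε) :
    ‖sc (j + 2) (c ^ p) - X‖ ≤ ε := by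
  have hZ : ‖sc (j + 1) c‖ ≤ 1 := by
    have := norm_add_le (hc.trans hε) hX
    rwa [sub_add_cancel] at this
  have ht : ‖(p : ℚ_[p]) ^ (j + 1)‖ ≤ 1 := by
    rw [norm_pow]
    exact pow_le_one₀ (norm_nonneg _) Padic.norm_p_lt_one.le
  obtain ⟨W, hW, e⟩ := pow_eq ht hZ p
  rw [← eq_sc] at e
  have e2 : c ^ p = 1 + (p : ℚ_[p]) ^ (j + 2) • (sc (j + 1) c + (p : ℚ_[p]) ^ j • W) := by
    rw [e]
    module
  rw [e2, sc_eq, add_sub_right_comm]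
  refine norm_add_le hc ?_
  rw [norm_smul]
  exact (mul_le_of_le_one_right (norm_nonneg _) hW).trans hj

theorem exists_near0 {G : Type} [Group G] [TopologicalSpace G] [IsTopologicalGroup G]
    {Γ K : Subgroup G} (hK : IsCompact (K : Set G)) (hΓ : Γ ≤ K) (hinf : Infinite Γ) {N : Set G}
    (hN : N ∈ 𝓝 (1 : G)) : ∃ c ∈ Γ, c ≠ 1 ∧ c ∈ N := by
  have hc : Continuous fun q : G × G => q.1⁻¹ * q.2 := continuous_fst.inv.mul continuous_snd
  have h1 : ∀ x : G, ∃ U ∈ 𝓝 x, U ×ˢ U ⊆ (fun q : G × G => q.1⁻¹ * q.2) ⁻¹' N := fun x => by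
    rw [← Filter.mem_prod_self_iff, ← nhds_prod_eq]
    refine hc.continuousAt.preimage_mem_nhds ?_
    simpa using hN
  choose U hU hUU using h1
  obtain ⟨t, -, ht⟩ := hK.elim_nhds_subcover U fun x _ => hU x
  have h2 : ∀ γ : Γ, ∃ x : t, γ.1 ∈ U x.1 := fun γ => by
    obtain ⟨x, hx, h⟩ := Set.mem_iUnion₂.mp (ht (hΓ γ.2))
    exact ⟨⟨x, hx⟩, h⟩
  choose f hf using h2
  obtain ⟨a, b, hab, e⟩ := Finite.exists_ne_map_eq_of_infinite f
  have hb : b.1 ∈ U (f a).1 := by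
    rw [e]
    exact hf b
  refine ⟨a.1⁻¹ * b.1, Γ.mul_mem (Γ.inv_mem a.2) b.2, fun h => hab ?_,
    hUU (f a).1 (Set.mk_mem_prod (hf a) hb)⟩
  exact Subtype.ext (inv_mul_eq_one.mp h)

theorem exists_near {Γ K : Subgroup (Ort S)} (hK : IsCompact (K : Set (Ort S)))
    (hΓ : Γ ≤ K) (hinf : Infinite Γ) {ε : ℝ} (hε : 0 < ε) :
    ∃ c ∈ Γ, c ≠ 1 ∧ ‖c.1.1 - 1‖ < ε := by
  have hc1 : Continuous fun q : Ort S => q.1.1 - 1 :=
    (Units.continuous_val.comp continuous_subtype_val).sub continuous_const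
  have hc2 : Continuous fun A : Matrix κ κ ℚ_[p] => ‖A‖ := continuous_norm
  have hc : Continuous fun q : Ort S => ‖q.1.1 - 1‖ := hc2.comp hc1
  refine exists_near0 hK hΓ hinf (N := {q | ‖q.1.1 - 1‖ < ε})
    ((isOpen_lt hc continuous_const).mem_nhds ?_)
  simpa using hε

theorem ne_zero {Γ K : Subgroup (Ort S)} (hK : IsCompact (K : Set (Ort S)))
    (hΓ : Γ ≤ K) (hinf : Infinite Γ) : ∃ X, X ≠ 0 ∧ Tan Γ X := by
  have hp0 : 0 < ‖(p : ℚ_[p])‖ := norm_pos_iff.mpr p_ne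
  have hp1 : ‖(p : ℚ_[p])‖ < 1 := Padic.norm_p_lt_one
  have h1 : ∀ n : ℕ, ∃ c ∈ Γ, ∃ j : ℕ, n ≤ j ∧ ‖(p : ℚ_[p])‖ ≤ ‖sc (j + 1) c.1.1‖ ∧
      ‖sc (j + 1) c.1.1‖ ≤ 1 := fun n => by
    obtain ⟨c, hc, hc1, h⟩ := exists_near hK hΓ hinf (pow_pos hp0 (n + 1))
    have h0 : 0 < ‖c.1.1 - 1‖ := by
      rw [norm_pos_iff, sub_ne_zero]
      exact fun h => hc1 (Subtype.ext (Units.ext h))
    obtain ⟨k, hk1, hk2⟩ := exists_nat_pow_near_of_lt_one h0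
      (h.le.trans (pow_le_one₀ hp0.le hp1.le)) hp0 hp1
    have hk : n + 1 < k + 1 := (pow_lt_pow_iff_right_of_lt_one₀ hp0 hp1).mp (hk1.trans h)
    obtain ⟨j, rfl⟩ : ∃ j, k = j + 1 := ⟨k - 1, by omega⟩
    have hn : ‖sc (j + 1) c.1.1‖ = (‖(p : ℚ_[p])‖ ^ (j + 1))⁻¹ * ‖c.1.1 - 1‖ := by
      rw [sc, norm_smul, norm_inv, norm_pow]
    refine ⟨c, hc, j, by omega, ?_, ?_⟩
    · rw [hn, le_inv_mul_iff₀ (pow_pos hp0 _), ← pow_succ]
      exact hk1.le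
    · rw [hn, inv_mul_le_iff₀ (pow_pos hp0 _), mul_one]
      exact hk2
  choose c hc j hj hl hu using h1
  have : ProperSpace (Matrix κ κ ℚ_[p]) := inferInstanceAs (ProperSpace (κ → κ → ℚ_[p]))
  obtain ⟨X, hX, φ, hφ, hlim⟩ := (isCompact_closedBall (0 : Matrix κ κ ℚ_[p]) 1).tendsto_subseq
    (x := fun n => sc (j n + 1) (c n).1.1) fun n => mem_closedBall_zero_iff.mpr (hu n)
  rw [mem_closedBall_zero_iff] at hX
  have hX0 : ‖(p : ℚ_[p])‖ ≤ ‖X‖ := ge_of_tendsto' hlim.norm fun n => hl (φ n)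
  refine ⟨X, norm_pos_iff.mp (hp0.trans_le hX0), tan_iff.mpr fun ε hε => ?_⟩
  have hε' : 0 < min ε 1 := lt_min hε zero_lt_one
  obtain ⟨n₁, hn₁⟩ := Metric.tendsto_atTop.mp hlim _ hε'
  obtain ⟨n₂, hn₂⟩ := Metric.tendsto_atTop.mp (pk_lim (p := p)) _ hε'
  let n := φ (max n₁ n₂)
  have hn : n₂ ≤ j n := ((le_max_right _ _).trans (hφ.id_le _)).trans (hj n)
  have key : ∀ i, j n ≤ i → ∃ d ∈ Γ, ‖sc (i + 1) d.1.1 - X‖ ≤ min ε 1 := fun i hi => by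
    induction i, hi using Nat.le_induction with
    | base =>
      refine ⟨c n, hc n, ?_⟩
      rw [← dist_eq_norm]
      exact (hn₁ _ (le_max_left _ _)).le
    | succ i hi ih =>
      obtain ⟨d, hd, h⟩ := ih
      refine ⟨d ^ p, Γ.pow_mem hd p, ?_⟩
      rw [Subgroup.coe_pow, Units.val_pow_eq_pow_val]
      refine step hX (min_le_right _ _) ?_ h
      rw [← dist_zero_right]
      exact (hn₂ i (hn.trans hi)).le
  refine ⟨j n + 1, fun k hk => ?_⟩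
  obtain ⟨i, rfl⟩ : ∃ i, k = i + 1 := ⟨k - 1, by omega⟩
  obtain ⟨d, hd, h⟩ := key i (by omega)
  exact ⟨d, hd, h.trans (min_le_left _ _)⟩

end Tan1Aux

open Tan1Aux Filter Topology

theorem exists_tan_submodule (Γ : Subgroup (Ort S)) :
    ∃ V : Submodule ℚ_[p] (Matrix κ κ ℚ_[p]), ∀ X, X ∈ V ↔ Tan Γ X :=
  ⟨{ carrier := {X | Tan Γ X}
     add_mem' := tan_add
     zero_mem' := tan_seq.mpr ⟨fun _ => 1, fun _ => Γ.one_mem, by simp [sc]⟩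
     smul_mem' := fun a _ h => tan_smul h a }, fun _ => Iff.rfl⟩

theorem Tan.skew {Γ : Subgroup (Ort S)} {X : Matrix κ κ ℚ_[p]} (h : Tan Γ X) :
    Xᵀ * S = -(S * X) := by
  obtain ⟨c, -, h⟩ := tan_seq.mp h
  have hT : Tendsto (fun k => (sc k (c k).1.1)ᵀ) atTop (𝓝 Xᵀ) :=
    (continuous_id.matrix_transpose.tendsto X).comp h
  have h1 := ((hT.mul_const S).add (h.const_mul S)).add
    ((pk_lim (p := p)).smul ((hT.mul_const S).mul h))
  rw [zero_smul, add_zero] at h1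
  have h2 : ∀ k, (sc k (c k).1.1)ᵀ * S + S * sc k (c k).1.1 +
      (p : ℚ_[p]) ^ k • ((sc k (c k).1.1)ᵀ * S * sc k (c k).1.1) = 0 := fun k => by
    have h3 : (c k).1.1ᵀ * S * (c k).1.1 = S := (c k).2
    rw [eq_sc k (c k).1.1] at h3
    generalize sc k (c k).1.1 = Y at h3 ⊢
    simp only [transpose_add, transpose_one, transpose_smul, mul_add, add_mul, mul_one, one_mul,
      smul_mul_assoc, mul_smul_comm] at h3
    refine smul_right_injective _ (pk_ne (p := p) k) ?_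
    simp only [smul_zero]
    linear_combination (norm := module) h3
  simp only [h2] at h1
  exact eq_neg_of_add_eq_zero_left (tendsto_nhds_unique h1 tendsto_const_nhds)

theorem exists_tan_ne_zero {Γ K : Subgroup (Ort S)} (hK : IsCompact (K : Set (Ort S)))
    (hΓ : Γ ≤ K) (hinf : Infinite Γ) : ∃ X, X ≠ 0 ∧ Tan Γ X := Tan1Aux.ne_zero hK hΓ hinf

theorem Tan.conj {Γ : Subgroup (Ort S)} {X : Matrix κ κ ℚ_[p]} (h : Tan Γ X) {g : Ort S} {m : ℕ}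
    (hm : 0 < m) (hg : ∀ γ ∈ Γ, g * γ ^ m * g⁻¹ ∈ Γ) : Tan Γ (g.1.1 * X * (g⁻¹).1.1) := by
  obtain ⟨c, hc, h⟩ := tan_seq.mp h
  have h1 := ((lim_pow h m).const_mul g.1.1).mul_const (g⁻¹).1.1
  have hgg : g.1.1 * (g⁻¹).1.1 = 1 := by
    rw [← Units.val_mul, ← Subgroup.coe_mul, mul_inv_cancel, Subgroup.coe_one, Units.val_one]
  have h2 : Tan Γ (g.1.1 * ((m : ℚ_[p]) • X) * (g⁻¹).1.1) := by
    refine tan_seq.mpr ⟨fun k => g * c k ^ m * g⁻¹, fun k => hg _ (hc k), h1.congr fun k => ?_⟩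
    simp only [sc, Subgroup.coe_mul, Subgroup.coe_pow, Units.val_mul, Units.val_pow_eq_pow_val,
      mul_smul_comm, smul_mul_assoc, mul_sub, sub_mul, mul_one, hgg]
  have h3 := tan_smul h2 (m : ℚ_[p])⁻¹
  have hm' : (m : ℚ_[p]) ≠ 0 := by exact_mod_cast hm.ne'
  rwa [mul_smul_comm, smul_mul_assoc, smul_smul, inv_mul_cancel₀ hm', one_smul] at h3

end Pool.Agent.P.MP_3c2f8c_gt
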